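import Pool.Agent.Helper20.ZT.Defs

/-! # Every subvariety is in general position at the cusps after a Möbius transformation -/

namespace Pool.Agent.Helper20.ZT
open Finset MvPolynomial Pool.Agent.Helper11.ZP

/-- the Zariski closure of the image of `Z` under the coordinatewise Möbius transformation
`z_i ↦ 1 / (z_i - γ_i)` -/
def moeb {n : ℕ} (γ : Fin n → ℂ) (Z : Set (Fin n → ℂ)) : Set (Fin n → ℂ) :=
  zeroLocus ℂ (vanishingIdeal ℂ {w : Fin n → ℂ | ∃ z ∈ Z, ∀ i, z i ≠ γ i ∧ w i = 1 / (z i - γ i)})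

/-- the exponent of the top monomial -/
noncomputable def topE {n : ℕ} (F : MvPolynomial (Fin n) ℂ) : Fin n →₀ ℕ :=
  Finsupp.equivFunOnFinite.symm fun i => F.degreeOf i

/-- the reversed polynomial -/
noncomputable def rev {n : ℕ} (F : MvPolynomial (Fin n) ℂ) : MvPolynomial (Fin n) ℂ :=
  ∑ m ∈ F.support, monomial (topE F - m) (F.coeff m)

lemma le_topE {n : ℕ} {F : MvPolynomial (Fin n) ℂ} {m : Fin n →₀ ℕ} (hm : m ∈ F.support) :
    m ≤ topE F := fun i => monomial_le_degreeOf i hm

lemma rev_coeff_top {n : ℕ} (F : MvPolynomial (Fin n) ℂ) : (rev F).coeff (topE F) = F.coeff 0 := by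
  classical
  rw [rev, coeff_sum]
  simp only [coeff_monomial]
  by_cases h0 : (0 : Fin n →₀ ℕ) ∈ F.support
  · rw [Finset.sum_eq_single 0]
    · simp
    · intro m hm hne
      rw [if_neg]
      intro h
      apply hne
      have h1 := le_topE hm
      ext i
      have h2 := congrArg (fun e : Fin n →₀ ℕ => e i) h
      have h3 := h1 i
      simp only [Finsupp.coe_tsub, Pi.sub_apply] at h2
      simp only [Finsupp.coe_zero, Pi.zero_apply]
      omega
    · intro h; exact absurd h0 h
  · rw [notMem_support_iff.1 h0]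
    refine Finset.sum_eq_zero fun m hm => ?_
    rw [if_neg]
    intro h
    apply h0
    have h1 := le_topE hm
    have : m = 0 := by
      ext i
      have h2 := congrArg (fun e : Fin n →₀ ℕ => e i) h
      have h3 := h1 i
      simp only [Finsupp.coe_tsub, Pi.sub_apply] at h2
      simp only [Finsupp.coe_zero, Pi.zero_apply]
      omega
    rwa [← this]

lemma rev_degreeOf {n : ℕ} {F : MvPolynomial (Fin n) ℂ} (h0 : F.coeff 0 ≠ 0) (i : Fin n) :
    (rev F).degreeOf i = F.degreeOf i := by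
  classical
  apply le_antisymm
  · rw [degreeOf_le_iff]
    intro m hm
    rw [rev] at hm
    obtain ⟨m', _, h2⟩ := Finset.mem_biUnion.1 (support_sum hm)
    rw [support_monomial] at h2
    split_ifs at h2
    · simp at h2
    · rw [Finset.mem_singleton] at h2
      rw [h2]
      exact Nat.sub_le _ _
  · have h1 : topE F ∈ (rev F).support := by
      rw [mem_support_iff, rev_coeff_top]; exact h0
    exact monomial_le_degreeOf i h1

lemma rev_topIn {n : ℕ} {J : Finset (Fin n)} {F : MvPolynomial (Fin n) ℂ} (hv : F.vars ⊆ J)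
    (h0 : F.coeff 0 ≠ 0) : TopIn J (rev F) := by
  classical
  constructor
  · intro i hi
    apply hv
    rw [mem_vars_iff_mem_support] at hi
    obtain ⟨m, hm, hmi⟩ := hi
    by_contra hcon
    have h1 : (rev F).degreeOf i = 0 := by
      rw [rev_degreeOf h0, ← Nat.le_zero, degreeOf_le_iff]
      intro e he
      by_contra hne
      exact hcon ((mem_vars_iff_mem_support _).2 ⟨e, he, Finsupp.mem_support_iff.2 (by omega)⟩)
    have h2 := monomial_le_degreeOf i hm
    rw [Finsupp.mem_support_iff] at hmi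
    omega
  · have h1 : (Finsupp.equivFunOnFinite.symm fun i => (rev F).degreeOf i) = topE F := by
      unfold topE
      congr 1
      funext i
      exact rev_degreeOf h0 i
    rw [h1, rev_coeff_top]
    exact h0

lemma rev_eval {n : ℕ} (F : MvPolynomial (Fin n) ℂ) {w : Fin n → ℂ} (hw : ∀ i, w i ≠ 0) :
    eval w (rev F) = (∏ i, w i ^ F.degreeOf i) * eval (fun i => (w i)⁻¹) F := by
  rw [rev, map_sum, eval_eq', Finset.mul_sum]
  refine Finset.sum_congr rfl fun m hm => ?_
  rw [eval_monomial, Finsupp.prod_fintype _ _ (fun i => pow_zero _)]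
  have h1 : ∀ i, w i ^ ((topE F - m) i) = w i ^ F.degreeOf i * (w i)⁻¹ ^ m i := by
    intro i
    have h2 := le_topE hm i
    have h3 : (topE F - m) i + m i = F.degreeOf i := by
      rw [Finsupp.coe_tsub, Pi.sub_apply]
      exact Nat.sub_add_cancel h2
    rw [← h3, pow_add, inv_pow, mul_assoc, mul_inv_cancel₀ (pow_ne_zero _ (hw i)), mul_one]
  simp only [h1]
  rw [Finset.prod_mul_distrib]
  ring

/-- `dim V + 1` coordinates are algebraically dependent on `V` -/
lemma exists_dep {n : ℕ} {V : Set (Fin n → ℂ)} (hV : IsSubvariety V) {J : Finset (Fin n)}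
    (hJ : dim V < J.card) : ∃ g : MvPolynomial (Fin n) ℂ, g ≠ 0 ∧ g.vars ⊆ J ∧ ∀ z ∈ V, eval z g = 0 := by
  classical
  obtain ⟨I, hI, rfl⟩ := hV
  set V := zeroLocus ℂ I with hVdef
  set B := MvPolynomial (Fin n) ℂ ⧸ vanishingIdeal ℂ V with hB
  have hnot : ¬ AlgebraicIndependent ℂ (fun i : J =>
      (Ideal.Quotient.mk (vanishingIdeal ℂ V) (X (i : Fin n)) : B)) := by
    intro hind
    have h1 := hind.lift_cardinalMk_le_trdeg
    simp only [Cardinal.mk_fintype, Fintype.card_coe, Cardinal.lift_id] at h1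
    have h2 : Algebra.trdeg ℂ B < Cardinal.aleph0 := trdeg_lt_aleph0_of_finiteType
    have h3 := Cardinal.toNat_le_toNat h1 h2
    have h4 : J.card ≤ dim V := by rw [dim]; simpa using h3
    omega
  rw [algebraicIndependent_iff] at hnot
  push Not at hnot
  obtain ⟨q, hq, hq0⟩ := hnot
  refine ⟨rename (fun i : J => (i : Fin n)) q, ?_, ?_, ?_⟩
  · intro h
    apply hq0
    exact rename_injective _ Subtype.val_injective (by rw [h, map_zero])
  · refine (vars_rename _ _).trans ?_
    intro i hi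
    obtain ⟨j, _, rfl⟩ := Finset.mem_image.1 hi
    exact j.2
  · have h1 : (aeval (fun i : J => (Ideal.Quotient.mk (vanishingIdeal ℂ V) (X (i : Fin n)) : B)) :
        MvPolynomial J ℂ →ₐ[ℂ] B) q =
        Ideal.Quotient.mk (vanishingIdeal ℂ V) (rename (fun i : J => (i : Fin n)) q) := by
      have h2 : (aeval (fun i : J => (Ideal.Quotient.mk (vanishingIdeal ℂ V) (X (i : Fin n)) : B)) :
        MvPolynomial J ℂ →ₐ[ℂ] B) =
        (Ideal.Quotient.mkₐ ℂ (vanishingIdeal ℂ V)).comp (rename (fun i : J => (i : Fin n))) := by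
        apply MvPolynomial.algHom_ext
        intro i
        simp
      rw [h2]
      rfl
    rw [h1, Ideal.Quotient.eq_zero_iff_mem] at hq
    intro z hz
    have := hq z hz
    rwa [aeval_eq_eval] at this

/-- **general position after a Möbius transformation** -/
theorem genPos_moeb {n : ℕ} {V : Set (Fin n → ℂ)} (hV : IsSubvariety V) :
    ∃ P : MvPolynomial (Fin n) ℂ, P ≠ 0 ∧ ∀ γ : Fin n → ℂ, eval γ P ≠ 0 →
      GenPos (dim V) (moeb γ V) := by
  classical
  have hg : ∀ J : Finset (Fin n), ∃ g : MvPolynomial (Fin n) ℂ, g ≠ 0 ∧ (J.card = dim V + 1 →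
      g.vars ⊆ J ∧ ∀ z ∈ V, eval z g = 0) := by
    intro J
    by_cases hJ : J.card = dim V + 1
    · obtain ⟨g, h1, h2, h3⟩ := exists_dep hV (J := J) (by omega)
      exact ⟨g, h1, fun _ => ⟨h2, h3⟩⟩
    · exact ⟨1, one_ne_zero, fun h => absurd h hJ⟩
  choose g hg0 hg using hg
  refine ⟨∏ J : Finset (Fin n), g J, Finset.prod_ne_zero_iff.2 fun J _ => hg0 J, fun γ hγ J hJ => ?_⟩
  rw [map_prod, Finset.prod_ne_zero_iff] at hγ
  have hγJ := hγ J (Finset.mem_univ _)
  obtain ⟨hv, hz⟩ := hg J hJ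
  set F : MvPolynomial (Fin n) ℂ := aeval (fun i => X i + C (γ i)) (g J) with hF
  have hFv : F.vars ⊆ J := by
    intro i hi
    rw [hF] at hi
    obtain ⟨j, hj, hij⟩ := Finset.mem_biUnion.1 (vars_bind₁ (fun i => X i + C (γ i)) (g J) hi)
    have h1 := vars_add_subset _ _ hij
    rw [vars_X, vars_C, Finset.union_empty, Finset.mem_singleton] at h1
    rw [h1]
    exact hv hj
  have hF0 : F.coeff 0 ≠ 0 := by
    rw [← constantCoeff_eq, ← eval_zero]
    have : eval (0 : Fin n → ℂ) F = eval γ (g J) := by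
      rw [hF, ← aeval_eq_eval, ← aeval_eq_eval, ← AlgHom.comp_apply]
      congr 1
      apply MvPolynomial.algHom_ext
      intro i
      simp
    rw [this]
    exact hγJ
  refine ⟨rev F, rev_topIn hFv hF0, ?_⟩
  have hvan : rev F ∈ vanishingIdeal ℂ {w : Fin n → ℂ | ∃ z ∈ V, ∀ i, z i ≠ γ i ∧ w i = 1 / (z i - γ i)} := by
    rintro w ⟨z, hzV, hw⟩
    rw [aeval_eq_eval]
    have hw0 : ∀ i, w i ≠ 0 := by
      intro i
      rw [(hw i).2]
      exact one_div_ne_zero (sub_ne_zero.2 (hw i).1)
    rw [rev_eval F hw0]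
    have h1 : eval (fun i => (w i)⁻¹) F = eval z (g J) := by
      rw [hF, ← aeval_eq_eval, ← aeval_eq_eval, ← AlgHom.comp_apply]
      congr 1
      apply MvPolynomial.algHom_ext
      intro i
      simp [(hw i).2]
    rw [h1, hz z hzV, mul_zero]
  intro w hw
  have := hw _ hvan
  rwa [aeval_eq_eval] at this

end Pool.Agent.Helper20.ZT
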