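import Pool.Agent.Helper20.ZT.RigidE
import Pool.Agent.Helper11.ZT.KeyT

/-! # Excluded patterns with rigidity for all moduli -/

open UpperHalfPlane

namespace Pool.Agent.Helper20.ZT

open Pool.Agent.Helper11.ZP

/-- no zero of `F` has a pattern compatible with `c` at the valuation rings above `O₀` -/
def ExclE {n k : ℕ} (F : Set (MvPolynomial (Fin n) ℂ)) (c : Fin n → Option (Fin k)) : Prop :=
  ∃ (p : ℕ) (O₀ : ValuationSubring ℂ), p.Prime ∧ (p : ℂ) ∈ O₀.nonunits ∧
    ∀ (K : Type) [Field K] [IsAlgClosed K] [Algebra ℂ K] (O : ValuationSubring K),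
    (∀ z ∈ O₀, algebraMap ℂ K z ∈ O) → (∀ z ∈ O₀.nonunits, algebraMap ℂ K z ∈ O.nonunits) →
    ∀ x : Fin n → K, (∀ f ∈ F, MvPolynomial.aeval x f = 0) →
      (∀ i, c i = none → x i ∈ O) → (∀ i j, c i = c j → (x i ∈ O ↔ x j ∈ O)) →
      (∀ i j, c i = c j → c i ≠ none → ∀ N : ℕ, N ≠ 0 → (N : K) ∈ O.nonunits →
        Rig kap N O (x i) (x j)) → False

section

variable {n : ℕ} (S : SpecialData n)

open MvPolynomial in
/-- The relation between two coordinates in the same class, as a polynomial vanishing on `S`. -/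
lemma exists_rel_polyE {i j : Fin n} {s : Fin S.r} (hi : S.cls i = some s) (hj : S.cls j = some s) :
    ∃ P : Polynomial (Polynomial OO), P.Monic ∧
      (∀ y ∈ S.carrier, eval y (P.eval₂
        (Polynomial.eval₂RingHom ((C : ℂ →+* MvPolynomial (Fin n) ℂ).comp (algebraMap OO ℂ)) (X j))
        (X i)) = 0) ∧
      ∀ (K : Type) [Field K] [IsAlgClosed K] [Algebra ℂ K] (O : ValuationSubring K) (p : ℕ),
        p ≠ 0 → (p : K) ∈ O.nonunits → ∀ x y : K,
        P.eval₂ (Polynomial.eval₂RingHom ((algebraMap ℂ K).comp (algebraMap OO ℂ)) x) y = 0 →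
        Rig kap p O x y := by
  obtain ⟨P, hP, hP2, hP3⟩ := exists_relation_rigE (S.g i) (S.g j) (S.hg i) (S.hg j)
  refine ⟨P, hP, fun y hy => ?_, hP3⟩
  obtain ⟨τ, hτ⟩ := hy.2 s
  obtain ⟨τ₁, h1, h1'⟩ := hτ i hi
  obtain ⟨τ₂, h2, h2'⟩ := hτ j hj
  have h := hP2 τ τ₁ τ₂ h1 h2
  rw [← h1', ← h2'] at h
  have e1 := Polynomial.hom_eval₂ P
    (Polynomial.eval₂RingHom ((C : ℂ →+* MvPolynomial (Fin n) ℂ).comp (algebraMap OO ℂ)) (X j))
    (eval y) (X i)
  rw [e1, eval_X]
  have e2 : (eval y).comp (Polynomial.eval₂RingHom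
      ((C : ℂ →+* MvPolynomial (Fin n) ℂ).comp (algebraMap OO ℂ)) (X j)) = evO (y j) := by
    apply Polynomial.ringHom_ext
    · intro a
      simp [evO]
    · simp [evO]
  rw [e2]
  exact h

end

open MvPolynomial in
/-- The key inequality, for a field-valued point. -/
theorem key_auxE {n k : ℕ} {F : Set (MvPolynomial (Fin n) ℂ)}
    (hF : ∀ c : Fin n → Option (Fin k), ExclE F c) (S : SpecialData n)
    {K : Type} [Field K] [IsAlgClosed K] [Algebra ℂ K] (x : Fin n → K) (hxF : ∀ f ∈ F, aeval x f = 0)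
    (relK : ∀ (i j : Fin n) (s : Fin S.r), S.cls i = some s → S.cls j = some s →
      (∃ P : Polynomial (Polynomial OO), P.Monic ∧
        P.eval₂ (Polynomial.eval₂RingHom ((algebraMap ℂ K).comp (algebraMap OO ℂ)) (x j)) (x i) = 0) ∧
      ∀ (O : ValuationSubring K) (p : ℕ), p ≠ 0 → (p : K) ∈ O.nonunits → Rig kap p O (x j) (x i))
    (constK : ∀ i : Fin n, S.cls i = none → x i = algebraMap ℂ K (S.c i))
    {t : Type} [Fintype t] (idx : t → Fin n)
    (hK : AlgebraicIndependent ℂ (fun y : t => x (idx y))) :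
    Fintype.card t + (k + 1) ≤ S.r := by
  classical
  have hne : ∀ y : t, ∃ s, S.cls (idx y) = some s := by
    intro y
    rcases h : S.cls (idx y) with _ | s
    · exfalso
      have h1 := hK.transcendental y
      rw [constK _ h] at h1
      exact h1 (isAlgebraic_algebraMap _)
    · exact ⟨s, rfl⟩
  choose e he using hne
  have einj : Function.Injective e := by
    intro y y' hyy
    by_contra hcon
    obtain ⟨⟨P, hP, hP2⟩, -⟩ := relK (idx y) (idx y') (e y) (he y) (by rw [hyy]; exact he y')
    have h1 := hK.transcendental_adjoin (s := {y'}) (i := y) hcon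
    apply h1
    set D := Algebra.adjoin ℂ ((fun y : t => x (idx y)) '' {y'}) with hD
    have hmemD : x (idx y') ∈ D := Algebra.subset_adjoin ⟨y', rfl, rfl⟩
    let ψ : Polynomial OO →+* D :=
      Polynomial.eval₂RingHom ((algebraMap ℂ D).comp (algebraMap OO ℂ)) ⟨x (idx y'), hmemD⟩
    refine IsIntegral.isAlgebraic ⟨P.map ψ, hP.map ψ, ?_⟩
    rw [Polynomial.eval₂_map]
    have h5 : (algebraMap D K).comp ψ =
        Polynomial.eval₂RingHom ((algebraMap ℂ K).comp (algebraMap OO ℂ)) (x (idx y')) := by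
      apply Polynomial.ringHom_ext
      · intro a
        simp only [ψ, RingHom.comp_apply, Polynomial.coe_eval₂RingHom, Polynomial.eval₂_C]
        rfl
      · simp only [ψ, RingHom.comp_apply, Polynomial.coe_eval₂RingHom, Polynomial.eval₂_X]
        rfl
    rw [h5]
    exact hP2
  by_contra hlt
  have hcard : Fintype.card {s : Fin S.r // s ∉ Set.range e} ≤ Fintype.card (Fin k) := by
    have h1 : Fintype.card {s : Fin S.r // s ∉ Set.range e} = S.r - Fintype.card t := by
      rw [Fintype.card_subtype_compl, Fintype.card_fin]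
      congr 1
      exact (Fintype.card_congr (Equiv.ofInjective e einj)).symm
    rw [h1, Fintype.card_fin]
    omega
  obtain ⟨emb⟩ := Function.Embedding.nonempty_of_card_le hcard
  let c : Fin n → Option (Fin k) := fun i =>
    match S.cls i with
    | none => none
    | some s => if h : s ∈ Set.range e then none else some (emb ⟨s, h⟩)
  obtain ⟨p, O₀, hp, hpO₀, hO⟩ := hF c
  obtain ⟨O, hO1, hO2, hxO⟩ := Helper11.ZT.exists_extension O₀ (fun y : t => x (idx y)) hK
  have hpO : (p : K) ∈ O.nonunits := by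
    have := hO2 _ hpO₀
    rwa [map_natCast] at this
  have M2 : ∀ (i j : Fin n) (s : Fin S.r), S.cls i = some s → S.cls j = some s → x j ∈ O → x i ∈ O := by
    intro i j s hi hj hxj
    obtain ⟨⟨P, hP, hP2⟩, -⟩ := relK i j s hi hj
    exact mem_of_rel O hP hxj hP2
  have hnone : ∀ i, c i = none → x i ∈ O := by
    intro i hi
    rcases h : S.cls i with _ | s
    · rw [constK i h]
      exact mem_of_isIntegral_int O ((S.hc i h).isIntegral.map (algebraMap ℂ K).toIntAlgHom)
    · by_cases hs : s ∈ Set.range e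
      · obtain ⟨y, rfl⟩ := hs
        exact M2 i (idx y) (e y) h (he y) (hxO y)
      · exfalso
        simp only [c, h] at hi
        rw [dif_neg hs] at hi
        exact absurd hi (by simp)
  have get : ∀ i u, c i = some u → ∃ (s : Fin S.r) (hs : s ∉ Set.range e), S.cls i = some s ∧ emb ⟨s, hs⟩ = u := by
    intro i u hi
    rcases h : S.cls i with _ | s
    · simp only [c, h] at hi
      exact absurd hi (by simp)
    · by_cases hs : s ∈ Set.range e
      · simp only [c, h] at hi
        rw [dif_pos hs] at hi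
        exact absurd hi (by simp)
      · simp only [c, h] at hi
        rw [dif_neg hs] at hi
        exact ⟨s, hs, rfl, Option.some_injective _ hi⟩
  have same : ∀ i j, c i = c j → c i ≠ none → ∃ s, S.cls i = some s ∧ S.cls j = some s := by
    intro i j hij hi
    rcases hci : c i with _ | u
    · exact absurd hci hi
    · have hcj : c j = some u := hij ▸ hci
      obtain ⟨s, hs, h1, h2⟩ := get i u hci
      obtain ⟨s', hs', h1', h2'⟩ := get j u hcj
      have hss : s = s' := congrArg Subtype.val (emb.injective (h2.trans h2'.symm))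
      subst hss
      exact ⟨s, h1, h1'⟩
  refine hO K O hO1 hO2 x hxF hnone ?_ ?_
  · intro i j hij
    by_cases hi : c i = none
    · exact ⟨fun _ => hnone j (hij ▸ hi), fun _ => hnone i hi⟩
    · obtain ⟨s, h1, h1'⟩ := same i j hij hi
      exact ⟨M2 j i s h1' h1, M2 i j s h1 h1'⟩
  · intro i j hij hi
    obtain ⟨s, h1, h1'⟩ := same i j hij hi
    exact fun N hN hNO => (relK j i s h1' h1).2 O N hN hNO

open MvPolynomial in
/-- The key inequality: excluded patterns force special subvarieties through `A` to be large. -/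
theorem keyE {n k : ℕ} {F : Set (MvPolynomial (Fin n) ℂ)}
    (hF : ∀ c : Fin n → Option (Fin k), ExclE F c) {A : Set (Fin n → ℂ)} (hA : IsSubvariety A)
    (hAF : ∀ y ∈ A, ∀ f ∈ F, eval y f = 0) (S : SpecialData n) (hAS : A ⊆ S.carrier) :
    dim A + (k + 1) ≤ S.r := by
  classical
  obtain ⟨I, hI, rfl⟩ := hA
  have hvan : vanishingIdeal ℂ (zeroLocus ℂ I) = I := IsPrime.vanishingIdeal_zeroLocus I
  have hmem : ∀ f : MvPolynomial (Fin n) ℂ, (∀ y ∈ zeroLocus ℂ I, eval y f = 0) → f ∈ I := by
    intro f hf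
    rw [← hvan]
    exact fun y hy => by rw [MvPolynomial.aeval_eq_eval]; exact hf y hy
  -- function field
  let B := MvPolynomial (Fin n) ℂ ⧸ I
  let K := AlgebraicClosure (FractionRing B)
  let ξ : Fin n → B := fun i => Ideal.Quotient.mk I (X i)
  let x : Fin n → K := fun i => algebraMap B K (ξ i)
  have hinj : Function.Injective (algebraMap B K) := by
    rw [IsScalarTower.algebraMap_eq B (FractionRing B) K]
    exact (algebraMap (FractionRing B) K).injective.comp (IsFractionRing.injective B _)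
  have hadj : Algebra.adjoin ℂ (Set.range ξ) = ⊤ := by
    have h1 : (Ideal.Quotient.mkₐ ℂ I).range = ⊤ :=
      AlgHom.range_eq_top _ |>.2 (Ideal.Quotient.mkₐ_surjective ℂ I)
    rw [← h1, ← Algebra.map_top, ← MvPolynomial.adjoin_range_X, AlgHom.map_adjoin, ← Set.range_comp]
    rfl
  have halg : Algebra.IsAlgebraic (Algebra.adjoin ℂ (Set.range ξ)) B := by
    refine ⟨fun b => ?_⟩
    have hb : b ∈ Algebra.adjoin ℂ (Set.range ξ) := by rw [hadj]; trivial
    exact isAlgebraic_algebraMap (⟨b, hb⟩ : Algebra.adjoin ℂ (Set.range ξ))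
  obtain ⟨t, ht, hbas⟩ := exists_isTranscendenceBasis_subset (R := ℂ) (Set.range ξ)
  have hdim : dim (zeroLocus ℂ I) = Nat.card t := by
    rw [dim, hvan, ← hbas.cardinalMk_eq_trdeg]
    rfl
  have htfin : Finite t := ((Set.finite_range ξ).subset ht).to_subtype
  have hidx : ∀ y : t, ∃ i : Fin n, ξ i = y := fun y => ht y.2
  choose idx hidx using hidx
  have hK : AlgebraicIndependent ℂ (fun y : t => x (idx y)) := by
    have h1 := hbas.1.map' (f := IsScalarTower.toAlgHom ℂ B K) hinj
    have h2 : (fun y : t => x (idx y)) = (IsScalarTower.toAlgHom ℂ B K) ∘ ((↑) : t → B) := by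
      funext y
      simp only [x, hidx, Function.comp_apply, IsScalarTower.coe_toAlgHom']
    rw [h2]
    exact h1
  have hx : ∀ f : MvPolynomial (Fin n) ℂ, aeval x f = algebraMap B K (Ideal.Quotient.mk I f) := by
    intro f
    have h1 : (aeval x : MvPolynomial (Fin n) ℂ →ₐ[ℂ] K) =
        (IsScalarTower.toAlgHom ℂ B K).comp (Ideal.Quotient.mkₐ ℂ I) := by
      apply MvPolynomial.algHom_ext
      intro i
      rw [aeval_X]
      rfl
    rw [h1]
    rfl
  have hx0 : ∀ f : MvPolynomial (Fin n) ℂ, f ∈ I → aeval x f = 0 := by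
    intro f hf
    rw [hx, Ideal.Quotient.eq_zero_iff_mem.2 hf, map_zero]
  -- relations at the generic point
  have relK : ∀ (i j : Fin n) (s : Fin S.r), S.cls i = some s → S.cls j = some s →
      (∃ P : Polynomial (Polynomial OO), P.Monic ∧
        P.eval₂ (Polynomial.eval₂RingHom ((algebraMap ℂ K).comp (algebraMap OO ℂ)) (x j)) (x i) = 0) ∧
      ∀ (O : ValuationSubring K) (p : ℕ), p ≠ 0 → (p : K) ∈ O.nonunits → Rig kap p O (x j) (x i) := by
    intro i j s hi hj
    obtain ⟨P, hP, hP2, hP3⟩ := exists_rel_polyE S hi hj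
    have h1 := hx0 _ (hmem _ fun y hy => hP2 y (hAS hy))
    have h2 := Polynomial.hom_eval₂ P
      (Polynomial.eval₂RingHom ((C : ℂ →+* MvPolynomial (Fin n) ℂ).comp (algebraMap OO ℂ)) (X j))
      (aeval x : MvPolynomial (Fin n) ℂ →ₐ[ℂ] K).toRingHom (X i)
    have h3 : (aeval x : MvPolynomial (Fin n) ℂ →ₐ[ℂ] K).toRingHom.comp (Polynomial.eval₂RingHom
        ((C : ℂ →+* MvPolynomial (Fin n) ℂ).comp (algebraMap OO ℂ)) (X j)) =
        Polynomial.eval₂RingHom ((algebraMap ℂ K).comp (algebraMap OO ℂ)) (x j) := by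
      apply Polynomial.ringHom_ext
      · intro a
        simp
      · simp
    have h4 : (aeval x : MvPolynomial (Fin n) ℂ →ₐ[ℂ] K).toRingHom (X i) = x i := by simp
    rw [h3, h4] at h2
    have h5 : P.eval₂ (Polynomial.eval₂RingHom ((algebraMap ℂ K).comp (algebraMap OO ℂ)) (x j)) (x i) = 0 := by
      rw [← h2]
      exact h1
    exact ⟨⟨P, hP, h5⟩, fun O p hp hpO => hP3 K O p hp hpO _ _ h5⟩
  have constK : ∀ i : Fin n, S.cls i = none → x i = algebraMap ℂ K (S.c i) := by
    intro i hi
    have h1 := hx0 (X i - C (S.c i)) (hmem _ fun y hy => by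
      rw [map_sub, eval_X, eval_C, (hAS hy).1 i hi, sub_self])
    rw [map_sub, aeval_X, aeval_C, sub_eq_zero] at h1
    exact h1
  have : Fintype t := Fintype.ofFinite t
  rw [hdim, Nat.card_eq_fintype_card]
  exact key_auxE hF S x (fun f hf => hx0 f (hmem f fun y hy => hAF y hy f hf)) relK constK idx hK

open MvPolynomial in
/-- If all patterns are excluded for `F`, then no subvariety of the zero locus of `F` of
codimension at most `k + 1` has an atypical subvariety. -/
theorem no_atypicalE {n k : ℕ} {F : Set (MvPolynomial (Fin n) ℂ)}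
    (hF : ∀ c : Fin n → Option (Fin k), ExclE F c) {V : Set (Fin n → ℂ)}
    (hV : V ⊆ {y | ∀ f ∈ F, eval y f = 0}) (hdim : n ≤ dim V + (k + 1)) (A : Set (Fin n → ℂ)) :
    ¬ IsAtypical V A := by
  rintro ⟨S, ⟨hA, hAVS, _⟩, hlt⟩
  have h1 := keyE hF hA (fun y hy f hf => hV (hAVS hy).1 f hf) S (fun y hy => (hAVS hy).2)
  have h2 := S.le_dim
  omega

open MvPolynomial in
/-- If all patterns are excluded for `F`, then the zero locus of `F` meets no special subvariety
of dimension at most `k`. -/
theorem no_unlikelyE {n k : ℕ} {F : Set (MvPolynomial (Fin n) ℂ)}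
    (hF : ∀ c : Fin n → Option (Fin k), ExclE F c) {y : Fin n → ℂ}
    (hy : ∀ f ∈ F, eval y f = 0) (S : SpecialData n) (hS : y ∈ S.carrier) : k < dim S.carrier := by
  have hA : IsSubvariety ({y} : Set (Fin n → ℂ)) := by
    refine ⟨vanishingIdeal ℂ {y}, ?_, ?_⟩
    · exact (MvPolynomial.isMaximal_iff_eq_vanishingIdeal_singleton.2 ⟨y, rfl⟩).isPrime
    · apply Set.Subset.antisymm
      · exact zeroLocus_vanishingIdeal_le _
      · intro z hz
        rw [Set.mem_singleton_iff]
        funext i
        have h1 : X i - C (y i) ∈ vanishingIdeal ℂ ({y} : Set (Fin n → ℂ)) := by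
          intro w hw
          rw [Set.mem_singleton_iff.1 hw]
          simp
        have h2 := hz _ h1
        simpa [sub_eq_zero] using h2
  have h1 := keyE hF hA (by rintro z rfl; exact hy) S (by rintro z rfl; exact hS)
  have h2 := S.le_dim
  omega

end Pool.Agent.Helper20.ZT
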