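import Pool.Agent.Helper20.ZT.Final
import Pool.Agent.Helper20.ZT.KeyE

/-! # Explicit translates without unlikely intersections -/

namespace Pool.Agent.Helper20.ZT
open Finset MvPolynomial Pool.Agent.Helper11.ZP

section root
variable {R : Type*} [CommRing R] [IsLocalRing R] [IsDomain R]

open IsLocalRing in
/-- `1` is the only root of unity congruent to `1` modulo `p`, for `p` odd -/
theorem root_eq_one {p : ℕ} (hp : p.Prime) (hp2 : 2 < p) (hpm : (p : R) ∈ maximalIdeal R)
    (hp0 : (p : R) ≠ 0) : ∀ N : ℕ, 0 < N → ∀ y : R, (1 + (p : R) * y) ^ N = 1 → y = 0 := by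
  intro N
  induction N using Nat.strong_induction_on with
  | _ N ih =>
    intro hN y h
    by_contra hy
    have hx0 : (p : R) * y ≠ 0 := mul_ne_zero hp0 hy
    have hxm : (p : R) * y ∈ maximalIdeal R := Ideal.mul_mem_right _ _ hpm
    by_cases hpN : p ∣ N
    · obtain ⟨N', rfl⟩ := hpN
      have hN' : 0 < N' := Nat.pos_of_ne_zero fun h0 => by rw [h0] at hN; simp at hN
      obtain ⟨t, ht⟩ := Helper91.ZT.pow_prime_expand hp hp2 ((p : R) * y) y rfl
      have h1 : (1 + (p : R) * y) ^ p = 1 + (p : R) * (p * y * (1 + p * t)) := by rw [ht]; ring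
      rw [pow_mul, h1] at h
      have h2 := ih N' (by nlinarith) hN' _ h
      rcases mul_eq_zero.1 h2 with h3 | h3
      · exact hx0 h3
      · have h4 : (1 : R) ∈ maximalIdeal R := by
          have : (1 : R) = -(p * t) := by linear_combination h3
          rw [this]
          exact Ideal.neg_mem_iff _ |>.2 (Ideal.mul_mem_right _ _ hpm)
        exact (Ideal.ne_top_iff_one _).1 (maximalIdeal.isMaximal R).ne_top h4
    · obtain ⟨k, hk⟩ := Polynomial.powAddExpansion (1 : R) ((p : R) * y) N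
      rw [h] at hk
      simp only [one_pow, mul_one] at hk
      have h1 : ((p : R) * y) * (N + k * ((p : R) * y)) = 0 := by linear_combination -hk
      rcases mul_eq_zero.1 h1 with h2 | h2
      · exact hx0 h2
      · have h3 : (N : R) ∈ maximalIdeal R := by
          have : (N : R) = -(k * ((p : R) * y)) := by linear_combination h2
          rw [this]
          exact Ideal.neg_mem_iff _ |>.2 (Ideal.mul_mem_left _ _ hxm)
        have h4 : IsUnit ((N : ℤ) : R) := Helper91.ZT.isUnit_of_not_dvd hp hpm (by exact_mod_cast hpN)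
        have h5 : IsUnit (N : R) := by simpa using h4
        exact h3 h5

/-- congruent up to a root of unity modulo `p ^ e`: equal `(p - 1)`-st powers -/
theorem pow_congr {p : ℕ} (hp : p.Prime) (hp2 : 2 < p) (hpm : (p : R) ∈ IsLocalRing.maximalIdeal R)
    (hp0 : (p : R) ≠ 0) {u v : ℤ} (hu : ¬ (p : ℤ) ∣ u) (hv : ¬ (p : ℤ) ∣ v) {e N : ℕ} (he : 1 ≤ e)
    (hN : 0 < N) {ζ w : R} (hζ : ζ ^ N = 1) (h : (v : R) - ζ * u = (p : R) ^ e * w) :
    ∃ s : R, (v : R) ^ (p - 1) - (u : R) ^ (p - 1) = (p : R) ^ e * s := by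
  have hfe : ∀ z : ℤ, ¬ (p : ℤ) ∣ z → ∃ k : R, (z : R) ^ (p - 1) = 1 + p * k := by
    intro z hz
    have h1 : (p : ℤ) ∣ z ^ (p - 1) - 1 := by
      have := Fact.mk hp
      have h2 : (z : ZMod p) ≠ 0 := by
        rwa [Ne, ZMod.intCast_zmod_eq_zero_iff_dvd]
      have h3 := ZMod.pow_card_sub_one_eq_one h2
      rw [← ZMod.intCast_zmod_eq_zero_iff_dvd]
      push_cast
      rw [h3, sub_self]
    obtain ⟨k, hk⟩ := h1
    refine ⟨(k : R), ?_⟩
    have := congrArg (Int.cast : ℤ → R) hk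
    push_cast at this
    linear_combination this
  obtain ⟨a, ha⟩ := hfe u hu
  obtain ⟨b, hb⟩ := hfe v hv
  have hv' : (v : R) = ζ * u + p ^ e * w := by linear_combination h
  obtain ⟨k, hk⟩ := Polynomial.powAddExpansion (ζ * (u : R)) ((p : R) ^ e * w) (p - 1)
  rw [← hv', mul_pow] at hk
  set η : R := ζ ^ (p - 1) with hη
  have hηN : η ^ N = 1 := by rw [hη, ← pow_mul, mul_comm, pow_mul, hζ, one_pow]
  set W : R := ((p - 1 : ℕ) : R) * (ζ * u) ^ (p - 1 - 1) * w + k * w * (p ^ e * w) with hW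
  have hk' : (v : R) ^ (p - 1) = η * (u : R) ^ (p - 1) + p ^ e * W := by
    rw [hk, hW]; ring
  obtain ⟨e', rfl⟩ : ∃ e', e = e' + 1 := ⟨e - 1, by omega⟩
  have h1 : (η - 1) * (1 + p * a) = p * (b - a - p ^ e' * W) := by
    rw [ha, hb] at hk'
    linear_combination -hk'
  have hun : IsUnit (1 + (p : R) * a) := by
    rw [← ha]
    exact (Helper91.ZT.isUnit_of_not_dvd hp hpm hu).pow _
  obtain ⟨c, hc⟩ := hun.exists_right_inv
  have h2 : η = 1 + p * ((b - a - p ^ e' * W) * c) := by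
    linear_combination c * h1 - (η - 1) * hc
  have h3 := root_eq_one hp hp2 hpm hp0 N hN _ (by rw [← h2]; exact hηN)
  have h4 : η = 1 := by rw [h2, h3]; ring
  exact ⟨W, by rw [hk', h4]; ring⟩

end root

/-- `Z` is in general position at the cusps for the dimension `d` above the valuation ring `O₀` -/
def GenPosAt {n : ℕ} (O₀ : ValuationSubring ℂ) (d : ℕ) (Z : Set (Fin n → ℂ)) : Prop :=
  ∀ J : Finset (Fin n), J.card = d + 1 → ∃ f : MvPolynomial (Fin n) ℂ, f.vars ⊆ J ∧
    (∀ m, f.coeff m ∈ O₀) ∧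
    f.coeff (Finsupp.equivFunOnFinite.symm fun i => f.degreeOf i) ∉ O₀.nonunits ∧
    ∀ z ∈ Z, eval z f = 0

/-- general position at the cusps holds above almost all primes -/
theorem GenPos.eventually {n d : ℕ} {Z : Set (Fin n → ℂ)} (hZ : GenPos d Z) :
    ∃ p₀ : ℕ, ∀ p : ℕ, p.Prime → p₀ ≤ p →
      ∃ O₀ : ValuationSubring ℂ, (p : ℂ) ∈ O₀.nonunits ∧ GenPosAt O₀ d Z := by
  classical
  choose f0 hf0 using hZ
  set f : Finset (Fin n) → MvPolynomial (Fin n) ℂ := fun J => if h : J.card = d + 1 then f0 J h else 0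
    with hfdef
  have hf : ∀ J, J.card = d + 1 → TopIn J (f J) := by
    intro J hJ
    simp only [hfdef, dif_pos hJ]
    exact (hf0 J hJ).1
  have hfz : ∀ J, J.card = d + 1 → ∀ z ∈ Z, eval z (f J) = 0 := by
    intro J hJ
    simp only [hfdef, dif_pos hJ]
    exact (hf0 J hJ).2
  set top : Finset (Fin n) → ℂ := fun J =>
    (f J).coeff (Finsupp.equivFunOnFinite.symm fun i => (f J).degreeOf i) with htop
  set s : Finset ℂ := (univ.biUnion fun J : Finset (Fin n) => (f J).support.image (f J).coeff) ∪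
    (univ.image fun J : Finset (Fin n) => (top J)⁻¹) with hs
  obtain ⟨p₁, hp₁⟩ := Helper91.ZT.exists_place s 1 one_ne_zero
  refine ⟨p₁, fun p hp hpp => ?_⟩
  obtain ⟨O₀, hO⟩ := hp₁ p hp hpp
  refine ⟨O₀, hO.1, fun J hJ => ⟨f J, (hf J hJ).vars, fun m => ?_, fun hcon => ?_, hfz J hJ⟩⟩
  · by_cases hm : m ∈ (f J).support
    · refine hO.2.1 _ ?_
      simp only [hs, mem_union, mem_biUnion, mem_image, mem_univ, true_and]
      exact Or.inl ⟨J, m, hm, rfl⟩
    · rw [notMem_support_iff.1 hm]; exact zero_mem _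
  · have hinv : (top J)⁻¹ ∈ O₀ := by
      refine hO.2.1 _ ?_
      simp only [hs, mem_union, mem_biUnion, mem_image, mem_univ, true_and]
      exact Or.inr ⟨J, rfl⟩
    have h1 := non_mul _ hinv hcon
    rw [inv_mul_cancel₀ (hf J hJ).top, val_non, map_one] at h1
    exact lt_irrefl _ h1

/-- an integer whose quotient by `p ^ e` is integral above `p` is divisible by `p ^ e` -/
lemma dvd_of_mem {K : Type*} [Field K] [CharZero K] (O : ValuationSubring K) {p : ℕ} (hp : p.Prime)
    (hpO : (p : K) ∈ O.nonunits) {D : ℤ} {e : ℕ} {s : K} (hs : s ∈ O) (h : (D : K) = (p : K) ^ e * s) :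
    (p : ℤ) ^ e ∣ D := by
  by_contra hcon
  have hD0 : D ≠ 0 := by rintro rfl; exact hcon (dvd_zero _)
  obtain ⟨k, D', hD', hk⟩ : ∃ (k : ℕ) (D' : ℤ), ¬ (p : ℤ) ∣ D' ∧ D = (p : ℤ) ^ k * D' := by
    have hfin : FiniteMultiplicity (p : ℤ) D :=
      Int.finiteMultiplicity_iff.2 ⟨by simpa using hp.one_lt.ne', hD0⟩
    obtain ⟨D', h1, h2⟩ := hfin.exists_eq_pow_mul_and_not_dvd
    exact ⟨_, D', h2, h1⟩
  have hke : k < e := by
    by_contra hcon2
    push Not at hcon2
    exact hcon (hk ▸ (pow_dvd_pow _ hcon2).mul_right _)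
  have hp0 : (p : K) ≠ 0 := by exact_mod_cast hp.ne_zero
  have h1 : (D' : K) = (p : K) ^ (e - k) * s := by
    rw [hk] at h
    push_cast at h
    apply mul_left_cancel₀ (pow_ne_zero k hp0)
    rw [h, ← mul_assoc, ← pow_add]
    congr 2
    omega
  have h2 := int_unit O hp hpO hD'
  obtain ⟨l, hl⟩ : ∃ l, e - k = l + 1 := ⟨e - k - 1, by omega⟩
  have h3 : (D' : K) ∈ O.nonunits := by
    rw [h1, hl, pow_succ, mul_assoc, mul_comm (p : K) s, ← mul_assoc]
    exact non_mul O (mem_mul O (mem_pow O (non_mem O hpO) _) hs) hpO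
  rw [val_non, h2] at h3
  exact lt_irrefl _ h3

/-- **the explicit local obstruction** -/
theorem local_excl_explicit {n d r : ℕ} (hd : d < n) (hr : n - d = r + 1)
    (f : Finset (Fin n) → MvPolynomial (Fin n) ℂ) {p : ℕ} (hp : p.Prime) (hp2 : 2 < p)
    (O₀ : ValuationSubring ℂ) (hpO : (p : ℂ) ∈ O₀.nonunits)
    (vf : ∀ J, J.card = d + 1 → (f J).vars ⊆ J) (cf : ∀ J, J.card = d + 1 → ∀ m, (f J).coeff m ∈ O₀)
    (ctop : ∀ J, J.card = d + 1 →
      (f J).coeff (Finsupp.equivFunOnFinite.symm fun i => (f J).degreeOf i) ∉ O₀.nonunits)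
    {e : ℕ} (he : 1 ≤ e) {q' : ℤ} (hq' : ¬ (p : ℤ) ∣ q') {b : Fin n → ℤ} (hb : ∀ i, ¬ (p : ℤ) ∣ b i)
    (hbb : ∀ i j, i ≠ j → ¬ (p : ℤ) ^ e ∣ b i ^ (p - 1) - b j ^ (p - 1)) (c : Fin n → Option (Fin r)) :
    ExclE (Ftr d f ((p : ℤ) ^ e * q') b) c := by
  classical
  refine ⟨p, O₀, hp, hpO, ?_⟩
  intro K _ _ _ O hO hOn x hx hnone hiff hrig
  have hchar : CharZero K := charZero_of_injective_algebraMap (algebraMap ℂ K).injective
  have hpK : (p : K) ∈ O.nonunits := by
    have := hOn _ hpO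
    rwa [map_natCast] at this
  have hp0 : (p : K) ≠ 0 := by exact_mod_cast hp.ne_zero
  have vb : ∀ i, O.valuation (b i : K) = 1 := fun i => int_unit O hp hpK (hb i)
  have vq' : O.valuation (q' : K) = 1 := int_unit O hp hpK hq'
  have hq0 : (q' : K) ≠ 0 := by
    intro h0; rw [h0, map_zero] at vq'; exact zero_ne_one vq'
  have hint : ∀ a : ℤ, (a : K) ∈ O := fun a => intCast_mem O a
  have hpe : (p : K) ^ e ∈ O.nonunits := by
    obtain ⟨l, rfl⟩ : ∃ l, e = l + 1 := ⟨e - 1, by omega⟩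
    rw [pow_succ]
    exact non_mul O (mem_pow O (non_mem O hpK) _) hpK
  set P : Fin n → K := fun i => x i - (b i : K) / ((p : K) ^ e * q') with hP
  have hPf : ∀ J, J.card = d + 1 → aeval P (f J) = 0 := by
    intro J hJ
    have h1 := hx _ ⟨J, hJ, rfl⟩
    rw [← h1, ← AlgHom.comp_apply]
    congr 1
    apply MvPolynomial.algHom_ext
    intro i
    simp [hP, map_div₀]
  set T : Finset (Fin n) := univ.filter fun i => P i ∉ O with hT
  have hTiff : ∀ i, P i ∈ O ↔ i ∉ T := by
    intro i; rw [hT, mem_filter]; simp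
  have hTcard : T.card ≤ d := by
    by_contra hcon
    push Not at hcon
    obtain ⟨J, hJT, hJ⟩ := Finset.exists_subset_card_eq (show d + 1 ≤ T.card by omega)
    have htop : TopIn J (f J) := ⟨vf J hJ, fun h0 => ctop J hJ (by rw [h0]; exact O₀.nonunits.zero_mem)⟩
    obtain ⟨i, hi, hiO⟩ := domin O htop (fun m => hO _ (cf J hJ m)) (fun hcon2 => by
      apply ctop J hJ
      set a := (f J).coeff (Finsupp.equivFunOnFinite.symm fun i => (f J).degreeOf i) with ha
      by_contra hu2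
      have ha0 : O₀.valuation a = 1 := le_antisymm ((val_mem O₀).1 (cf J hJ _)) (not_lt.1 fun h => hu2 ((val_non O₀).2 h))
      have hinv : a⁻¹ ∈ O₀ := by rw [val_mem, map_inv₀, ha0, inv_one]
      have h3 := hO _ hinv
      have ha1 : a ≠ 0 := by intro h0; rw [h0, map_zero] at ha0; exact zero_ne_one ha0
      have h4 := non_mul O h3 hcon2
      rw [← map_mul, inv_mul_cancel₀ ha1, map_one, val_non, map_one] at h4
      exact lt_irrefl _ h4) (hPf J hJ)
    exact (hTiff i).1 hiO (hJT hi)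
  have hxP : ∀ i, (p : K) ^ e * x i = b i / q' + (p : K) ^ e * P i := by
    intro i
    simp only [hP]
    field_simp
    ring
  have vpx : ∀ i, i ∉ T → O.valuation ((p : K) ^ e * x i) = 1 := by
    intro i hi
    have h2 : O.valuation ((b i : K) / q') = 1 := by rw [map_div₀, vb, vq', div_one]
    rw [hxP i, val_add_of_lt O, h2]
    rw [h2]
    exact lt_one_mul O ((val_non O).1 hpe) ((hTiff i).2 hi)
  have hxO : ∀ i, i ∉ T → x i ∉ O := by
    intro i hi hcon
    have h1 := non_mul O hcon hpe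
    rw [mul_comm, val_non, vpx i hi] at h1
    exact lt_irrefl _ h1
  have hsome : ∀ i, i ∉ T → c i ≠ none := fun i hi h0 => hxO i hi (hnone i h0)
  -- the classes of the coordinates outside `T` are different
  have hinj : ∀ i j, i ∉ T → j ∉ T → c i = c j → i = j := by
    intro i j hi hj hij
    by_contra hne
    have hcast : ((p ^ e : ℕ) : K) = (p : K) ^ e := by push_cast; rfl
    obtain ⟨N, ζ, w, hN, hζ, hw, hrel⟩ := hrig i j hij (hsome i hi) (p ^ e) (pow_ne_zero _ hp.ne_zero)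
      (by rw [hcast]; exact hpe) (hxO i hi) (hxO j hj)
      (by rw [hcast, val_mem, vpx i hi]) (by rw [hcast, val_non, vpx i hi]; exact lt_irrefl _)
      (by rw [hcast, val_mem, vpx j hj]) (by rw [hcast, val_non, vpx j hj]; exact lt_irrefl _)
    rw [hcast] at hrel
    have hζO : ζ ∈ O := (val_mem O).2 (val_root_one O hN hζ).le
    have hpm : ((p : O)) ∈ IsLocalRing.maximalIdeal O := by
      rw [← ValuationSubring.coe_mem_nonunits_iff]; simpa using hpK
    have hpO0 : (p : O) ≠ 0 := by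
      intro h0
      apply hp0
      have := congrArg (Subtype.val : O → K) h0
      simpa using this
    set s : K := q' * ((p : K) ^ e * w + (kap - ζ * kap) - (P j - ζ * P i)) with hs
    have hsO : s ∈ O := mem_mul O (hint _) (mem_sub O (mem_add O (mem_mul O (mem_pow O (non_mem O hpK) _) hw)
      (mem_sub O (hint _) (mem_mul O hζO (hint _)))) (mem_sub O ((hTiff j).2 hj) (mem_mul O hζO ((hTiff i).2 hi))))
    have e1 : (b j : K) - ζ * b i = (p : K) ^ e * s := by
      have h1 := hxP i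
      have h2 := hxP j
      have h3 : (b i : K) = q' * ((p : K) ^ e * x i - (p : K) ^ e * P i) := by
        rw [h1]; field_simp; ring
      have h4 : (b j : K) = q' * ((p : K) ^ e * x j - (p : K) ^ e * P j) := by
        rw [h2]; field_simp; ring
      rw [h3, h4, hs]
      linear_combination (q' * (p : K) ^ e) * hrel
    obtain ⟨t, ht⟩ := pow_congr (R := O) hp hp2 hpm hpO0 (hb i) (hb j) he hN (ζ := ⟨ζ, hζO⟩)
      (w := ⟨s, hsO⟩) (by apply Subtype.ext; push_cast; exact hζ) (by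
        apply Subtype.ext
        push_cast
        exact e1)
    have ht' := congrArg (Subtype.val : O → K) ht
    push_cast at ht'
    refine hbb j i (Ne.symm hne) (dvd_of_mem O hp hpK (s := (t : K)) t.2 ?_)
    push_cast
    exact ht'
  have hcard : (univ \ T).card ≤ r := by
    have hsome' : ∀ i : (univ \ T : Finset (Fin n)), ∃ s, c i = some s := fun i =>
      Option.ne_none_iff_exists'.1 (hsome i (mem_sdiff.1 i.2).2)
    choose g hg using hsome'
    have hg' : Function.Injective g := by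
      intro i j hij
      apply Subtype.ext
      exact hinj i j (mem_sdiff.1 i.2).2 (mem_sdiff.1 j.2).2 (by rw [hg i, hg j, hij])
    have := Fintype.card_le_of_injective g hg'
    rwa [Fintype.card_coe, Fintype.card_fin] at this
  rw [card_sdiff_of_subset (subset_univ _), card_univ, Fintype.card_fin] at hcard
  omega

/-- a local obstruction for all patterns gives the Zilber-Pink conclusion -/
theorem noUnlikely_of_exclE {n d r : ℕ} (hr : n - d = r + 1) {Z : Set (Fin n → ℂ)}
    {f : Finset (Fin n) → MvPolynomial (Fin n) ℂ}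
    (hfz : ∀ J, J.card = d + 1 → ∀ z ∈ Z, eval z (f J) = 0) {q : ℤ} {b : Fin n → ℤ}
    (hF : ∀ c : Fin n → Option (Fin r), ExclE (Ftr d f q b) c) : NoUnlikely (n - d) (transl Z q b) := by
  have hv : ∀ y ∈ transl Z q b, ∀ g ∈ Ftr d f q b, eval y g = 0 := by
    rintro y hy g ⟨J, hJ, rfl⟩
    have h1 := hfz J hJ _ hy
    rw [← h1, ← aeval_eq_eval, ← aeval_eq_eval, ← AlgHom.comp_apply]
    congr 1
    apply MvPolynomial.algHom_ext
    intro i
    simp
  rw [hr]
  constructor
  · intro S hS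
    rw [Set.disjoint_left]
    intro y hy hyS
    have := no_unlikelyE hF (y := y) (hv y hy) S hyS
    omega
  · intro V _ hV hdim A
    exact no_atypicalE hF (fun y hy g hg => hv y (hV hy) g hg) (by omega) A

/-- **Zilber–Pink for explicit translates**: if `Z` is in general position at the cusps above the odd
prime `p`, `e ≥ 1`, `q'` and the `b i` are prime to `p` and the powers `b i ^ (p - 1)` are different
modulo `p ^ e`, then the translate of `Z` by `b / (p ^ e q')` has no unlikely intersections. -/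
theorem explicit {n d : ℕ} (hd : d < n) {Z : Set (Fin n → ℂ)} {p : ℕ} (hp : p.Prime) (hp2 : 2 < p)
    {O₀ : ValuationSubring ℂ} (hpO : (p : ℂ) ∈ O₀.nonunits) (hZ : GenPosAt O₀ d Z)
    {e : ℕ} (he : 1 ≤ e) {q' : ℤ} (hq' : ¬ (p : ℤ) ∣ q') {b : Fin n → ℤ} (hb : ∀ i, ¬ (p : ℤ) ∣ b i)
    (hbb : ∀ i j, i ≠ j → ¬ (p : ℤ) ^ e ∣ b i ^ (p - 1) - b j ^ (p - 1)) :
    NoUnlikely (n - d) (transl Z ((p : ℤ) ^ e * q') b) := by
  obtain ⟨r, hr⟩ : ∃ r, n - d = r + 1 := ⟨n - d - 1, by omega⟩
  choose f0 hf0 using hZ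
  set f : Finset (Fin n) → MvPolynomial (Fin n) ℂ := fun J => if h : J.card = d + 1 then f0 J h else 0
    with hfdef
  have hf : ∀ J, J.card = d + 1 → (f J).vars ⊆ J ∧ (∀ m, (f J).coeff m ∈ O₀) ∧
      (f J).coeff (Finsupp.equivFunOnFinite.symm fun i => (f J).degreeOf i) ∉ O₀.nonunits ∧
      ∀ z ∈ Z, eval z (f J) = 0 := by
    intro J hJ
    simp only [hfdef, dif_pos hJ]
    exact hf0 J hJ
  refine noUnlikely_of_exclE hr (fun J hJ => (hf J hJ).2.2.2) fun c => ?_
  exact local_excl_explicit hd hr f hp hp2 O₀ hpO (fun J hJ => (hf J hJ).1) (fun J hJ => (hf J hJ).2.1)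
    (fun J hJ => (hf J hJ).2.2.1) he hq' hb hbb c

end Pool.Agent.Helper20.ZT
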