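import Pool.Agent.Helper20.ZT.PrimMod

/-! # Rigidity of Tate parameters over a stable set of orbits -/

open UpperHalfPlane ModularForm Complex Filter Function
open scoped Real MatrixGroups Topology Manifold

namespace Pool.Agent.Helper20.ZT.Prim
open Pool.Agent.Helper11.ZP

section core
variable {m : ℤ} [hm : Fact (0 < m)] {T : Finset (Orb m)} (hT : Stable m T)
variable {K : Type*} [Field K] [Algebra ℂ K] (O : ValuationSubring K)

/-- evaluation of the left side -/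
lemma LHT_eval (M : ℕ) (t y : K) :
    (LHT hT M).eval₂ (Polynomial.eval₂RingHom (ph K) t) y =
      ∑ i ∈ Finset.range (T.card + 1), (∑ l ∈ Finset.range (T.card + 1), ph K ((ppT hT i).coeff l) *
        ((tr eS qexp_Ecube_mem 1 1 M).eval₂ (ph K) (t ^ m.toNat) ^ l *
          (tr dS qexp_disc_mem 1 1 M).eval₂ (ph K) (t ^ m.toNat) ^ (T.card - l))) * y ^ i := by
  rw [LHT, Polynomial.eval₂_finsetSum]
  refine Finset.sum_congr rfl fun i _ => ?_
  rw [Polynomial.eval₂_mul, Polynomial.eval₂_X_pow, Polynomial.eval₂_C]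
  congr 1
  rw [Polynomial.coe_eval₂RingHom, Polynomial.eval₂_finsetSum]
  refine Finset.sum_congr rfl fun l _ => ?_
  rw [Polynomial.eval₂_mul, Polynomial.eval₂_mul, Polynomial.eval₂_pow, Polynomial.eval₂_pow,
    Polynomial.eval₂_C, tr_eval (ph K) eS qexp_Ecube_mem 1 m.toNat M t,
    tr_eval (ph K) dS qexp_disc_mem 1 m.toNat M t, map_one, one_mul]

lemma RHT_eval (M : ℕ) (t y : K) :
    (RHT m T M).eval₂ (Polynomial.eval₂RingHom (ph K) t) y =
      ∏ o ∈ T, ((tr dS qexp_disc_mem 1 1 M).eval₂ (ph K) (ph K (zo m o) * t ^ ko m o) * y -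
        (tr eS qexp_Ecube_mem 1 1 M).eval₂ (ph K) (ph K (zo m o) * t ^ ko m o)) := by
  rw [RHT, Polynomial.eval₂_finsetProd]
  refine Finset.prod_congr rfl fun o _ => ?_
  rw [Polynomial.eval₂_sub, Polynomial.eval₂_mul, Polynomial.eval₂_X, Polynomial.eval₂_C,
    Polynomial.eval₂_C, Polynomial.coe_eval₂RingHom,
    tr_eval (ph K) eS qexp_Ecube_mem (zo m o) (ko m o) M t,
    tr_eval (ph K) dS qexp_disc_mem (zo m o) (ko m o) M t]

lemma LHT_natDegree (M : ℕ) : (LHT hT M).natDegree ≤ T.card := by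
  rw [LHT]
  refine Polynomial.natDegree_sum_le_of_forall_le _ _ fun i hi => ?_
  rw [Finset.mem_range] at hi
  exact (Polynomial.natDegree_C_mul_X_pow_le _ _).trans (by omega)

/-- the value of the right side is small if the value of the left side is zero -/
lemma small_prodT (M : ℕ) {t w : K} (ht : t ∈ O) (hw : w ∈ O) (hw0 : w ≠ 0)
    (hL : (LHT hT M).eval₂ (Polynomial.eval₂RingHom (ph K) t) w⁻¹ = 0) :
    O.valuation (∏ o ∈ T, ((tr dS qexp_disc_mem 1 1 M).eval₂ (ph K) (ph K (zo m o) * t ^ ko m o) -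
        (tr eS qexp_Ecube_mem 1 1 M).eval₂ (ph K) (ph K (zo m o) * t ^ ko m o) * w))
      ≤ O.valuation t ^ M := by
  have h1 := RHT_eval (K := K) (m := m) (T := T) M t w⁻¹
  have h2 : ∏ o ∈ T, ((tr dS qexp_disc_mem 1 1 M).eval₂ (ph K) (ph K (zo m o) * t ^ ko m o) -
        (tr eS qexp_Ecube_mem 1 1 M).eval₂ (ph K) (ph K (zo m o) * t ^ ko m o) * w)
      = w ^ T.card * (RHT m T M).eval₂ (Polynomial.eval₂RingHom (ph K) t) w⁻¹ := by
    have hcard : w ^ T.card = ∏ _o ∈ T, w := by rw [Finset.prod_const]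
    rw [h1, hcard, ← Finset.prod_mul_distrib]
    refine Finset.prod_congr rfl fun o _ => ?_
    field_simp
  have hG : ∀ i, ∃ G : Polynomial OO, (LHT hT M).coeff i - (RHT m T M).coeff i = Polynomial.X ^ M * G := fun i =>
    dvd_diffT hT M i
  choose G hG using hG
  have h3 : (RHT m T M).eval₂ (Polynomial.eval₂RingHom (ph K) t) w⁻¹
      = - (t ^ M * ∑ i ∈ Finset.range (T.card + 1), (G i).eval₂ (ph K) t * w⁻¹ ^ i) := by
    rw [Polynomial.eval₂_eq_sum_range' _ (Nat.lt_succ_of_le (LHT_natDegree hT M))] at hL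
    rw [Polynomial.eval₂_eq_sum_range' _ (Nat.lt_succ_of_le (RHT_natDegree m T M)), eq_neg_iff_add_eq_zero,
      Finset.mul_sum, ← Finset.sum_add_distrib, ← hL]
    refine Finset.sum_congr rfl fun i _ => ?_
    have h4 := congrArg (Polynomial.eval₂RingHom (ph K) t) (hG i)
    rw [map_sub, map_mul, map_pow] at h4
    simp only [Polynomial.coe_eval₂RingHom, Polynomial.eval₂_X] at h4 ⊢
    linear_combination (- w⁻¹ ^ i) * h4
  have h4 : w ^ T.card * ∑ i ∈ Finset.range (T.card + 1), (G i).eval₂ (ph K) t * w⁻¹ ^ i ∈ O := by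
    rw [Finset.mul_sum]
    refine O.toSubring.sum_mem fun i hi => ?_
    rw [Finset.mem_range] at hi
    have h5 : w ^ T.card = w ^ (T.card - i) * w ^ i := by rw [← pow_add]; congr 1; omega
    have h6 : w ^ T.card * ((G i).eval₂ (ph K) t * w⁻¹ ^ i) = w ^ (T.card - i) * (G i).eval₂ (ph K) t := by
      rw [h5, inv_pow]
      field_simp
    rw [h6]
    exact O.toSubring.mul_mem (O.toSubring.pow_mem hw _) (eval_mem O _ ht)
  rw [h2, h3, show w ^ T.card * -(t ^ M * ∑ i ∈ Finset.range (T.card + 1), (G i).eval₂ (ph K) t * w⁻¹ ^ i)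
    = -(t ^ M * (w ^ T.card * ∑ i ∈ Finset.range (T.card + 1), (G i).eval₂ (ph K) t * w⁻¹ ^ i)) by ring,
    Valuation.map_neg, map_mul, map_pow]
  calc _ ≤ O.valuation t ^ M * 1 := mul_le_mul_right ((val_mem O).1 h4) _
    _ = _ := mul_one _

/-- the relation makes the left side vanish -/
lemma LHT_zero (M : ℕ) {t x y : K}
    (hq : (tr dS qexp_disc_mem 1 1 M).eval₂ (ph K) (t ^ m.toNat) * x =
      (tr eS qexp_Ecube_mem 1 1 M).eval₂ (ph K) (t ^ m.toNat))
    (hrel : ∑ i ∈ Finset.range (T.card + 1), (ppT hT i).eval₂ (ph K) x * y ^ i = 0) :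
    (LHT hT M).eval₂ (Polynomial.eval₂RingHom (ph K) t) y = 0 := by
  rw [LHT_eval, ← hq]
  have h1 : ∀ i, (∑ l ∈ Finset.range (T.card + 1), ph K ((ppT hT i).coeff l) *
      (((tr dS qexp_disc_mem 1 1 M).eval₂ (ph K) (t ^ m.toNat) * x) ^ l *
          (tr dS qexp_disc_mem 1 1 M).eval₂ (ph K) (t ^ m.toNat) ^ (T.card - l)))
      = (tr dS qexp_disc_mem 1 1 M).eval₂ (ph K) (t ^ m.toNat) ^ T.card * (ppT hT i).eval₂ (ph K) x := by
    intro i
    rw [Polynomial.eval₂_eq_sum_range' _ (Nat.lt_succ_of_le (ppT_deg hT i)), Finset.mul_sum]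
    refine Finset.sum_congr rfl fun l hl => ?_
    rw [Finset.mem_range] at hl
    have h2 : (tr dS qexp_disc_mem 1 1 M).eval₂ (ph K) (t ^ m.toNat) ^ T.card =
      (tr dS qexp_disc_mem 1 1 M).eval₂ (ph K) (t ^ m.toNat) ^ l *
      (tr dS qexp_disc_mem 1 1 M).eval₂ (ph K) (t ^ m.toNat) ^ (T.card - l) := by
      rw [← pow_add]; congr 1; omega
    rw [h2, mul_pow]
    ring
  simp only [h1]
  have h3 : ∀ i ∈ Finset.range (T.card + 1), (tr dS qexp_disc_mem 1 1 M).eval₂ (ph K) (t ^ m.toNat) ^ T.card *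
      (ppT hT i).eval₂ (ph K) x * y ^ i = (tr dS qexp_disc_mem 1 1 M).eval₂ (ph K) (t ^ m.toNat) ^ T.card *
      ((ppT hT i).eval₂ (ph K) x * y ^ i) := fun i _ => by ring
  rw [Finset.sum_congr rfl h3, ← Finset.mul_sum, hrel, mul_zero]


/-- **rigidity over the orbits in `T`** -/
theorem rig_coreT [IsAlgClosed K] {p : ℕ} (hp : (p : K) ∈ O.nonunits)
    (hp0 : (p : K) ≠ 0) {x y : K}
    (hrel : ∑ i ∈ Finset.range (T.card + 1), (ppT hT i).eval₂ (ph K) x * y ^ i = 0) :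
    x ∉ O → y ∉ O → (p : K) * x ∈ O → (p : K) * x ∉ O.nonunits →
    (p : K) * y ∈ O → (p : K) * y ∉ O.nonunits →
    ∃ o ∈ T, ko m o = m.toNat ∧ ∃ w ∈ O, (y - (kap : ℤ)) - (ph K (zo m o))⁻¹ * (x - (kap : ℤ)) = p * w := by
  intro hx hy hpx hpx' hpy hpy'
  have hx0 : x ≠ 0 := by rintro rfl; exact hx (zero_mem O)
  have hy0 : y ≠ 0 := by rintro rfl; exact hy (zero_mem O)
  have vpx : O.valuation (p * x) = 1 := le_antisymm ((val_mem O).1 hpx) (not_lt.1 fun h => hpx' ((val_non O).2 h))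
  have vpy : O.valuation (p * y) = 1 := le_antisymm ((val_mem O).1 hpy) (not_lt.1 fun h => hpy' ((val_non O).2 h))
  have vp := (val_non O).1 hp
  set s := x⁻¹ with hs
  set w := y⁻¹ with hw
  have hs0 : s ≠ 0 := inv_ne_zero hx0
  have hw0 : w ≠ 0 := inv_ne_zero hy0
  have vs : O.valuation s = O.valuation (p : K) := by
    have : (p : K) = (p * x) * s := by rw [hs]; field_simp
    rw [this, map_mul, vpx, one_mul]
  have vw : O.valuation w = O.valuation (p : K) := by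
    have : (p : K) = (p * y) * w := by rw [hw]; field_simp
    rw [this, map_mul, vpy, one_mul]
  have hm' := mtoNat_pos m
  set n := m.toNat with hn
  set L := n ^ 2 + 3 * n with hL
  obtain ⟨q, hq, hqe⟩ := exists_param O (T.card * L) ((val_non O).2 (by rwa [vs])) hs0
  have vq1 := (val_non O).1 hq
  have hqO : q ∈ O := (val_mem O).2 vq1.le
  obtain ⟨e, he, hE⟩ := tr_E O (T.card * L) hqO
  obtain ⟨d, hd, hD⟩ := tr_D O (T.card * L) hqO
  have m24 : (24 : K) ∈ O := by exact_mod_cast mem_ofNat O 24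
  have m720 : (720 : K) ∈ O := by exact_mod_cast mem_ofNat O 720
  have m744 : (744 : K) ∈ O := by exact_mod_cast mem_ofNat O 744
  -- units
  have uE : ∀ r e : K, O.valuation r < 1 → e ∈ O → O.valuation (1 + 720 * r + r ^ 2 * e) = 1 := by
    intro r e hr he
    have hrO : r ∈ O := (val_mem O).2 hr.le
    rw [show 1 + 720 * r + r ^ 2 * e = 1 + r * (720 + r * e) by ring]
    exact unit_of_sub O (lt_one_mul O hr (mem_add O m720 (mem_mul O hrO he)))
  have uD : ∀ r e : K, O.valuation r < 1 → e ∈ O → O.valuation (1 - 24 * r + r ^ 2 * e) = 1 := by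
    intro r e hr he
    have hrO : r ∈ O := (val_mem O).2 hr.le
    rw [show 1 - 24 * r + r ^ 2 * e = 1 + r * (r * e - 24) by ring]
    exact unit_of_sub O (lt_one_mul O hr (mem_sub O (mem_mul O hrO he) m24))
  have vE := uE q e vq1 he
  have vD := uD q d vq1 hd
  rw [hE, hD] at hqe
  have vq : O.valuation q = O.valuation (p : K) := by
    have h1 : q * (1 - 24 * q + q ^ 2 * d) = s * (1 + 720 * q + q ^ 2 * e) := by rw [← hqe]; ring
    have h2 := congrArg O.valuation h1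
    rwa [val_mul_unit O vD, val_mul_unit O vE, vs] at h2
  have vp0 : O.valuation (p : K) ≠ 0 := by rwa [ne_eq, Valuation.zero_iff]
  have hq0 : q ≠ 0 := by
    intro h
    rw [h, map_zero] at vq
    exact vp0 vq.symm
  obtain ⟨t, ht⟩ := IsAlgClosed.exists_pow_nat_eq q hm'
  have ht0 : t ≠ 0 := by
    rintro rfl
    rw [zero_pow hm'.ne'] at ht
    exact hq0 ht.symm
  have vt1 : O.valuation t < 1 := by
    by_contra hcon
    push Not at hcon
    have h1 : 1 ≤ O.valuation t ^ n := one_le_pow₀ hcon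
    rw [← map_pow, ht] at h1
    exact absurd vq1 (not_lt.2 h1)
  have vt0 : 0 < O.valuation t := zero_lt_iff.2 (by rwa [ne_eq, Valuation.zero_iff])
  have htO : t ∈ O := (val_mem O).2 vt1.le
  have hwO : w ∈ O := (val_mem O).2 (by rw [vw]; exact vp.le)
  -- the product
  have hLz : (LHT hT (T.card * L + 3)).eval₂ (Polynomial.eval₂RingHom (ph K) t) w⁻¹ = 0 := by
    apply LHT_zero hT (T.card * L + 3) (x := x)
    · rw [ht, hE, hD, hqe, hs]
      field_simp
    · rw [hw, inv_inv]; exact hrel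
  have hsm := small_prodT hT O (T.card * L + 3) htO hwO hw0 hLz
  have hmono : ∀ {a b : ℕ}, a ≤ b → O.valuation t ^ b ≤ O.valuation t ^ a := fun h =>
    pow_le_pow_right_of_le_one' vt1.le h
  have hex : ∃ o ∈ T, O.valuation ((tr dS qexp_disc_mem 1 1 (T.card * L + 3)).eval₂ (ph K)
      (ph K (zo m o) * t ^ ko m o) - (tr eS qexp_Ecube_mem 1 1 (T.card * L + 3)).eval₂ (ph K)
      (ph K (zo m o) * t ^ ko m o) * w) ≤ O.valuation t ^ L := by
    by_contra hcon
    push Not at hcon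
    rcases T.eq_empty_or_nonempty with hem | hne
    · rw [hem, Finset.prod_empty, map_one] at hsm
      exact absurd (pow_lt_one₀ zero_le vt1 (by omega)) (not_lt.2 hsm)
    · have h1 := val_prod T _ (pow_pos vt0 L) hne (fun o ho => hcon o ho)
      rw [← map_prod, ← pow_mul, mul_comm] at h1
      exact absurd (hsm.trans (hmono (Nat.le_add_right _ _))) (not_le.2 h1)
  obtain ⟨o, hoT, ho⟩ := hex
  set z := ph K (zo m o) with hz
  set k := ko m o with hk
  set r := z * t ^ k with hr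
  have hkpos : 0 < k := ko_pos m o
  obtain ⟨N, hN, hzN⟩ := zo_pow m o
  have hzN' : z ^ N = 1 := by rw [hz, ← map_pow, hzN, map_one]
  have vz : O.valuation z = 1 := val_root_one O hN hzN'
  have hz0 : z ≠ 0 := by
    intro h
    rw [h, map_zero] at vz
    exact zero_ne_one vz
  have hzO : z ∈ O := (val_mem O).2 vz.le
  have vr : O.valuation r = O.valuation t ^ k := by rw [hr, map_mul, vz, one_mul, map_pow]
  have vr1 : O.valuation r < 1 := by rw [vr]; exact pow_lt_one₀ zero_le vt1 hkpos.ne'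
  have hrO : r ∈ O := (val_mem O).2 vr1.le
  obtain ⟨e', he', hE'⟩ := tr_E O (T.card * L) hrO
  obtain ⟨d', hd', hD'⟩ := tr_D O (T.card * L) hrO
  have vE' := uE r e' vr1 he'
  have vD' := uD r d' vr1 hd'
  rw [hE', hD'] at ho
  set ε := (r - 24 * r ^ 2 + r ^ 3 * d') - (1 + 720 * r + r ^ 2 * e') * w with hε
  have hkL : k < L := by
    have h1 := ko_le m o
    rw [← hn, ← hk] at h1
    rw [hL]; omega
  have hlt : O.valuation ε < O.valuation r := by
    rw [vr]
    refine lt_of_le_of_lt ho ?_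
    exact pow_lt_pow_right_of_lt_one₀ vt0 vt1 hkL
  have vDr : O.valuation (r - 24 * r ^ 2 + r ^ 3 * d') = O.valuation r := by
    rw [show r - 24 * r ^ 2 + r ^ 3 * d' = r * (1 - 24 * r + r ^ 2 * d') by ring, val_mul_unit O vD']
  have vw2 : O.valuation w = O.valuation r := by
    have h1 : w * (1 + 720 * r + r ^ 2 * e') = (r - 24 * r ^ 2 + r ^ 3 * d') + (-ε) := by rw [hε]; ring
    have h2 := congrArg O.valuation h1
    rwa [val_mul_unit O vE', val_add_of_lt O (by rwa [Valuation.map_neg, vDr]), vDr] at h2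
  have hkn : k = n := by
    have h1 : O.valuation t ^ k = O.valuation t ^ n := by
      rw [← vr, ← vw2, vw, ← vq, ← ht, map_pow]
    by_contra hne
    rcases lt_or_gt_of_ne hne with h | h
    · exact absurd h1 (ne_of_gt (pow_lt_pow_right_of_lt_one₀ vt0 vt1 h))
    · exact absurd h1 (ne_of_lt (pow_lt_pow_right_of_lt_one₀ vt0 vt1 h))
  have hrq : r = z * q := by rw [hr, hkn, ht]
  -- the error
  have hεO : ε / q ^ 3 ∈ O := by
    rw [val_mem, map_div₀, map_pow]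
    have h1 : O.valuation q ^ 3 = O.valuation t ^ (3 * n) := by rw [← ht, map_pow, ← pow_mul, mul_comm]
    rw [h1]
    have h2 : O.valuation ε ≤ O.valuation t ^ (3 * n) := ho.trans (hmono (by rw [hL]; omega))
    exact div_le_one_of_le₀ h2 zero_le
  set β := ε / q ^ 3 with hβ
  have hεβ : ε = q ^ 3 * β := by rw [hβ]; field_simp
  have hdiv : ∀ a b : K, a ∈ O → O.valuation b = 1 → a / b ∈ O := by
    intro a b ha hb
    rw [val_mem, map_div₀, hb, div_one]
    exact (val_mem O).1 ha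
  -- x
  have hDne : (1 - 24 * q + q ^ 2 * d) ≠ 0 := by
    intro h; rw [h, map_zero] at vD; exact zero_ne_one vD
  have hEne : (1 + 720 * q + q ^ 2 * e) ≠ 0 := by
    intro h; rw [h, map_zero] at vE; exact zero_ne_one vE
  have hxq : x * (q * (1 - 24 * q + q ^ 2 * d)) = 1 + 720 * q + q ^ 2 * e := by
    rw [show q * (1 - 24 * q + q ^ 2 * d) = q - 24 * q ^ 2 + q ^ 3 * d by ring, hqe, hs]
    field_simp
  set α := (e - d + 744 * 24 - 744 * q * d) / (1 - 24 * q + q ^ 2 * d) with hα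
  have hαO : α ∈ O := hdiv _ _ (mem_sub O (mem_add O (mem_sub O he hd) (mem_mul O m744 m24))
    (mem_mul O (mem_mul O m744 hqO) hd)) vD
  have hx1 : x - 744 = 1 / q + q * α := by
    have hne : q * (1 - 24 * q + q ^ 2 * d) ≠ 0 := mul_ne_zero hq0 hDne
    have hαD : α * (1 - 24 * q + q ^ 2 * d) = e - d + 744 * 24 - 744 * q * d := div_mul_cancel₀ _ hDne
    have hq1 : 1 / q * q = 1 := div_mul_cancel₀ _ hq0
    apply mul_right_cancel₀ hne
    rw [sub_mul, hxq]
    linear_combination (-(1 - 24 * q + q ^ 2 * d)) * hq1 - q ^ 2 * hαD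
  -- y
  have vDz : O.valuation (z * (1 - 24 * r + r ^ 2 * d') - q ^ 2 * β) = 1 := by
    have h1 : O.valuation (z * (1 - 24 * r + r ^ 2 * d')) = 1 := by rw [val_mul_unit O vD', vz]
    rw [sub_eq_add_neg, val_add_of_lt O, h1]
    rw [h1, Valuation.map_neg]
    rw [show q ^ 2 * β = q * (q * β) by ring]
    exact lt_one_mul O vq1 (mem_mul O hqO hεO)
  have hDzne : (z * (1 - 24 * r + r ^ 2 * d') - q ^ 2 * β) ≠ 0 := by
    intro h; rw [h, map_zero] at vDz; exact zero_ne_one vDz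
  have hyq : y * (q * (z * (1 - 24 * r + r ^ 2 * d') - q ^ 2 * β)) = 1 + 720 * r + r ^ 2 * e' := by
    have h1 : (1 + 720 * r + r ^ 2 * e') * w = q * (z * (1 - 24 * r + r ^ 2 * d') - q ^ 2 * β) := by
      have h2 : (1 + 720 * r + r ^ 2 * e') * w = (r - 24 * r ^ 2 + r ^ 3 * d') - q ^ 3 * β := by
        rw [← hεβ, hε]; ring
      rw [h2]
      linear_combination (1 - 24 * r + r ^ 2 * d') * hrq
    rw [← h1, hw]
    field_simp
  set γ := (z ^ 3 * (e' - d' + 744 * 24 - 744 * r * d') + (1 + 744 * r) * β) /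
    (z * (z * (1 - 24 * r + r ^ 2 * d') - q ^ 2 * β)) with hγ
  have hγO : γ ∈ O := by
    refine hdiv _ _ (mem_add O (mem_mul O (mem_pow O hzO _) (mem_sub O (mem_add O (mem_sub O he' hd')
      (mem_mul O m744 m24)) (mem_mul O (mem_mul O m744 hrO) hd'))) (mem_mul O (mem_add O (one_mem O)
      (mem_mul O m744 hrO)) hεO)) ?_
    rw [map_mul, vz, vDz, one_mul]
  have hy1 : y - 744 = 1 / (z * q) + q * γ := by
    have hne : z * (q * (z * (1 - 24 * r + r ^ 2 * d') - q ^ 2 * β)) ≠ 0 :=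
      mul_ne_zero hz0 (mul_ne_zero hq0 hDzne)
    have hγD : γ * (z * (z * (1 - 24 * r + r ^ 2 * d') - q ^ 2 * β)) =
        z ^ 3 * (e' - d' + 744 * 24 - 744 * r * d') + (1 + 744 * r) * β :=
      div_mul_cancel₀ _ (mul_ne_zero hz0 hDzne)
    have hq1 : 1 / (z * q) * (z * q) = 1 := div_mul_cancel₀ _ (mul_ne_zero hz0 hq0)
    apply mul_right_cancel₀ hne
    linear_combination z * hyq - (z * (1 - 24 * r + r ^ 2 * d') - q ^ 2 * β) * hq1 - q ^ 2 * hγD +
      (744 * (z * (1 - 24 * r + r ^ 2 * d') - q ^ 2 * β) +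
        z * (r + z * q) * (e' - d' + 744 * 24 - 744 * r * d')) * hrq
  refine ⟨o, hoT, by rw [← hk, hkn], (γ - z⁻¹ * α) * (q / p), ?_, ?_⟩
  · refine mem_mul O (mem_sub O hγO (mem_mul O ?_ hαO)) ?_
    · rw [val_mem, map_inv₀, vz, inv_one]
    · rw [val_mem, map_div₀, vq, div_self vp0]
  · have h744 : ((kap : ℤ) : K) = 744 := by unfold kap; norm_num
    rw [← hz, h744, hx1, hy1]
    field_simp
    ring

end core

section prim
variable (m : ℤ) [hm : Fact (0 < m)]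

/-- primitive matrices -/
def IsPrim {m : ℤ} (A : DM m) : Prop := ∀ k : ℤ, (∀ i j, k ∣ A.1 i j) → k ∣ 1

lemma IsPrim.smul {m : ℤ} {A : DM m} (hA : IsPrim A) (γ : SL(2, ℤ)) : IsPrim (γ • A) := by
  intro k hk
  refine hA k fun i j => ?_
  have h1 : A.1 = (γ⁻¹ : SL(2, ℤ)).1 * (γ • A : DM m).1 := by
    have : A = γ⁻¹ • (γ • A) := (inv_smul_smul γ A).symm
    conv_lhs => rw [this]
    rfl
  rw [h1, Matrix.mul_apply]
  exact Finset.dvd_sum fun l _ => Dvd.dvd.mul_left (hk l j) _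

lemma IsPrim.rmul {m : ℤ} {A : DM m} (hA : IsPrim A) (γ : SL(2, ℤ)) : IsPrim (Helper11.ZP.rmul γ A) := by
  intro k hk
  refine hA k fun i j => ?_
  have h1 : A.1 = (Helper11.ZP.rmul γ A : DM m).1 * (γ⁻¹ : SL(2, ℤ)).1 := by
    have : A = Helper11.ZP.rmul γ⁻¹ (Helper11.ZP.rmul γ A) := by
      rw [rmul_rmul, mul_inv_cancel, rmul_one]
    conv_lhs => rw [this]
    rfl
  rw [h1, Matrix.mul_apply]
  exact Finset.dvd_sum fun l _ => Dvd.dvd.mul_right (hk i l) _

open Classical in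
/-- the orbits of primitive matrices -/
noncomputable def TP : Finset (Orb m) := Finset.univ.filter fun o => ∃ A : DM m, mkO A = o ∧ IsPrim A

lemma mem_TP {A : DM m} (hA : IsPrim A) : mkO A ∈ TP m := by
  classical
  exact Finset.mem_filter.2 ⟨Finset.mem_univ _, A, rfl, hA⟩

lemma TP_stable : Stable m (TP m) := by
  classical
  intro γ o ho
  obtain ⟨-, A, rfl, hA⟩ := Finset.mem_filter.1 ho
  exact mem_TP m (hA.rmul γ)

lemma TP_prim {o : Orb m} (ho : o ∈ TP m) : IsPrim (U m o) := by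
  classical
  obtain ⟨-, A, hAo, hA⟩ := Finset.mem_filter.1 ho
  obtain ⟨γ, hγ⟩ := mkO_eq ((mkO_U m o).trans hAo.symm)
  rw [hγ]
  exact hA.smul γ

/-- the root of unity of a primitive orbit with exponent `m` -/
lemma TP_root {o : Orb m} (ho : o ∈ TP m) (hk : ko m o = m.toNat) :
    ∃ N : ℕ, 0 < N ∧ (N : ℤ) ^ 2 = m ∧ IsPrimitiveRoot ((zo m o : OO) : ℂ) N := by
  have hp := TP_prim m ho
  have ha := U00 m o
  have hd := d_pos (U m o) (U10 m o) (U00 m o)
  have had := ad_eq (U m o) (U10 m o)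
  have hm0 := hm.out
  have e1 : (U m o).1 0 0 ^ 2 = m := by
    have h3 : ((((U m o).1 0 0).toNat ^ 2 : ℕ) : ℤ) = ((m.toNat : ℕ) : ℤ) := by
      exact_mod_cast congrArg (fun z : ℕ => (z : ℤ)) hk
    push_cast at h3
    rwa [Int.toNat_of_nonneg ha.le, Int.toNat_of_nonneg hm0.le] at h3
  have e2 : (U m o).1 1 1 = (U m o).1 0 0 := by
    have h4 : (U m o).1 0 0 * (U m o).1 1 1 = (U m o).1 0 0 * (U m o).1 0 0 :=
      had.trans (e1.symm.trans (pow_two _))
    exact mul_left_cancel₀ ha.ne' h4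
  obtain ⟨h5, h6⟩ := U_lt m o
  obtain ⟨a, hae⟩ := Int.eq_ofNat_of_zero_le ha.le
  obtain ⟨b, hbe⟩ := Int.eq_ofNat_of_zero_le h5
  have ha0 : a ≠ 0 := by
    rintro rfl
    rw [hae] at ha
    simp at ha
  refine ⟨a, Nat.pos_of_ne_zero ha0, ?_, ?_⟩
  · have h7 : ((a : ℕ) : ℤ) = (U m o).1 0 0 := hae.symm
    rw [h7, e1]
  · have hco : b.Coprime a := by
      rw [Nat.coprime_iff_gcd_eq_one]
      have h8 : ((b.gcd a : ℕ) : ℤ) ∣ 1 := by
        apply hp
        intro i j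
        have hga : ((b.gcd a : ℕ) : ℤ) ∣ (U m o).1 0 0 := by
          rw [hae]
          exact Int.natCast_dvd_natCast.2 (Nat.gcd_dvd_right _ _)
        fin_cases i <;> fin_cases j
        · exact hga
        · change _ ∣ (U m o).1 0 1
          rw [hbe]
          exact Int.natCast_dvd_natCast.2 (Nat.gcd_dvd_left _ _)
        · change _ ∣ (U m o).1 1 0
          rw [U10]
          exact dvd_zero _
        · change _ ∣ (U m o).1 1 1
          rw [e2]
          exact hga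
      have h9 : ((b.gcd a : ℕ) : ℤ) ∣ ((1 : ℕ) : ℤ) := by exact_mod_cast h8
      exact Nat.dvd_one.1 (Int.natCast_dvd_natCast.1 h9)
    have h10 := Complex.isPrimitiveRoot_exp_of_coprime b a ha0 hco
    have h11 : ((zo m o : OO) : ℂ) = Complex.exp (2 * π * Complex.I * (b / a)) := by
      change zt (U m o) = _
      rw [zt, e2, hae, hbe]
      congr 1
      push_cast
      ring
    rw [h11]
    exact h10

/-- the modular polynomial of the primitive matrices of determinant `m` -/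
noncomputable def primPoly : Polynomial (Polynomial OO) :=
  Polynomial.X ^ (TP m).card +
    ∑ i ∈ Finset.range (TP m).card, Polynomial.C (Polynomial.C (⟨((ppT_top_unit (TP_stable m)).choose)⁻¹,
      (ppT_top_unit (TP_stable m)).choose_spec.1.2.1⟩ : OO) * ppT (TP_stable m) i) * Polynomial.X ^ i

lemma primPoly_monic : (primPoly m).Monic := by
  have hQ : (∑ i ∈ Finset.range (TP m).card, Polynomial.C (Polynomial.C
      (⟨((ppT_top_unit (TP_stable m)).choose)⁻¹, (ppT_top_unit (TP_stable m)).choose_spec.1.2.1⟩ : OO) *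
        ppT (TP_stable m) i) * Polynomial.X ^ i : Polynomial (Polynomial OO)).degree < ((TP m).card : ℕ) := by
    refine (Polynomial.degree_sum_le _ _).trans_lt ?_
    rw [Finset.sup_lt_iff (WithBot.bot_lt_coe _)]
    intro i hi
    refine (Polynomial.degree_C_mul_X_pow_le _ _).trans_lt ?_
    exact_mod_cast Finset.mem_range.1 hi
  exact Polynomial.monic_X_pow_add hQ

lemma primPoly_root (A : DM m) (hA : IsPrim A) (τ : ℍ) :
    (primPoly m).eval₂ (evO (jInv τ)) (jInv (toGL hm.out A • τ)) = 0 := by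
  have hT := TP_stable m
  set c := (ppT_top_unit hT).choose with hcdef
  obtain ⟨⟨hc, hc', hc0⟩, hg⟩ := (ppT_top_unit hT).choose_spec
  replace hc0 : c ≠ 0 := hc0
  replace hg : ∀ τ, gT m (TP m) (TP m).card τ = ModularForm.discriminant τ ^ (TP m).card * c := hg
  have h := sumT_root m (TP m) A (mem_TP m hA) τ
  rw [Finset.sum_range_succ, hg] at h
  rw [primPoly, Polynomial.eval₂_add, Polynomial.eval₂_X_pow, Polynomial.eval₂_finsetSum]
  have h1 : ∀ i ∈ Finset.range (TP m).card,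
      (Polynomial.C (Polynomial.C (⟨c⁻¹, hc'⟩ : OO) * ppT hT i) * Polynomial.X ^ i).eval₂
        (evO (jInv τ)) (jInv (toGL hm.out A • τ))
      = (c * ModularForm.discriminant τ ^ (TP m).card)⁻¹ * (gT m (TP m) i τ * jInv (toGL hm.out A • τ) ^ i) := by
    intro i _
    rw [Polynomial.eval₂_mul, Polynomial.eval₂_C, Polynomial.eval₂_X_pow, map_mul, ppT_eval hT]
    have h2 : evO (jInv τ) (Polynomial.C (⟨c⁻¹, hc'⟩ : OO)) = c⁻¹ := by
      rw [evO, Polynomial.coe_eval₂RingHom, Polynomial.eval₂_C]; rfl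
    have h3 : evO (jInv τ) (ppT hT i) = (ppT hT i).eval₂ (algebraMap OO ℂ) (jInv τ) := rfl
    rw [h2, h3]
    have hD := pow_ne_zero (TP m).card (discriminant_ne_zero τ)
    field_simp
  rw [Finset.sum_congr rfl h1, ← Finset.mul_sum]
  have hD := pow_ne_zero (TP m).card (discriminant_ne_zero τ)
  have h4 : ∑ i ∈ Finset.range (TP m).card, gT m (TP m) i τ * jInv (toGL hm.out A • τ) ^ i =
      -(ModularForm.discriminant τ ^ (TP m).card * c * jInv (toGL hm.out A • τ) ^ (TP m).card) := by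
    linear_combination h
  rw [h4]
  field_simp
  ring

/-- if the primitive modular polynomial vanishes, so does the sum over the coefficients -/
lemma primPoly_sum {K : Type*} [Field K] [Algebra ℂ K] {x y : K}
    (h : (primPoly m).eval₂ (Polynomial.eval₂RingHom ((algebraMap ℂ K).comp (algebraMap OO ℂ)) x) y = 0) :
    ∑ i ∈ Finset.range ((TP m).card + 1), (ppT (TP_stable m) i).eval₂ (ph K) x * y ^ i = 0 := by
  have hT := TP_stable m
  have hc0' := (ppT_top_unit (TP_stable m)).choose_spec.1.2.2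
  have hc0 : ((ppT_top_unit (TP_stable m)).choose)⁻¹ ≠ 0 := inv_ne_zero hc0'
  have hc := (ppT_top_unit (TP_stable m)).choose_spec.1.1
  have hg := (ppT_top_unit (TP_stable m)).choose_spec.2
  set c := (ppT_top_unit (TP_stable m)).choose with hcdef
  have htop : ppT hT (TP m).card = Polynomial.C (⟨c, hc⟩ : OO) := by
    obtain ⟨c₁, hc₁⟩ := ppT_top hT
    rw [hc₁]
    congr 1
    apply Subtype.ext
    have h1 := ppT_eval hT (TP m).card UpperHalfPlane.I
    rw [hg, hc₁, Polynomial.eval₂_C] at h1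
    exact (mul_left_cancel₀ (pow_ne_zero _ (discriminant_ne_zero _)) h1).symm
  have hc' := (ppT_top_unit (TP_stable m)).choose_spec.1.2.1
  have hcK : ph K (⟨c⁻¹, hc'⟩ : OO) ≠ 0 := by
    change algebraMap ℂ K c⁻¹ ≠ 0
    rw [ne_eq, map_eq_zero]
    exact hc0
  apply mul_left_cancel₀ hcK
  rw [primPoly] at h
  rw [mul_zero, ← h, Polynomial.eval₂_add, Polynomial.eval₂_X_pow, Polynomial.eval₂_finsetSum,
    Finset.sum_range_succ, htop, Polynomial.eval₂_C, mul_add, Finset.mul_sum]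
  have h1 : ph K (⟨c⁻¹, hc'⟩ : OO) * (ph K (⟨c, hc⟩ : OO) * y ^ (TP m).card) = y ^ (TP m).card := by
    have h2 : ph K (⟨c⁻¹, hc'⟩ : OO) * ph K (⟨c, hc⟩ : OO) = 1 := by
      change algebraMap ℂ K c⁻¹ * algebraMap ℂ K c = 1
      rw [← map_mul, inv_mul_cancel₀ hc0', map_one]
    rw [← mul_assoc, h2, one_mul]
  rw [h1, add_comm]
  congr 1
  refine Finset.sum_congr rfl fun i _ => ?_
  rw [Polynomial.eval₂_mul, Polynomial.eval₂_C, Polynomial.eval₂_X_pow, map_mul,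
    Polynomial.coe_eval₂RingHom, Polynomial.eval₂_C]
  ring

end prim

/-- rigidity with the exact order of the root of unity -/
def RigN {K : Type*} [Field K] (κ : ℤ) (p : ℕ) (O : ValuationSubring K) (m : ℤ) (x y : K) : Prop :=
  x ∉ O → y ∉ O → (p : K) * x ∈ O → (p : K) * x ∉ O.nonunits →
    (p : K) * y ∈ O → (p : K) * y ∉ O.nonunits →
    ∃ (N : ℕ) (ζ w : K), 0 < N ∧ (N : ℤ) ^ 2 = m ∧ IsPrimitiveRoot ζ N ∧ w ∈ O ∧
      (y - κ) - ζ * (x - κ) = p * w

/-- **rigidity for the primitive modular polynomial** -/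
theorem primPoly_rig (m : ℤ) [hm : Fact (0 < m)] (K : Type) [Field K] [IsAlgClosed K] [Algebra ℂ K]
    (O : ValuationSubring K) (p : ℕ) (hp0 : p ≠ 0) (hp : (p : K) ∈ O.nonunits) (x y : K)
    (h : (primPoly m).eval₂ (Polynomial.eval₂RingHom ((algebraMap ℂ K).comp (algebraMap OO ℂ)) x) y = 0) :
    RigN kap p O m x y := by
  intro h1 h2 h3 h4 h5 h6
  have hchar : CharZero K := charZero_of_injective_algebraMap (algebraMap ℂ K).injective
  obtain ⟨o, ho, hk, w, hw, he⟩ := rig_coreT (TP_stable m) O hp (by exact_mod_cast hp0)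
    (primPoly_sum m h) h1 h2 h3 h4 h5 h6
  obtain ⟨N, hN, hNm, hroot⟩ := TP_root m ho hk
  refine ⟨N, (ph K (zo m o))⁻¹, w, hN, hNm, ?_, hw, he⟩
  exact (hroot.map_of_injective (algebraMap ℂ K).injective).inv


/-- Two points `j(g₁τ)`, `j(g₂τ)` satisfy the primitive modular equation of some level. -/
theorem exists_relation_rigN (g₁ g₂ : Matrix (Fin 2) (Fin 2) ℤ) (h₁ : 0 < g₁.det) (h₂ : 0 < g₂.det) :
    ∃ (m : ℤ) (hm : Fact (0 < m)),
      ∀ τ τ₁ τ₂ : ℍ, (τ₁ : ℂ) * (g₁ 1 0 * (τ : ℂ) + g₁ 1 1) = g₁ 0 0 * (τ : ℂ) + g₁ 0 1 →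
        (τ₂ : ℂ) * (g₂ 1 0 * (τ : ℂ) + g₂ 1 1) = g₂ 0 0 * (τ : ℂ) + g₂ 0 1 →
        (primPoly m).eval₂ (evO (jInv τ₂)) (jInv τ₁) = 0 := by
  set G := g₁ * g₂.adjugate with hG
  have hdet : G.det = g₁.det * g₂.det := by
    rw [hG, Matrix.det_mul, Matrix.det_adjugate]
    simp
  have hGpos : 0 < G.det := by rw [hdet]; exact mul_pos h₁ h₂
  -- the content
  set c : ℤ := ((Int.gcd (Int.gcd (G 0 0) (G 0 1)) (Int.gcd (G 1 0) (G 1 1)) : ℕ) : ℤ) with hc
  have hdvd : ∀ i j, c ∣ G i j := by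
    have a1 : c ∣ (Int.gcd (G 0 0) (G 0 1) : ℤ) := Int.gcd_dvd_left ..
    have a2 : c ∣ (Int.gcd (G 1 0) (G 1 1) : ℤ) := Int.gcd_dvd_right ..
    intro i j
    fin_cases i <;> fin_cases j
    · exact a1.trans (Int.gcd_dvd_left ..)
    · exact a1.trans (Int.gcd_dvd_right ..)
    · exact a2.trans (Int.gcd_dvd_left ..)
    · exact a2.trans (Int.gcd_dvd_right ..)
  have hmax : ∀ k : ℤ, (∀ i j, k ∣ G i j) → k ∣ c := by
    intro k hk
    exact Int.dvd_coe_gcd (Int.dvd_coe_gcd (hk 0 0) (hk 0 1)) (Int.dvd_coe_gcd (hk 1 0) (hk 1 1))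
  have hc0 : c ≠ 0 := by
    intro h
    have hz : ∀ i j, G i j = 0 := fun i j => by
      have := hdvd i j
      rw [h] at this
      exact zero_dvd_iff.1 this
    rw [Matrix.det_fin_two, hz 0 0, hz 0 1] at hGpos
    simp at hGpos
  choose B hB using hdvd
  let A : Matrix (Fin 2) (Fin 2) ℤ := Matrix.of B
  have hA : ∀ i j, G i j = c * A i j := fun i j => hB i j
  have hdetA : G.det = c ^ 2 * A.det := by
    rw [Matrix.det_fin_two, Matrix.det_fin_two, hA, hA, hA, hA]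
    ring
  have hApos : 0 < A.det := by
    rw [hdetA] at hGpos
    exact (pos_iff_pos_of_mul_pos hGpos).1 (by positivity)
  have hprim : IsPrim (⟨A, rfl⟩ : DM A.det) := by
    intro k hk
    have h1 : c * k ∣ c := by
      apply hmax
      intro i j
      rw [hA]
      exact mul_dvd_mul_left c (hk i j)
    have h2 : c * k ∣ c * 1 := by rwa [mul_one]
    exact (mul_dvd_mul_iff_left hc0).1 h2
  refine ⟨A.det, ⟨hApos⟩, fun τ τ₁ τ₂ e₁ e₂ => ?_⟩
  have : Fact (0 < A.det) := ⟨hApos⟩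
  have key := primPoly_root A.det ⟨A, rfl⟩ hprim τ₂
  rwa [toGL_smul_eq hApos ⟨A, rfl⟩ τ₂ τ₁] at key
  have hd2 : (g₂ 1 0 * (τ : ℂ) + g₂ 1 1) ≠ 0 := by
    have := denom_ne_zero (toGL h₂ (⟨g₂, rfl⟩ : DM g₂.det)) τ
    change ((((g₂ 1 0 : ℤ) : ℝ) : ℂ) * (τ : ℂ) + (((g₂ 1 1 : ℤ) : ℝ) : ℂ)) ≠ 0 at this
    simpa using this
  have hcC : (c : ℂ) ≠ 0 := by exact_mod_cast hc0
  apply mul_left_cancel₀ hd2
  apply mul_left_cancel₀ hcC
  have a00 : c * A 0 0 = g₁ 0 0 * g₂ 1 1 - g₁ 0 1 * g₂ 1 0 := by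
    rw [← hA, hG]
    simp [Matrix.mul_apply, Fin.sum_univ_two, Matrix.adjugate_fin_two]; ring
  have a01 : c * A 0 1 = - g₁ 0 0 * g₂ 0 1 + g₁ 0 1 * g₂ 0 0 := by
    rw [← hA, hG]
    simp [Matrix.mul_apply, Fin.sum_univ_two, Matrix.adjugate_fin_two]
  have a10 : c * A 1 0 = g₁ 1 0 * g₂ 1 1 - g₁ 1 1 * g₂ 1 0 := by
    rw [← hA, hG]
    simp [Matrix.mul_apply, Fin.sum_univ_two, Matrix.adjugate_fin_two]; ring
  have a11 : c * A 1 1 = - g₁ 1 0 * g₂ 0 1 + g₁ 1 1 * g₂ 0 0 := by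
    rw [← hA, hG]
    simp [Matrix.mul_apply, Fin.sum_univ_two, Matrix.adjugate_fin_two]
  have b00 : (c : ℂ) * (A 0 0 : ℂ) = g₁ 0 0 * g₂ 1 1 - g₁ 0 1 * g₂ 1 0 := by exact_mod_cast a00
  have b01 : (c : ℂ) * (A 0 1 : ℂ) = - g₁ 0 0 * g₂ 0 1 + g₁ 0 1 * g₂ 0 0 := by exact_mod_cast a01
  have b10 : (c : ℂ) * (A 1 0 : ℂ) = g₁ 1 0 * g₂ 1 1 - g₁ 1 1 * g₂ 1 0 := by exact_mod_cast a10
  have b11 : (c : ℂ) * (A 1 1 : ℂ) = - g₁ 1 0 * g₂ 0 1 + g₁ 1 1 * g₂ 0 0 := by exact_mod_cast a11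
  change (c : ℂ) * ((g₂ 1 0 * (τ : ℂ) + g₂ 1 1) * ((τ₁ : ℂ) * ((A 1 0 : ℂ) * (τ₂ : ℂ) + (A 1 1 : ℂ)))) =
    (c : ℂ) * ((g₂ 1 0 * (τ : ℂ) + g₂ 1 1) * ((A 0 0 : ℂ) * (τ₂ : ℂ) + (A 0 1 : ℂ)))
  linear_combination
    ((g₂ 0 0 : ℂ) * (g₂ 1 1) - (g₂ 0 1) * (g₂ 1 0)) * e₁ +
    ((τ₁ : ℂ) * ((g₁ 1 0 : ℂ) * g₂ 1 1 - g₁ 1 1 * g₂ 1 0) - ((g₁ 0 0 : ℂ) * g₂ 1 1 - g₁ 0 1 * g₂ 1 0)) * e₂ +
    (g₂ 1 0 * (τ : ℂ) + g₂ 1 1) * ((τ₁ : ℂ) * (τ₂ : ℂ) * b10 + (τ₁ : ℂ) * b11 - (τ₂ : ℂ) * b00 - b01)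

end Pool.Agent.Helper20.ZT.Prim
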