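import Pool.Agent.Helper20.ZT.PrimRig
import Pool.Agent.Helper20.ZT.Explicit

/-! # The level of an isogeny between two coordinates with the same denominator divides `(p - 1) ^ 2` -/

namespace Pool.Agent.Helper20.ZT.Prim
open Pool.Agent.Helper11.ZP Pool.Agent.Helper20.ZT

section root
variable {R : Type*} [CommRing R] [IsLocalRing R] [IsDomain R]

/-- a root of unity which is congruent to a quotient of integers modulo `p` is a `(p-1)`-st root of
unity -/
theorem zeta_pow_eq_one {p : ℕ} (hp : p.Prime) (hp2 : 2 < p)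
    (hpm : (p : R) ∈ IsLocalRing.maximalIdeal R)
    (hp0 : (p : R) ≠ 0) {u v : ℤ} (hu : ¬ (p : ℤ) ∣ u) (hv : ¬ (p : ℤ) ∣ v) {e N : ℕ} (he : 1 ≤ e)
    (hN : 0 < N) {ζ w : R} (hζ : ζ ^ N = 1) (h : (v : R) - ζ * u = (p : R) ^ e * w) :
    ζ ^ (p - 1) = 1 := by
  have hfe : ∀ z : ℤ, ¬ (p : ℤ) ∣ z → ∃ k : R, (z : R) ^ (p - 1) = 1 + p * k := by
    intro z hz
    have h1 : (p : ℤ) ∣ z ^ (p - 1) - 1 := by
      have := Fact.mk hp
      have h2 : (z : ZMod p) ≠ 0 := by
        rwa [Ne, ZMod.intCast_zmod_eq_zero_iff_dvd]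
      have h3 := ZMod.pow_card_sub_one_eq_one h2
      rw [← ZMod.intCast_zmod_eq_zero_iff_dvd]
      push_cast
      rw [h3, sub_self]
    obtain ⟨k, hk⟩ := h1
    refine ⟨(k : R), ?_⟩
    have := congrArg (Int.cast : ℤ → R) hk
    push_cast at this
    linear_combination this
  obtain ⟨a, ha⟩ := hfe u hu
  obtain ⟨b, hb⟩ := hfe v hv
  have hv' : (v : R) = ζ * u + p ^ e * w := by linear_combination h
  obtain ⟨k, hk⟩ := Polynomial.powAddExpansion (ζ * (u : R)) ((p : R) ^ e * w) (p - 1)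
  rw [← hv', mul_pow] at hk
  set η : R := ζ ^ (p - 1) with hη
  have hηN : η ^ N = 1 := by rw [hη, ← pow_mul, mul_comm, pow_mul, hζ, one_pow]
  set W : R := ((p - 1 : ℕ) : R) * (ζ * u) ^ (p - 1 - 1) * w + k * w * (p ^ e * w) with hW
  have hk' : (v : R) ^ (p - 1) = η * (u : R) ^ (p - 1) + p ^ e * W := by
    rw [hk, hW]; ring
  obtain ⟨e', rfl⟩ : ∃ e', e = e' + 1 := ⟨e - 1, by omega⟩
  have h1 : (η - 1) * (1 + p * a) = p * (b - a - p ^ e' * W) := by
    rw [ha, hb] at hk'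
    linear_combination -hk'
  have hun : IsUnit (1 + (p : R) * a) := by
    rw [← ha]
    exact (Helper91.ZT.isUnit_of_not_dvd hp hpm hu).pow _
  obtain ⟨c, hc⟩ := hun.exists_right_inv
  have h2 : η = 1 + p * ((b - a - p ^ e' * W) * c) := by
    linear_combination c * h1 - (η - 1) * hc
  have h3 := root_eq_one hp hp2 hpm hp0 N hN _ (by rw [← h2]; exact hηN)
  rw [h2, h3]; ring

end root

/-- **the level**: if two numbers with the same denominator `p ^ e` at the place `O` above the odd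
prime `p` are related by the primitive modular polynomial of level `m`, then `m = N ^ 2` for a
divisor `N` of `p - 1` -/
theorem level_dvd {K : Type} [Field K] [IsAlgClosed K] [Algebra ℂ K] (O : ValuationSubring K) {p : ℕ}
    (hp : p.Prime) (hp2 : 2 < p) (hpK : (p : K) ∈ O.nonunits) (m : ℤ) [Fact (0 < m)] {e : ℕ} (he : 1 ≤ e)
    {q' u v : ℤ} (hq' : ¬ (p : ℤ) ∣ q') (hu : ¬ (p : ℤ) ∣ u) (hv : ¬ (p : ℤ) ∣ v) {x y : K}
    (hP : x - (u : K) / ((p : K) ^ e * q') ∈ O) (hQ : y - (v : K) / ((p : K) ^ e * q') ∈ O)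
    (h : (primPoly m).eval₂ (Polynomial.eval₂RingHom ((algebraMap ℂ K).comp (algebraMap OO ℂ)) x) y = 0) :
    ∃ N : ℕ, 0 < N ∧ N ∣ p - 1 ∧ (N : ℤ) ^ 2 = m := by
  have hchar : CharZero K := charZero_of_injective_algebraMap (algebraMap ℂ K).injective
  have hp0 : (p : K) ≠ 0 := by exact_mod_cast hp.ne_zero
  have vb : ∀ z : ℤ, ¬ (p : ℤ) ∣ z → O.valuation (z : K) = 1 := fun z hz => int_unit O hp hpK hz
  have vq' : O.valuation (q' : K) = 1 := int_unit O hp hpK hq'
  have hq0 : (q' : K) ≠ 0 := by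
    intro h0; rw [h0, map_zero] at vq'; exact zero_ne_one vq'
  have hint : ∀ a : ℤ, (a : K) ∈ O := fun a => intCast_mem O a
  have hpe : (p : K) ^ e ∈ O.nonunits := by
    obtain ⟨l, rfl⟩ : ∃ l, e = l + 1 := ⟨e - 1, by omega⟩
    rw [pow_succ]
    exact non_mul O (mem_pow O (non_mem O hpK) _) hpK
  have hcast : ((p ^ e : ℕ) : K) = (p : K) ^ e := by push_cast; rfl
  have key : ∀ (z : ℤ) (t : K), ¬ (p : ℤ) ∣ z → t - (z : K) / ((p : K) ^ e * q') ∈ O →
      O.valuation ((p : K) ^ e * t) = 1 ∧ t ∉ O := by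
    intro z t hz ht
    have h1 : (p : K) ^ e * t = z / q' + (p : K) ^ e * (t - (z : K) / ((p : K) ^ e * q')) := by
      field_simp
      ring
    have h2 : O.valuation ((z : K) / q') = 1 := by rw [map_div₀, vb z hz, vq', div_one]
    have h3 : O.valuation ((p : K) ^ e * t) = 1 := by
      rw [h1, val_add_of_lt O, h2]
      rw [h2]
      exact lt_one_mul O ((val_non O).1 hpe) ht
    refine ⟨h3, fun hcon => ?_⟩
    have h4 := non_mul O hcon hpe
    rw [mul_comm, val_non, h3] at h4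
    exact lt_irrefl _ h4
  obtain ⟨vx, hx⟩ := key u x hu hP
  obtain ⟨vy, hy⟩ := key v y hv hQ
  obtain ⟨N, ζ, w, hN, hNm, hζ, hw, hrel⟩ := primPoly_rig m K O (p ^ e) (pow_ne_zero _ hp.ne_zero)
    (by rw [hcast]; exact hpe) x y h hx hy
    (by rw [hcast, val_mem, vx]) (by rw [hcast, val_non, vx]; exact lt_irrefl _)
    (by rw [hcast, val_mem, vy]) (by rw [hcast, val_non, vy]; exact lt_irrefl _)
  rw [hcast] at hrel
  have hζN : ζ ^ N = 1 := hζ.pow_eq_one
  have hζO : ζ ∈ O := (val_mem O).2 (val_root_one O hN hζN).le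
  have hpm : ((p : O)) ∈ IsLocalRing.maximalIdeal O := by
    rw [← ValuationSubring.coe_mem_nonunits_iff]; simpa using hpK
  have hpO0 : (p : O) ≠ 0 := by
    intro h0
    apply hp0
    have := congrArg (Subtype.val : O → K) h0
    simpa using this
  set P : K := x - (u : K) / ((p : K) ^ e * q') with hPd
  set Q : K := y - (v : K) / ((p : K) ^ e * q') with hQd
  set s : K := q' * ((p : K) ^ e * w + (kap - ζ * kap) - (Q - ζ * P)) with hs
  have hsO : s ∈ O := mem_mul O (hint _) (mem_sub O (mem_add O (mem_mul O (mem_pow O (non_mem O hpK) _) hw)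
    (mem_sub O (hint _) (mem_mul O hζO (hint _)))) (mem_sub O hQ (mem_mul O hζO hP)))
  have e1 : (v : K) - ζ * u = (p : K) ^ e * s := by
    have h3 : (u : K) = q' * ((p : K) ^ e * x - (p : K) ^ e * P) := by
      rw [hPd]; field_simp; ring
    have h4 : (v : K) = q' * ((p : K) ^ e * y - (p : K) ^ e * Q) := by
      rw [hQd]; field_simp; ring
    rw [hs]
    linear_combination (q' * (p : K) ^ e) * hrel + h4 - ζ * h3
  have h5 := zeta_pow_eq_one (R := O) hp hp2 hpm hpO0 hu hv he hN (ζ := ⟨ζ, hζO⟩)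
    (w := ⟨s, hsO⟩) (by apply Subtype.ext; push_cast; exact hζN) (by
      apply Subtype.ext
      push_cast
      exact e1)
  have h6 : ζ ^ (p - 1) = 1 := by
    have := congrArg (Subtype.val : O → K) h5
    push_cast at this
    exact this
  exact ⟨N, hN, hζ.dvd_of_pow_eq_one _ h6, hNm⟩

/-! ### The relations on special subvarieties -/

section special
open MvPolynomial
variable {n : ℕ}

/-- the primitive modular polynomial of level `N ^ 2` in the coordinates `i`, `j` -/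
noncomputable def primMv (N : ℕ) (hN : 0 < N) (i j : Fin n) : MvPolynomial (Fin n) ℂ :=
  haveI : Fact (0 < (N : ℤ) ^ 2) := ⟨by positivity⟩
  (primPoly ((N : ℤ) ^ 2)).eval₂
    (Polynomial.eval₂RingHom ((C : ℂ →+* MvPolynomial (Fin n) ℂ).comp (algebraMap OO ℂ)) (X j)) (X i)

lemma eval_mv (P : Polynomial (Polynomial OO)) (i j : Fin n) (z : Fin n → ℂ) :
    eval z (P.eval₂ (Polynomial.eval₂RingHom
      ((C : ℂ →+* MvPolynomial (Fin n) ℂ).comp (algebraMap OO ℂ)) (X j)) (X i)) =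
      P.eval₂ (evO (z j)) (z i) := by
  have e1 := Polynomial.hom_eval₂ P
    (Polynomial.eval₂RingHom ((C : ℂ →+* MvPolynomial (Fin n) ℂ).comp (algebraMap OO ℂ)) (X j))
    (eval z) (X i)
  rw [e1, eval_X]
  have e2 : (eval z).comp (Polynomial.eval₂RingHom
      ((C : ℂ →+* MvPolynomial (Fin n) ℂ).comp (algebraMap OO ℂ)) (X j)) = evO (z j) := by
    apply Polynomial.ringHom_ext
    · intro a
      simp [evO]
    · simp [evO]
  rw [e2]

lemma eval_primMv (N : ℕ) (hN : 0 < N) (i j : Fin n) (z : Fin n → ℂ) :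
    eval z (primMv N hN i j) =
      (haveI : Fact (0 < (N : ℤ) ^ 2) := ⟨by positivity⟩
      (primPoly ((N : ℤ) ^ 2)).eval₂ (evO (z j)) (z i)) := eval_mv _ i j z

/-- two coordinates in the same class of a special subvariety satisfy a primitive modular equation -/
lemma special_rel (S : SpecialData n) {i j : Fin n} {s : Fin S.r} (hi : S.cls i = some s)
    (hj : S.cls j = some s) : ∃ (m : ℤ) (_ : Fact (0 < m)), ∀ z ∈ S.carrier,
      (primPoly m).eval₂ (evO (z j)) (z i) = 0 := by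
  obtain ⟨m, hm, h⟩ := exists_relation_rigN (S.g i) (S.g j) (S.hg i) (S.hg j)
  refine ⟨m, hm, fun z hz => ?_⟩
  obtain ⟨τ, hτ⟩ := hz.2 s
  obtain ⟨τ₁, h1, h1'⟩ := hτ i hi
  obtain ⟨τ₂, h2, h2'⟩ := hτ j hj
  have h := h τ τ₁ τ₂ h1 h2
  rwa [← h1', ← h2'] at h

lemma evO_eq (x : ℂ) : Polynomial.eval₂RingHom ((algebraMap ℂ ℂ).comp (algebraMap OO ℂ)) x = evO x := rfl

/-- **the level of a relation between two coordinates with the same denominator** -/
theorem special_level (S : SpecialData n) {i j : Fin n} {s : Fin S.r} (hi : S.cls i = some s)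
    (hj : S.cls j = some s) {z : Fin n → ℂ} (hz : z ∈ S.carrier) (O : ValuationSubring ℂ) {p : ℕ}
    (hp : p.Prime) (hp2 : 2 < p) (hpK : (p : ℂ) ∈ O.nonunits) {e : ℕ} (he : 1 ≤ e)
    {q' u v : ℤ} (hq' : ¬ (p : ℤ) ∣ q') (hu : ¬ (p : ℤ) ∣ u) (hv : ¬ (p : ℤ) ∣ v)
    (hP : z j - (u : ℂ) / ((p : ℂ) ^ e * q') ∈ O) (hQ : z i - (v : ℂ) / ((p : ℂ) ^ e * q') ∈ O) :
    ∃ (N : ℕ) (hN : 0 < N), N ∣ p - 1 ∧ eval z (primMv N hN i j) = 0 := by
  obtain ⟨m, hm, h⟩ := special_rel S hi hj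
  have h1 := h z hz
  obtain ⟨N, hN, hNp, rfl⟩ := level_dvd O hp hp2 hpK m he hq' hu hv hP hQ h1
  exact ⟨N, hN, hNp, by rw [eval_primMv]; exact h1⟩

end special

end Pool.Agent.Helper20.ZT.Prim
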