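import Pool.Agent.Helper20.ZT.PrimRigS

/-! # The exact level of a modular relation between translates of rational numbers -/

namespace Pool.Agent.Helper20.ZT.Prim
open Pool.Agent.Helper11.ZP Pool.Agent.Helper11.ZU Pool.Agent.Helper20.ZT

section
variable {K : Type*} [Field K] [CharZero K] {O : ValuationSubring K} {p : ℕ}

/-- an integral translate of `u / (p ^ e v)`, with precision `p ^ e` -/
lemma translate_congS (hp : p.Prime) (hpO : (p : K) ∈ O.nonunits) {u v : ℤ} (hu : ¬ (p : ℤ) ∣ u)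
    (hv : ¬ (p : ℤ) ∣ v) {e : ℕ} {x : K} (hx : x - (u : K) / ((p : K) ^ e * v) ∈ O) :
    ∃ c, Cong O (p ^ e) c ∧ x = (u : K) / ((p : K) ^ e * v) * c := by
  have hp0 : (p : K) ≠ 0 := by exact_mod_cast hp.ne_zero
  have vu := int_unit O hp hpO hu
  have vv := int_unit O hp hpO hv
  have hu0 : (u : K) ≠ 0 := by intro h; rw [h, map_zero] at vu; exact zero_ne_one vu
  have hv0 : (v : K) ≠ 0 := by intro h; rw [h, map_zero] at vv; exact zero_ne_one vv
  set z := x - (u : K) / ((p : K) ^ e * v) with hz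
  have hc : Cong O (p ^ e) (1 + (p : K) ^ e * v * z / u) := by
    refine ⟨v * z / u, ?_, by push_cast; ring⟩
    rw [div_eq_mul_inv]
    refine O.mul_mem _ _ (O.mul_mem _ _ (intCast_mem O v) hx) ?_
    rw [val_mem, map_inv₀, vu, inv_one]
  refine ⟨_, hc, ?_⟩
  have : x = z + (u : K) / ((p : K) ^ e * v) := by rw [hz]; ring
  rw [this]
  field_simp
  ring

omit [CharZero K] in
lemma Cong.mono {k l : ℕ} (hkl : k ≤ l) {u : K} (hu : Cong O (p ^ l) u) : Cong O (p ^ k) u := by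
  obtain ⟨w, hw, rfl⟩ := hu
  refine ⟨(p : K) ^ (l - k) * w, O.mul_mem _ _ (mem_pow O (natCast_mem O p) _) hw, ?_⟩
  push_cast
  rw [← mul_assoc, ← pow_add]
  congr 3
  omega

end

/-- **the exact level** of a sharply rigid relation between integral translates of `u₁ / (p ^ e v₁)`
and `u₂ / (p ^ f v₂)`: with `A / B` the unit `(u₁ / v₁) ^ (f / gcd) / (u₂ / v₂) ^ (e / gcd)`, the number
`g` is the exact order of `A / B` modulo `p`, and `(A / B) ^ g` is `1` modulo `p ^ min e f` -/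
theorem levelS {K : Type*} [Field K] [CharZero K] {p : ℕ} (hp : p.Prime) (hp2 : 2 < p)
    {O : ValuationSubring K} (hpO : (p : K) ∈ O.nonunits) {u₁ v₁ u₂ v₂ : ℤ}
    (hu₁ : ¬ (p : ℤ) ∣ u₁) (hv₁ : ¬ (p : ℤ) ∣ v₁) (hu₂ : ¬ (p : ℤ) ∣ u₂) (hv₂ : ¬ (p : ℤ) ∣ v₂)
    {e f : ℕ} (he0 : 0 < e) (hf0 : 0 < f) {x y : K}
    (hx : x - (u₁ : K) / ((p : K) ^ e * v₁) ∈ O) (hy : y - (u₂ : K) / ((p : K) ^ f * v₂) ∈ O) {m : ℤ}
    (hrig : RigS p O m x y) :
    ∃ g : ℕ, 0 < g ∧ m * ((Nat.gcd e f : ℕ) : ℤ) ^ 2 = e * f * g ^ 2 ∧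
      (p : ℤ) ^ min e f ∣ (u₁ ^ (f / Nat.gcd e f) * v₂ ^ (e / Nat.gcd e f)) ^ g -
        (v₁ ^ (f / Nat.gcd e f) * u₂ ^ (e / Nat.gcd e f)) ^ g ∧
      ∀ k : ℕ, (p : ℤ) ∣ (u₁ ^ (f / Nat.gcd e f) * v₂ ^ (e / Nat.gcd e f)) ^ k -
        (v₁ ^ (f / Nat.gcd e f) * u₂ ^ (e / Nat.gcd e f)) ^ k → g ∣ k := by
  obtain ⟨vx, -, -, -⟩ := translate_cong hp hpO hu₁ hv₁ he0 hx
  obtain ⟨vy, -, -, -⟩ := translate_cong hp hpO hu₂ hv₂ hf0 hy
  obtain ⟨c, hc1, hxc⟩ := translate_congS hp hpO hu₁ hv₁ hx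
  obtain ⟨c', hc1', hyc⟩ := translate_congS hp hpO hu₂ hv₂ hy
  have hc : Cong O (p ^ min e f) c := Cong.mono (min_le_left _ _) hc1
  have hc' : Cong O (p ^ min e f) c' := Cong.mono (min_le_right _ _) hc1'
  obtain ⟨g, ζ, w, hg, hm, hζ, hw, hrel⟩ := hrig e f he0 hf0 vx vy
  refine ⟨g, hg, hm, ?_⟩
  set h := Nat.gcd e f with hh
  have hh0 : 0 < h := Nat.gcd_pos_of_pos_left _ he0
  obtain ⟨e', he'⟩ : h ∣ e := Nat.gcd_dvd_left _ _
  obtain ⟨f', hf'⟩ : h ∣ f := Nat.gcd_dvd_right _ _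
  have e1 : e / h = e' := by rw [he']; exact Nat.mul_div_cancel_left _ hh0
  have f1 : f / h = f' := by rw [hf']; exact Nat.mul_div_cancel_left _ hh0
  rw [e1, f1] at hrel ⊢
  have hp0 : (p : K) ≠ 0 := by exact_mod_cast hp.ne_zero
  have hmin : 0 < min e f := lt_min he0 hf0
  have hPc : ((p ^ min e f : ℕ) : K) = (p : K) ^ min e f := by push_cast; rfl
  have hP : ((p ^ min e f : ℕ) : K) ∈ O.nonunits := by
    rw [val_non, hPc, map_pow]
    exact pow_lt_one₀ zero_le ((val_non O).1 hpO) hmin.ne'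
  have nz : ∀ z : ℤ, ¬ (p : ℤ) ∣ z → (z : K) ≠ 0 := by
    intro z hz
    have := int_unit O hp hpO hz
    intro h0
    rw [h0, map_zero] at this
    exact zero_ne_one this
  have hu₁0 := nz _ hu₁
  have hv₁0 := nz _ hv₁
  have hu₂0 := nz _ hu₂
  have hv₂0 := nz _ hv₂
  have hcw : Cong O (p ^ min e f) (1 + (p : K) ^ min e f * w) := ⟨w, hw, by rw [hPc]⟩
  have cne : ∀ {c : K}, Cong O (p ^ min e f) c → c ≠ 0 := by
    intro c hc h0
    have := hc.val hP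
    rw [h0, map_zero] at this
    exact zero_ne_one this
  have hcw0 := cne hcw
  have hc0 := cne hc
  have hc'0 := cne hc'
  set κ := c ^ f' / (c' ^ e' * (1 + (p : K) ^ min e f * w)) with hκ
  have hκC : Cong O (p ^ min e f) κ := (hc.pow _).div hP ((hc'.pow _).mul hcw)
  set A : ℤ := u₁ ^ f' * v₂ ^ e' with hA
  set B : ℤ := v₁ ^ f' * u₂ ^ e' with hB
  have key : ζ = ((A : K) / (B : K)) * κ := by
    rw [hxc, hyc] at hrel
    have hef : ((p : K) ^ e) ^ f' = ((p : K) ^ f) ^ e' := by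
      rw [← pow_mul, ← pow_mul]
      congr 1
      rw [he', hf']; ring
    have hpe : ((p : K) ^ f) ^ e' ≠ 0 := pow_ne_zero _ (pow_ne_zero _ hp0)
    rw [hA, hB, hκ]
    push_cast
    rw [mul_pow, div_pow, mul_pow, mul_pow, div_pow, mul_pow, hef] at hrel
    have hne : (u₂ : K) ^ e' / (((p : K) ^ f) ^ e' * (v₂ : K) ^ e') * c' ^ e' *
        (1 + (p : K) ^ min e f * w) ≠ 0 := by
      refine mul_ne_zero (mul_ne_zero (div_ne_zero (pow_ne_zero _ hu₂0) (mul_ne_zero hpe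
        (pow_ne_zero _ hv₂0))) (pow_ne_zero _ hc'0)) hcw0
    have h3 : ζ = ((u₁ : K) ^ f' / (((p : K) ^ f) ^ e' * (v₁ : K) ^ f') * c ^ f') /
        ((u₂ : K) ^ e' / (((p : K) ^ f) ^ e' * (v₂ : K) ^ e') * c' ^ e' *
          (1 + (p : K) ^ min e f * w)) := by
      rw [eq_div_iff hne, hrel]
      ring
    rw [h3]
    field_simp
  have hpZ := Nat.prime_iff_prime_int.1 hp
  have hAp : ¬ (p : ℤ) ∣ A := by
    intro h0
    rcases hpZ.dvd_or_dvd h0 with h0 | h0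
    · exact hu₁ (hpZ.dvd_of_dvd_pow h0)
    · exact hv₂ (hpZ.dvd_of_dvd_pow h0)
  have hBp : ¬ (p : ℤ) ∣ B := by
    intro h0
    rcases hpZ.dvd_or_dvd h0 with h0 | h0
    · exact hv₁ (hpZ.dvd_of_dvd_pow h0)
    · exact hu₂ (hpZ.dvd_of_dvd_pow h0)
  have hA0 := nz _ hAp
  have hB0 := nz _ hBp
  have powrel : ∀ k : ℕ, ζ ^ k * (B : K) ^ k = (A : K) ^ k * κ ^ k := by
    intro k
    rw [key, mul_pow, div_pow]
    field_simp
  refine ⟨?_, fun k hk => ?_⟩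
  · obtain ⟨w', hw', hw2⟩ := hκC.pow g
    have h1 := powrel g
    rw [hζ.pow_eq_one, one_mul, hw2, hPc] at h1
    refine dvd_of_mem O hp hpO (s := -((A : K) ^ g * w')) ?_ ?_
    · exact O.neg_mem _ (O.mul_mem _ _ (mem_pow O (intCast_mem O A) _) hw')
    · push_cast
      rw [h1]
      ring
  · obtain ⟨D, hD⟩ := hk
    have hBk : O.valuation ((B : K) ^ k) = 1 := by rw [map_pow, int_unit O hp hpO hBp, one_pow]
    have h1 : Cong O p ((A : K) ^ k / (B : K) ^ k) := by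
      refine ⟨(D : K) / (B : K) ^ k, ?_, ?_⟩
      · rw [val_mem, map_div₀, hBk, div_one]
        exact (val_mem O).1 (intCast_mem O D)
      · have h2 := congrArg (Int.cast : ℤ → K) hD
        push_cast at h2
        have h3 : (B : K) ^ k ≠ 0 := pow_ne_zero _ hB0
        field_simp
        linear_combination h2
    have h2 : Cong O p (κ ^ k) := by
      have h3 := Cong.mono (k := 1) hmin (hκC.pow k)
      rwa [pow_one] at h3
    have h3 : ζ ^ k = (A : K) ^ k / (B : K) ^ k * κ ^ k := by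
      rw [div_mul_eq_mul_div, eq_div_iff (pow_ne_zero _ hB0)]
      exact powrel k
    have h4 : Cong O p (ζ ^ k) := by
      rw [h3]
      exact h1.mul h2
    have h5 := h4.root_eq_one hp hp2 hp0 hpO hg (by rw [← pow_mul, mul_comm, pow_mul, hζ.pow_eq_one, one_pow])
    exact hζ.dvd_of_pow_eq_one _ h5

end Pool.Agent.Helper20.ZT.Prim
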