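import Pool.Agent.Helper11.ZP.Conseq

/-! # Translates of subvarieties in general position at the cusps: definitions -/

namespace Pool.Agent.Helper20.ZT
open Finset MvPolynomial Pool.Agent.Helper11.ZP

/-- `f` is a polynomial in the variables `T_i`, `i ∈ J`, which contains its top monomial
`∏ T_i ^ (deg_i f)` -/
structure TopIn {n : ℕ} (J : Finset (Fin n)) (f : MvPolynomial (Fin n) ℂ) : Prop where
  vars : f.vars ⊆ J
  top : f.coeff (Finsupp.equivFunOnFinite.symm fun i => f.degreeOf i) ≠ 0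

/-- `Z ⊆ Y(1)ⁿ` is in general position at the cusps for the dimension `d`: for every set `J` of
`d + 1` coordinates some polynomial in these coordinates, which contains its top monomial, vanishes
on `Z` (no point of the closure of `Z` in `(ℙ¹)ⁿ` has more than `d` infinite coordinates) -/
def GenPos {n : ℕ} (d : ℕ) (Z : Set (Fin n → ℂ)) : Prop :=
  ∀ J : Finset (Fin n), J.card = d + 1 → ∃ f, TopIn J f ∧ ∀ z ∈ Z, eval z f = 0

/-- the leading coefficient of `f` in the variables of `T` -/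
noncomputable def lead {n : ℕ} (T : Finset (Fin n)) (f : MvPolynomial (Fin n) ℂ) :
    MvPolynomial (Fin n) ℂ :=
  ∑ m ∈ f.support with (∀ i ∈ T, m i = f.degreeOf i), C (f.coeff m) * ∏ i ∈ univ \ T, X i ^ m i

/-- rigidity of the pair `x, y` at `O`: if both have the valuation of `1 / p`, then
`y - κ = ζ (x - κ)` modulo `p`, for a root of unity `ζ` -/
def Rig {K : Type*} [Field K] (κ : ℤ) (p : ℕ) (O : ValuationSubring K) (x y : K) : Prop :=
  x ∉ O → y ∉ O → (p : K) * x ∈ O → (p : K) * x ∉ O.nonunits →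
    (p : K) * y ∈ O → (p : K) * y ∉ O.nonunits →
    ∃ (N : ℕ) (ζ w : K), 0 < N ∧ ζ ^ N = 1 ∧ w ∈ O ∧ (y - κ) - ζ * (x - κ) = p * w

/-- the constant term of the `q`-expansion of `j` -/
def kap : ℤ := 744

/-- no zero of `F` has a pattern compatible with `c` at the valuation rings above `O₀` -/
def Excl {n k : ℕ} (F : Set (MvPolynomial (Fin n) ℂ)) (c : Fin n → Option (Fin k)) : Prop :=
  ∃ (p : ℕ) (O₀ : ValuationSubring ℂ), p.Prime ∧ (p : ℂ) ∈ O₀.nonunits ∧
    ∀ (K : Type) [Field K] [IsAlgClosed K] [Algebra ℂ K] (O : ValuationSubring K),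
    (∀ z ∈ O₀, algebraMap ℂ K z ∈ O) → (∀ z ∈ O₀.nonunits, algebraMap ℂ K z ∈ O.nonunits) →
    ∀ x : Fin n → K, (∀ f ∈ F, aeval x f = 0) →
      (∀ i, c i = none → x i ∈ O) → (∀ i j, c i = c j → (x i ∈ O ↔ x j ∈ O)) →
      (∀ i j, c i = c j → c i ≠ none → Rig kap p O (x i) (x j)) → False

/-- The Zilber–Pink conclusion in its strongest form for the subset `Z` of `Y(1)ⁿ = ℂⁿ` and the
codimension `k`: `Z` meets no special subvariety of dimension less than `k`, and no subvariety of
`ℂⁿ` contained in `Z` of codimension at most `k` has an atypical subvariety. -/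
def NoUnlikely {n : ℕ} (k : ℕ) (Z : Set (Fin n → ℂ)) : Prop :=
  (∀ S : SpecialData n, dim S.carrier < k → Disjoint Z S.carrier) ∧
    ∀ V, IsSubvariety V → V ⊆ Z → n ≤ dim V + k → ∀ A, ¬ IsAtypical V A

/-- the Fermat quotient `(u ^ (p - 1) - 1) / p` -/
def fq (p : ℕ) (u : ℤ) : ℤ := (u ^ (p - 1) - 1) / p

/-- the point `(A, B)` attached to the integers `u` -/
noncomputable def AB {n : ℕ} (p : ℕ) (u : Fin n → ℤ) : Fin n ⊕ Fin n → ℂ :=
  Sum.elim (fun i => ((kap + u i * fq p (u i) : ℤ) : ℂ)) (fun i => ((u i : ℤ) : ℂ))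

end Pool.Agent.Helper20.ZT
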