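import Pool.Agent.Helper20.ZT.RigidE

/-! # Exact rigidity: equal Tate parameters only for equal `j`-invariants

If `x`, `y` satisfy a modular equation, both have the valuation of `1 / p`, and the root of unity
`ζ` with `y - 744 = ζ (x - 744)` modulo `p` is `1`, then `x = y`. -/

open UpperHalfPlane ModularForm Complex Filter Function
open scoped Real MatrixGroups Topology Manifold

namespace Pool.Agent.Helper20.ZT
open Pool.Agent.Helper11.ZP

/-- exact rigidity -/
def RigX {K : Type*} [Field K] (κ : ℤ) (p : ℕ) (O : ValuationSubring K) (x y : K) : Prop :=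
  x ∉ O → y ∉ O → (p : K) * x ∈ O → (p : K) * x ∉ O.nonunits →
    (p : K) * y ∈ O → (p : K) * y ∉ O.nonunits →
    ∃ (N : ℕ) (ζ w : K), 0 < N ∧ ζ ^ N = 1 ∧ w ∈ O ∧ (y - κ) - ζ * (x - κ) = p * w ∧ (ζ = 1 → x = y)

theorem RigX.rig {K : Type*} [Field K] {κ : ℤ} {p : ℕ} {O : ValuationSubring K} {x y : K}
    (h : RigX κ p O x y) : Rig κ p O x y := by
  intro h1 h2 h3 h4 h5 h6
  obtain ⟨N, ζ, w, a, b, c, d, _⟩ := h h1 h2 h3 h4 h5 h6
  exact ⟨N, ζ, w, a, b, c, d⟩

section orb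
variable (m : ℤ) [hm : Fact (0 < m)]

/-- the scalar orbit: exponent `m` and root of unity `1` -/
def IsS (o : Orb m) : Prop := ko m o = m.toNat ∧ zo m o = 1

lemma U_lt (o : Orb m) : 0 ≤ (U m o).1 0 1 ∧ |(U m o).1 0 1| < |(U m o).1 1 1| :=
  ⟨(exists_rep' m o).choose_spec.1.2.2.1, (exists_rep' m o).choose_spec.1.2.2.2⟩

lemma IsS.U_eq {o : Orb m} (h : IsS m o) :
    ∃ a : ℤ, 0 < a ∧ a ^ 2 = m ∧ (U m o).1 = !![a, 0; 0, a] := by
  obtain ⟨h1, h2⟩ := h
  have ha := U00 m o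
  have hd := d_pos (U m o) (U10 m o) (U00 m o)
  have had := ad_eq (U m o) (U10 m o)
  have hm0 := hm.out
  have e1 : (U m o).1 0 0 ^ 2 = m := by
    have h3 : ((((U m o).1 0 0).toNat ^ 2 : ℕ) : ℤ) = ((m.toNat : ℕ) : ℤ) := by
      exact_mod_cast congrArg (fun z : ℕ => (z : ℤ)) h1
    push_cast at h3
    rwa [Int.toNat_of_nonneg ha.le, Int.toNat_of_nonneg hm0.le] at h3
  have e2 : (U m o).1 1 1 = (U m o).1 0 0 := by
    have h4 : (U m o).1 0 0 * (U m o).1 1 1 = (U m o).1 0 0 * (U m o).1 0 0 :=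
      had.trans (e1.symm.trans (pow_two _))
    exact mul_left_cancel₀ ha.ne' h4
  have hz : zt (U m o) = 1 := by
    have := congrArg (fun z : OO => (z : ℂ)) h2
    exact this
  have e3 : (U m o).1 0 1 = 0 := by
    rw [zt, Complex.exp_eq_one_iff] at hz
    obtain ⟨k, hk⟩ := hz
    have hd0 : (((U m o).1 1 1 : ℤ) : ℂ) ≠ 0 := by exact_mod_cast hd.ne'
    have hpi : (2 * (π : ℂ) * Complex.I) ≠ 0 := Complex.two_pi_I_ne_zero
    have h3 : (((U m o).1 0 1 : ℤ) : ℂ) = k * (((U m o).1 1 1 : ℤ) : ℂ) := by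
      apply mul_left_cancel₀ hpi
      rw [div_eq_iff hd0] at hk
      linear_combination hk
    have h4 : (U m o).1 0 1 = k * (U m o).1 1 1 := by exact_mod_cast h3
    obtain ⟨h5, h6⟩ := U_lt m o
    rw [h4, abs_mul] at h6
    have h7 : |k| < 1 := by
      by_contra hcon
      push Not at hcon
      have : |(U m o).1 1 1| ≤ |k| * |(U m o).1 1 1| := le_mul_of_one_le_left (abs_nonneg _) hcon
      omega
    have h8 : k = 0 := Int.abs_lt_one_iff.1 h7
    rw [h4, h8, zero_mul]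
  refine ⟨(U m o).1 0 0, ha, e1, ?_⟩
  ext i j
  fin_cases i <;> fin_cases j
  · rfl
  · exact e3
  · exact U10 m o
  · exact e2

lemma IsS.unique {o₁ o₂ : Orb m} (h₁ : IsS m o₁) (h₂ : IsS m o₂) : o₁ = o₂ := by
  obtain ⟨a, ha, ha2, h1⟩ := h₁.U_eq
  obtain ⟨b, hb, hb2, h2⟩ := h₂.U_eq
  have hab : a = b := by
    have : a ^ 2 = b ^ 2 := ha2.trans hb2.symm
    exact (pow_left_inj₀ ha.le hb.le two_ne_zero).1 this
  have hU : U m o₁ = U m o₂ := by
    apply FixedDetMatrices.ext'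
    rw [h1, h2, hab]
  rw [← mkO_U m o₁, ← mkO_U m o₂, hU]

/-- if the scalar orbit exists, the modular polynomial vanishes on the diagonal -/
lemma IsS.RD_eq {o : Orb m} (h : IsS m o) : RD m = 0 := by
  obtain ⟨a, ha, ha2, h1⟩ := h.U_eq
  have hfix : ∀ τ : ℍ, toGL hm.out (U m o) • τ = τ := by
    intro τ
    apply toGL_smul_eq
    rw [h1]
    simp [mul_comm]
  have h0 : ∀ τ : ℍ, (RD m).eval₂ (algebraMap OO ℂ) (jInv τ) = 0 := by
    intro τ
    have h2 := KK_zero m (hfix τ)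
    rw [KK_eq] at h2
    exact (mul_eq_zero.1 h2).resolve_left (pow_ne_zero _ (discriminant_ne_zero τ))
  have h3 : (RD m).map (algebraMap OO ℂ) = 0 := by
    apply Polynomial.funext
    intro x
    obtain ⟨τ, rfl⟩ := jInv_surjective x
    rw [Polynomial.eval_map, h0, Polynomial.eval_zero]
  exact (Polynomial.map_eq_zero_iff (FaithfulSMul.algebraMap_injective _ _)).1 h3

end orb

section core
variable {K : Type*} [Field K] [Algebra ℂ K] (O : ValuationSubring K)

/-- the product over the orbits, in terms of the error polynomials -/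
lemma prod_eq (m : ℤ) [Fact (0 < m)] (M : ℕ) (t : K) (G : ℕ → Polynomial OO)
    (hG : ∀ i, (LH m M).coeff i - (RH m M).coeff i = Polynomial.X ^ M * G i) {w : K} (hw0 : w ≠ 0)
    (hL : (LH m M).eval₂ (Polynomial.eval₂RingHom (ph K) t) w⁻¹ = 0) :
    ∏ o : Orb m, ((tr dS qexp_disc_mem 1 1 M).eval₂ (ph K) (ph K (zo m o) * t ^ ko m o) -
        (tr eS qexp_Ecube_mem 1 1 M).eval₂ (ph K) (ph K (zo m o) * t ^ ko m o) * w)
      = - (t ^ M * ∑ i ∈ Finset.range (ss m + 1), (G i).eval₂ (ph K) t * w ^ (ss m - i)) := by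
  have h1 := RH_eval (K := K) m M t w⁻¹
  have h2 : ∏ o : Orb m, ((tr dS qexp_disc_mem 1 1 M).eval₂ (ph K) (ph K (zo m o) * t ^ ko m o) -
        (tr eS qexp_Ecube_mem 1 1 M).eval₂ (ph K) (ph K (zo m o) * t ^ ko m o) * w)
      = w ^ ss m * (RH m M).eval₂ (Polynomial.eval₂RingHom (ph K) t) w⁻¹ := by
    have hcard : w ^ ss m = ∏ _o : Orb m, w := by rw [Finset.prod_const, Finset.card_univ]
    rw [h1, hcard, ← Finset.prod_mul_distrib]
    refine Finset.prod_congr rfl fun o _ => ?_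
    field_simp
  have h3 : (RH m M).eval₂ (Polynomial.eval₂RingHom (ph K) t) w⁻¹
      = - (t ^ M * ∑ i ∈ Finset.range (ss m + 1), (G i).eval₂ (ph K) t * w⁻¹ ^ i) := by
    rw [Polynomial.eval₂_eq_sum_range' _ (Nat.lt_succ_of_le (LH_natDegree m M))] at hL
    rw [Polynomial.eval₂_eq_sum_range' _ (Nat.lt_succ_of_le (RH_natDegree m M)), eq_neg_iff_add_eq_zero,
      Finset.mul_sum, ← Finset.sum_add_distrib, ← hL]
    refine Finset.sum_congr rfl fun i _ => ?_
    have h4 := congrArg (Polynomial.eval₂RingHom (ph K) t) (hG i)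
    rw [map_sub, map_mul, map_pow] at h4
    simp only [Polynomial.coe_eval₂RingHom, Polynomial.eval₂_X] at h4 ⊢
    linear_combination (- w⁻¹ ^ i) * h4
  rw [h2, h3, mul_neg, mul_left_comm, Finset.mul_sum]
  congr 2
  refine Finset.sum_congr rfl fun i hi => ?_
  rw [Finset.mem_range] at hi
  have h5 : w ^ ss m = w ^ (ss m - i) * w ^ i := by rw [← pow_add]; congr 1; omega
  rw [h5, inv_pow]
  field_simp

open Classical in
/-- the product over the other orbits is small -/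
lemma small_prodX (m : ℤ) [Fact (0 < m)] (M : ℕ) {t w s : K} (ht : t ∈ O) (hw : w ∈ O) (hw0 : w ≠ 0)
    (hs : s ∈ O) (hs0 : s ≠ 0) (hne : w ≠ s)
    (hL : (LH m M).eval₂ (Polynomial.eval₂RingHom (ph K) t) w⁻¹ = 0)
    (hLs : (LH m M).eval₂ (Polynomial.eval₂RingHom (ph K) t) s⁻¹ = 0)
    (o : Orb m)
    (ho : (tr dS qexp_disc_mem 1 1 M).eval₂ (ph K) (ph K (zo m o) * t ^ ko m o) =
      s * (tr eS qexp_Ecube_mem 1 1 M).eval₂ (ph K) (ph K (zo m o) * t ^ ko m o))
    (hE : O.valuation ((tr eS qexp_Ecube_mem 1 1 M).eval₂ (ph K) (ph K (zo m o) * t ^ ko m o)) = 1) :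
    O.valuation (∏ o' ∈ Finset.univ.erase o,
        ((tr dS qexp_disc_mem 1 1 M).eval₂ (ph K) (ph K (zo m o') * t ^ ko m o') -
        (tr eS qexp_Ecube_mem 1 1 M).eval₂ (ph K) (ph K (zo m o') * t ^ ko m o') * w))
      ≤ O.valuation t ^ M := by
  have hG : ∀ i, ∃ G : Polynomial OO, (LH m M).coeff i - (RH m M).coeff i = Polynomial.X ^ M * G := fun i =>
    dvd_diff m M i
  choose G hG using hG
  have e1 := prod_eq m M t G hG hw0 hL
  have e2 := prod_eq m M t G hG hs0 hLs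
  have e3 : ∏ o' : Orb m, ((tr dS qexp_disc_mem 1 1 M).eval₂ (ph K) (ph K (zo m o') * t ^ ko m o') -
        (tr eS qexp_Ecube_mem 1 1 M).eval₂ (ph K) (ph K (zo m o') * t ^ ko m o') * s) = 0 := by
    refine Finset.prod_eq_zero (Finset.mem_univ o) ?_
    rw [ho]; ring
  rw [e3] at e2
  have e4 : ∀ i : ℕ, w ^ (ss m - i) - s ^ (ss m - i) =
      (w - s) * ∑ j ∈ Finset.range (ss m - i), w ^ j * s ^ (ss m - i - 1 - j) := by
    intro i
    rw [mul_comm]
    exact (Commute.geom_sum₂_mul (Commute.all w s) _).symm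
  set g := ∑ i ∈ Finset.range (ss m + 1), (G i).eval₂ (ph K) t *
    ∑ j ∈ Finset.range (ss m - i), w ^ j * s ^ (ss m - i - 1 - j) with hg
  have hgO : g ∈ O := by
    refine O.toSubring.sum_mem fun i _ => O.toSubring.mul_mem (eval_mem O _ ht) ?_
    exact O.toSubring.sum_mem fun j _ => O.toSubring.mul_mem (O.toSubring.pow_mem hw _)
      (O.toSubring.pow_mem hs _)
  have e5 : ∏ o' : Orb m, ((tr dS qexp_disc_mem 1 1 M).eval₂ (ph K) (ph K (zo m o') * t ^ ko m o') -
        (tr eS qexp_Ecube_mem 1 1 M).eval₂ (ph K) (ph K (zo m o') * t ^ ko m o') * w) =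
      - (t ^ M * ((w - s) * g)) := by
    have h1 : (w - s) * g = ∑ i ∈ Finset.range (ss m + 1), (G i).eval₂ (ph K) t * w ^ (ss m - i) -
        ∑ i ∈ Finset.range (ss m + 1), (G i).eval₂ (ph K) t * s ^ (ss m - i) := by
      rw [hg, Finset.mul_sum, ← Finset.sum_sub_distrib]
      refine Finset.sum_congr rfl fun i _ => ?_
      rw [← mul_sub, e4 i]; ring
    rw [h1, e1]
    linear_combination (-1 : K) * e2
  rw [← Finset.mul_prod_erase _ _ (Finset.mem_univ o), ho] at e5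
  set E := (tr eS qexp_Ecube_mem 1 1 M).eval₂ (ph K) (ph K (zo m o) * t ^ ko m o) with hEd
  have hws : w - s ≠ 0 := sub_ne_zero.2 hne
  have e6 : E * ∏ o' ∈ Finset.univ.erase o,
        ((tr dS qexp_disc_mem 1 1 M).eval₂ (ph K) (ph K (zo m o') * t ^ ko m o') -
        (tr eS qexp_Ecube_mem 1 1 M).eval₂ (ph K) (ph K (zo m o') * t ^ ko m o') * w) = t ^ M * g := by
    apply mul_left_cancel₀ hws
    linear_combination (-1 : K) * e5
  have e7 := congrArg O.valuation e6
  rw [map_mul, hE, one_mul, map_mul, map_pow] at e7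
  rw [e7]
  calc _ ≤ O.valuation t ^ M * 1 := mul_le_mul_right ((val_mem O).1 hgO) _
    _ = _ := mul_one _

end core

section core2
variable {K : Type*} [Field K] [Algebra ℂ K] (O : ValuationSubring K)

open Classical in
/-- **exact rigidity** -/
theorem rig_coreX (m : ℤ) [hm : Fact (0 < m)] [IsAlgClosed K] {p : ℕ} (hp : (p : K) ∈ O.nonunits)
    (hp0 : (p : K) ≠ 0) {x y : K}
    (hrel : ∑ i ∈ Finset.range (ss m + 1), (pp m i).eval₂ (ph K) x * y ^ i = 0) :
    RigX kap p O x y := by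
  intro hx hy hpx hpx' hpy hpy'
  rcases eq_or_ne x y with hxy | hxy
  · exact ⟨1, 1, 0, one_pos, one_pow _, zero_mem O, by rw [hxy]; ring, fun _ => hxy⟩
  have hx0 : x ≠ 0 := by rintro rfl; exact hx (zero_mem O)
  have hy0 : y ≠ 0 := by rintro rfl; exact hy (zero_mem O)
  have vpx : O.valuation (p * x) = 1 := le_antisymm ((val_mem O).1 hpx) (not_lt.1 fun h => hpx' ((val_non O).2 h))
  have vpy : O.valuation (p * y) = 1 := le_antisymm ((val_mem O).1 hpy) (not_lt.1 fun h => hpy' ((val_non O).2 h))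
  have vp := (val_non O).1 hp
  set s := x⁻¹ with hs
  set w := y⁻¹ with hw
  have hs0 : s ≠ 0 := inv_ne_zero hx0
  have hw0 : w ≠ 0 := inv_ne_zero hy0
  have vs : O.valuation s = O.valuation (p : K) := by
    have : (p : K) = (p * x) * s := by rw [hs]; field_simp
    rw [this, map_mul, vpx, one_mul]
  have vw : O.valuation w = O.valuation (p : K) := by
    have : (p : K) = (p * y) * w := by rw [hw]; field_simp
    rw [this, map_mul, vpy, one_mul]
  have hm' := mtoNat_pos m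
  set n := m.toNat with hn
  set L := n ^ 2 + 3 * n with hL
  obtain ⟨q, hq, hqe⟩ := exists_param O (ss m * L) ((val_non O).2 (by rwa [vs])) hs0
  have vq1 := (val_non O).1 hq
  have hqO : q ∈ O := (val_mem O).2 vq1.le
  obtain ⟨e, he, hE⟩ := tr_E O (ss m * L) hqO
  obtain ⟨d, hd, hD⟩ := tr_D O (ss m * L) hqO
  have m24 : (24 : K) ∈ O := by exact_mod_cast mem_ofNat O 24
  have m720 : (720 : K) ∈ O := by exact_mod_cast mem_ofNat O 720
  have m744 : (744 : K) ∈ O := by exact_mod_cast mem_ofNat O 744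
  -- units
  have uE : ∀ r e : K, O.valuation r < 1 → e ∈ O → O.valuation (1 + 720 * r + r ^ 2 * e) = 1 := by
    intro r e hr he
    have hrO : r ∈ O := (val_mem O).2 hr.le
    rw [show 1 + 720 * r + r ^ 2 * e = 1 + r * (720 + r * e) by ring]
    exact unit_of_sub O (lt_one_mul O hr (mem_add O m720 (mem_mul O hrO he)))
  have uD : ∀ r e : K, O.valuation r < 1 → e ∈ O → O.valuation (1 - 24 * r + r ^ 2 * e) = 1 := by
    intro r e hr he
    have hrO : r ∈ O := (val_mem O).2 hr.le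
    rw [show 1 - 24 * r + r ^ 2 * e = 1 + r * (r * e - 24) by ring]
    exact unit_of_sub O (lt_one_mul O hr (mem_sub O (mem_mul O hrO he) m24))
  have vE := uE q e vq1 he
  have vD := uD q d vq1 hd
  rw [hE, hD] at hqe
  have vq : O.valuation q = O.valuation (p : K) := by
    have h1 : q * (1 - 24 * q + q ^ 2 * d) = s * (1 + 720 * q + q ^ 2 * e) := by rw [← hqe]; ring
    have h2 := congrArg O.valuation h1
    rwa [val_mul_unit O vD, val_mul_unit O vE, vs] at h2
  have vp0 : O.valuation (p : K) ≠ 0 := by rwa [ne_eq, Valuation.zero_iff]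
  have hq0 : q ≠ 0 := by
    intro h
    rw [h, map_zero] at vq
    exact vp0 vq.symm
  obtain ⟨t, ht⟩ := IsAlgClosed.exists_pow_nat_eq q hm'
  have ht0 : t ≠ 0 := by
    rintro rfl
    rw [zero_pow hm'.ne'] at ht
    exact hq0 ht.symm
  have vt1 : O.valuation t < 1 := by
    by_contra hcon
    push Not at hcon
    have h1 : 1 ≤ O.valuation t ^ n := one_le_pow₀ hcon
    rw [← map_pow, ht] at h1
    exact absurd vq1 (not_lt.2 h1)
  have vt0 : 0 < O.valuation t := zero_lt_iff.2 (by rwa [ne_eq, Valuation.zero_iff])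
  have htO : t ∈ O := (val_mem O).2 vt1.le
  have hwO : w ∈ O := (val_mem O).2 (by rw [vw]; exact vp.le)
  -- the product
  have hLz : (LH m (ss m * L + 3)).eval₂ (Polynomial.eval₂RingHom (ph K) t) w⁻¹ = 0 := by
    apply LH_zero m (ss m * L + 3) (x := x)
    · rw [ht, hE, hD, hqe, hs]
      field_simp
    · rw [hw, inv_inv]; exact hrel
  have hwO' : w ≠ s := by
    rw [hw, hs]
    intro h
    exact hxy (inv_injective h).symm
  have hmono : ∀ {a b : ℕ}, a ≤ b → O.valuation t ^ b ≤ O.valuation t ^ a := fun h =>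
    pow_le_pow_right_of_le_one' vt1.le h
  have hex : ∃ o : Orb m, ¬ IsS m o ∧ O.valuation ((tr dS qexp_disc_mem 1 1 (ss m * L + 3)).eval₂ (ph K)
      (ph K (zo m o) * t ^ ko m o) - (tr eS qexp_Ecube_mem 1 1 (ss m * L + 3)).eval₂ (ph K)
      (ph K (zo m o) * t ^ ko m o) * w) ≤ O.valuation t ^ L := by
    by_cases hS : ∃ o : Orb m, IsS m o
    · obtain ⟨o, hoS⟩ := hS
      have ert : ph K (zo m o) * t ^ ko m o = q := by
        rw [hoS.1, hoS.2, map_one, one_mul, ← hn, ht]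
      have hrelx : ∑ i ∈ Finset.range (ss m + 1), (pp m i).eval₂ (ph K) x * x ^ i = 0 := by
        have h1 := congrArg (fun f => Polynomial.eval₂ (ph K) x f) hoS.RD_eq
        simp only [RD, Polynomial.eval₂_zero] at h1
        rw [Polynomial.eval₂_finsetSum] at h1
        rw [← h1]
        refine Finset.sum_congr rfl fun i _ => ?_
        rw [Polynomial.eval₂_mul, Polynomial.eval₂_X_pow]
      have hLs : (LH m (ss m * L + 3)).eval₂ (Polynomial.eval₂RingHom (ph K) t) s⁻¹ = 0 := by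
        apply LH_zero m (ss m * L + 3) (x := x)
        · rw [ht, hE, hD, hqe, hs]
          field_simp
        · rw [hs, inv_inv]; exact hrelx
      have hsO : s ∈ O := (val_mem O).2 (by rw [vs]; exact vp.le)
      have hsm := small_prodX O m (ss m * L + 3) htO hwO hw0 hsO hs0 hwO' hLz hLs o
        (by rw [ert, hE, hD]; exact hqe) (by rw [ert, hE]; exact vE)
      by_contra hcon
      push Not at hcon
      rcases (Finset.univ.erase o).eq_empty_or_nonempty with hem | hne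
      · rw [hem, Finset.prod_empty, map_one] at hsm
        exact absurd (pow_lt_one₀ zero_le vt1 (by omega : ss m * L + 3 ≠ 0)) (not_lt.2 hsm)
      · have h1 := val_prod (Finset.univ.erase o) _ (pow_pos vt0 L) hne
          (fun o' ho' => hcon o' fun h => (Finset.mem_erase.1 ho').1 (h.unique m hoS))
        rw [← map_prod, ← pow_mul] at h1
        refine absurd (hsm.trans (hmono ?_)) (not_le.2 h1)
        have h2 : (Finset.univ.erase o).card ≤ ss m :=
          (Finset.card_le_card (Finset.erase_subset _ _)).trans (le_of_eq Finset.card_univ)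
        calc L * (Finset.univ.erase o).card ≤ L * ss m := Nat.mul_le_mul_left _ h2
          _ = ss m * L := mul_comm _ _
          _ ≤ ss m * L + 3 := Nat.le_add_right _ _
    · push Not at hS
      have hsm := small_prod O m (ss m * L + 3) htO hwO hw0 hLz
      by_contra hcon
      push Not at hcon
      have hne : (Finset.univ : Finset (Orb m)).Nonempty :=
        ⟨mkO ⟨!![m, 0; 0, 1], by simp [Matrix.det_fin_two]⟩, Finset.mem_univ _⟩
      have h1 := val_prod Finset.univ _ (pow_pos vt0 L) hne (fun o _ => hcon o (hS o))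
      rw [← map_prod, ← pow_mul, Finset.card_univ, mul_comm] at h1
      exact absurd (hsm.trans (hmono (Nat.le_add_right _ _))) (not_le.2 h1)
  obtain ⟨o, hoS, ho⟩ := hex
  set z := ph K (zo m o) with hz
  set k := ko m o with hk
  set r := z * t ^ k with hr
  have hkpos : 0 < k := ko_pos m o
  obtain ⟨N, hN, hzN⟩ := zo_pow m o
  have hzN' : z ^ N = 1 := by rw [hz, ← map_pow, hzN, map_one]
  have vz : O.valuation z = 1 := val_root_one O hN hzN'
  have hz0 : z ≠ 0 := by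
    intro h
    rw [h, map_zero] at vz
    exact zero_ne_one vz
  have hzO : z ∈ O := (val_mem O).2 vz.le
  have vr : O.valuation r = O.valuation t ^ k := by rw [hr, map_mul, vz, one_mul, map_pow]
  have vr1 : O.valuation r < 1 := by rw [vr]; exact pow_lt_one₀ zero_le vt1 hkpos.ne'
  have hrO : r ∈ O := (val_mem O).2 vr1.le
  obtain ⟨e', he', hE'⟩ := tr_E O (ss m * L) hrO
  obtain ⟨d', hd', hD'⟩ := tr_D O (ss m * L) hrO
  have vE' := uE r e' vr1 he'
  have vD' := uD r d' vr1 hd'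
  rw [hE', hD'] at ho
  set ε := (r - 24 * r ^ 2 + r ^ 3 * d') - (1 + 720 * r + r ^ 2 * e') * w with hε
  have hkL : k < L := by
    have h1 := ko_le m o
    rw [← hn, ← hk] at h1
    rw [hL]; omega
  have hlt : O.valuation ε < O.valuation r := by
    rw [vr]
    refine lt_of_le_of_lt ho ?_
    exact pow_lt_pow_right_of_lt_one₀ vt0 vt1 hkL
  have vDr : O.valuation (r - 24 * r ^ 2 + r ^ 3 * d') = O.valuation r := by
    rw [show r - 24 * r ^ 2 + r ^ 3 * d' = r * (1 - 24 * r + r ^ 2 * d') by ring, val_mul_unit O vD']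
  have vw2 : O.valuation w = O.valuation r := by
    have h1 : w * (1 + 720 * r + r ^ 2 * e') = (r - 24 * r ^ 2 + r ^ 3 * d') + (-ε) := by rw [hε]; ring
    have h2 := congrArg O.valuation h1
    rwa [val_mul_unit O vE', val_add_of_lt O (by rwa [Valuation.map_neg, vDr]), vDr] at h2
  have hkn : k = n := by
    have h1 : O.valuation t ^ k = O.valuation t ^ n := by
      rw [← vr, ← vw2, vw, ← vq, ← ht, map_pow]
    by_contra hne
    rcases lt_or_gt_of_ne hne with h | h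
    · exact absurd h1 (ne_of_gt (pow_lt_pow_right_of_lt_one₀ vt0 vt1 h))
    · exact absurd h1 (ne_of_lt (pow_lt_pow_right_of_lt_one₀ vt0 vt1 h))
  have hrq : r = z * q := by rw [hr, hkn, ht]
  -- the error
  have hεO : ε / q ^ 3 ∈ O := by
    rw [val_mem, map_div₀, map_pow]
    have h1 : O.valuation q ^ 3 = O.valuation t ^ (3 * n) := by rw [← ht, map_pow, ← pow_mul, mul_comm]
    rw [h1]
    have h2 : O.valuation ε ≤ O.valuation t ^ (3 * n) := ho.trans (hmono (by rw [hL]; omega))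
    exact div_le_one_of_le₀ h2 zero_le
  set β := ε / q ^ 3 with hβ
  have hεβ : ε = q ^ 3 * β := by rw [hβ]; field_simp
  have hdiv : ∀ a b : K, a ∈ O → O.valuation b = 1 → a / b ∈ O := by
    intro a b ha hb
    rw [val_mem, map_div₀, hb, div_one]
    exact (val_mem O).1 ha
  -- x
  have hDne : (1 - 24 * q + q ^ 2 * d) ≠ 0 := by
    intro h; rw [h, map_zero] at vD; exact zero_ne_one vD
  have hEne : (1 + 720 * q + q ^ 2 * e) ≠ 0 := by
    intro h; rw [h, map_zero] at vE; exact zero_ne_one vE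
  have hxq : x * (q * (1 - 24 * q + q ^ 2 * d)) = 1 + 720 * q + q ^ 2 * e := by
    rw [show q * (1 - 24 * q + q ^ 2 * d) = q - 24 * q ^ 2 + q ^ 3 * d by ring, hqe, hs]
    field_simp
  set α := (e - d + 744 * 24 - 744 * q * d) / (1 - 24 * q + q ^ 2 * d) with hα
  have hαO : α ∈ O := hdiv _ _ (mem_sub O (mem_add O (mem_sub O he hd) (mem_mul O m744 m24))
    (mem_mul O (mem_mul O m744 hqO) hd)) vD
  have hx1 : x - 744 = 1 / q + q * α := by
    have hne : q * (1 - 24 * q + q ^ 2 * d) ≠ 0 := mul_ne_zero hq0 hDne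
    have hαD : α * (1 - 24 * q + q ^ 2 * d) = e - d + 744 * 24 - 744 * q * d := div_mul_cancel₀ _ hDne
    have hq1 : 1 / q * q = 1 := div_mul_cancel₀ _ hq0
    apply mul_right_cancel₀ hne
    rw [sub_mul, hxq]
    linear_combination (-(1 - 24 * q + q ^ 2 * d)) * hq1 - q ^ 2 * hαD
  -- y
  have vDz : O.valuation (z * (1 - 24 * r + r ^ 2 * d') - q ^ 2 * β) = 1 := by
    have h1 : O.valuation (z * (1 - 24 * r + r ^ 2 * d')) = 1 := by rw [val_mul_unit O vD', vz]
    rw [sub_eq_add_neg, val_add_of_lt O, h1]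
    rw [h1, Valuation.map_neg]
    rw [show q ^ 2 * β = q * (q * β) by ring]
    exact lt_one_mul O vq1 (mem_mul O hqO hεO)
  have hDzne : (z * (1 - 24 * r + r ^ 2 * d') - q ^ 2 * β) ≠ 0 := by
    intro h; rw [h, map_zero] at vDz; exact zero_ne_one vDz
  have hyq : y * (q * (z * (1 - 24 * r + r ^ 2 * d') - q ^ 2 * β)) = 1 + 720 * r + r ^ 2 * e' := by
    have h1 : (1 + 720 * r + r ^ 2 * e') * w = q * (z * (1 - 24 * r + r ^ 2 * d') - q ^ 2 * β) := by
      have h2 : (1 + 720 * r + r ^ 2 * e') * w = (r - 24 * r ^ 2 + r ^ 3 * d') - q ^ 3 * β := by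
        rw [← hεβ, hε]; ring
      rw [h2]
      linear_combination (1 - 24 * r + r ^ 2 * d') * hrq
    rw [← h1, hw]
    field_simp
  set γ := (z ^ 3 * (e' - d' + 744 * 24 - 744 * r * d') + (1 + 744 * r) * β) /
    (z * (z * (1 - 24 * r + r ^ 2 * d') - q ^ 2 * β)) with hγ
  have hγO : γ ∈ O := by
    refine hdiv _ _ (mem_add O (mem_mul O (mem_pow O hzO _) (mem_sub O (mem_add O (mem_sub O he' hd')
      (mem_mul O m744 m24)) (mem_mul O (mem_mul O m744 hrO) hd'))) (mem_mul O (mem_add O (one_mem O)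
      (mem_mul O m744 hrO)) hεO)) ?_
    rw [map_mul, vz, vDz, one_mul]
  have hy1 : y - 744 = 1 / (z * q) + q * γ := by
    have hne : z * (q * (z * (1 - 24 * r + r ^ 2 * d') - q ^ 2 * β)) ≠ 0 :=
      mul_ne_zero hz0 (mul_ne_zero hq0 hDzne)
    have hγD : γ * (z * (z * (1 - 24 * r + r ^ 2 * d') - q ^ 2 * β)) =
        z ^ 3 * (e' - d' + 744 * 24 - 744 * r * d') + (1 + 744 * r) * β :=
      div_mul_cancel₀ _ (mul_ne_zero hz0 hDzne)
    have hq1 : 1 / (z * q) * (z * q) = 1 := div_mul_cancel₀ _ (mul_ne_zero hz0 hq0)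
    apply mul_right_cancel₀ hne
    linear_combination z * hyq - (z * (1 - 24 * r + r ^ 2 * d') - q ^ 2 * β) * hq1 - q ^ 2 * hγD +
      (744 * (z * (1 - 24 * r + r ^ 2 * d') - q ^ 2 * β) +
        z * (r + z * q) * (e' - d' + 744 * 24 - 744 * r * d')) * hrq
  refine ⟨N, z⁻¹, (γ - z⁻¹ * α) * (q / p), hN, by rw [inv_pow, hzN', inv_one], ?_, ?_, ?_⟩
  · refine mem_mul O (mem_sub O hγO (mem_mul O ?_ hαO)) ?_
    · rw [val_mem, map_inv₀, vz, inv_one]
    · rw [val_mem, map_div₀, vq, div_self vp0]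
  · have h744 : ((kap : ℤ) : K) = 744 := by unfold kap; norm_num
    rw [h744, hx1, hy1]
    field_simp
    ring
  · intro h1
    exfalso
    apply hoS
    refine ⟨by rw [← hk, hkn, hn], ?_⟩
    have h2 : z = 1 := inv_eq_one.1 h1
    have h3 : algebraMap ℂ K ((zo m o : OO) : ℂ) = algebraMap ℂ K 1 := by
      rw [map_one]; exact h2
    exact Subtype.ext ((algebraMap ℂ K).injective h3)

end core2

/-- the modular equation, with exact rigidity -/
theorem exists_modular_equation_rigX {m : ℤ} (hm : 0 < m) :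
    ∃ P : Polynomial (Polynomial OO), P.Monic ∧
      (∀ (A : DM m) (τ : ℍ), P.eval₂ (evO (jInv τ)) (jInv (toGL hm A • τ)) = 0) ∧
      ∀ (K : Type) [Field K] [IsAlgClosed K] [Algebra ℂ K] (O : ValuationSubring K) (p : ℕ),
        p ≠ 0 → (p : K) ∈ O.nonunits → ∀ x y : K,
        P.eval₂ (Polynomial.eval₂RingHom ((algebraMap ℂ K).comp (algebraMap OO ℂ)) x) y = 0 →
        RigX kap p O x y := by
  have : Fact (0 < m) := ⟨hm⟩
  obtain ⟨c, ⟨hc, hc', hc0⟩, hg⟩ := pp_top_unit m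
  have htop : pp m (ss m) = Polynomial.C (⟨c, hc⟩ : OO) := by
    obtain ⟨c₁, hc₁⟩ := pp_top m
    rw [hc₁]
    congr 1
    apply Subtype.ext
    have h1 := pp_eval m (ss m) UpperHalfPlane.I
    rw [hg, hc₁, Polynomial.eval₂_C] at h1
    exact (mul_left_cancel₀ (pow_ne_zero _ (discriminant_ne_zero _)) h1).symm
  let Q : Polynomial (Polynomial OO) :=
    ∑ i ∈ Finset.range (ss m), Polynomial.C (Polynomial.C (⟨c⁻¹, hc'⟩ : OO) * pp m i) * Polynomial.X ^ i
  have hQ : Q.degree < (ss m : ℕ) := by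
    refine (Polynomial.degree_sum_le _ _).trans_lt ?_
    rw [Finset.sup_lt_iff (WithBot.bot_lt_coe _)]
    intro i hi
    refine (Polynomial.degree_C_mul_X_pow_le _ _).trans_lt ?_
    exact_mod_cast Finset.mem_range.1 hi
  refine ⟨Polynomial.X ^ (ss m) + Q, Polynomial.monic_X_pow_add hQ, fun A τ => ?_, ?_⟩
  · have h := sum_root m A τ
    rw [Finset.sum_range_succ, hg] at h
    rw [Polynomial.eval₂_add, Polynomial.eval₂_X_pow, Polynomial.eval₂_finsetSum]
    have h1 : ∀ i ∈ Finset.range (ss m),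
        (Polynomial.C (Polynomial.C (⟨c⁻¹, hc'⟩ : OO) * pp m i) * Polynomial.X ^ i).eval₂
          (evO (jInv τ)) (jInv (toGL hm A • τ))
        = (c * ModularForm.discriminant τ ^ (ss m))⁻¹ * (g m i τ * jInv (toGL hm A • τ) ^ i) := by
      intro i _
      rw [Polynomial.eval₂_mul, Polynomial.eval₂_C, Polynomial.eval₂_X_pow, map_mul, pp_eval]
      have h2 : evO (jInv τ) (Polynomial.C (⟨c⁻¹, hc'⟩ : OO)) = c⁻¹ := by
        rw [evO, Polynomial.coe_eval₂RingHom, Polynomial.eval₂_C]; rfl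
      have h3 : evO (jInv τ) (pp m i) = (pp m i).eval₂ (algebraMap OO ℂ) (jInv τ) := rfl
      rw [h2, h3]
      have hD := pow_ne_zero (ss m) (discriminant_ne_zero τ)
      field_simp
    rw [Finset.sum_congr rfl h1, ← Finset.mul_sum]
    have hD := pow_ne_zero (ss m) (discriminant_ne_zero τ)
    have h4 : ∑ i ∈ Finset.range (ss m), g m i τ * jInv (toGL hm A • τ) ^ i =
        -(ModularForm.discriminant τ ^ (ss m) * c * jInv (toGL hm A • τ) ^ (ss m)) := by
      linear_combination h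
    rw [h4]
    field_simp
    ring
  · intro K _ _ _ O p hp hpO x y h
    have hchar : CharZero K := charZero_of_injective_algebraMap (algebraMap ℂ K).injective
    refine rig_coreX O m hpO (by exact_mod_cast hp) ?_
    have hcK : ph K (⟨c⁻¹, hc'⟩ : OO) ≠ 0 := by
      change algebraMap ℂ K c⁻¹ ≠ 0
      rw [ne_eq, map_eq_zero]
      exact inv_ne_zero hc0
    apply mul_left_cancel₀ hcK
    rw [mul_zero, ← h, Polynomial.eval₂_add, Polynomial.eval₂_X_pow, Polynomial.eval₂_finsetSum,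
      Finset.sum_range_succ, htop, Polynomial.eval₂_C, mul_add, Finset.mul_sum]
    have h1 : ph K (⟨c⁻¹, hc'⟩ : OO) * (ph K (⟨c, hc⟩ : OO) * y ^ ss m) = y ^ ss m := by
      have h2 : ph K (⟨c⁻¹, hc'⟩ : OO) * ph K (⟨c, hc⟩ : OO) = 1 := by
        change algebraMap ℂ K c⁻¹ * algebraMap ℂ K c = 1
        rw [← map_mul, inv_mul_cancel₀ hc0, map_one]
      rw [← mul_assoc, h2, one_mul]
    rw [h1, add_comm]
    congr 1
    refine Finset.sum_congr rfl fun i _ => ?_
    rw [Polynomial.eval₂_mul, Polynomial.eval₂_C, Polynomial.eval₂_X_pow, map_mul,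
      Polynomial.coe_eval₂RingHom, Polynomial.eval₂_C]
    ring

/-- Two points `j(g₁τ)`, `j(g₂τ)` satisfy a monic integral equation depending only on the
matrices, which is exactly rigid. -/
theorem exists_relation_rigX (g₁ g₂ : Matrix (Fin 2) (Fin 2) ℤ) (h₁ : 0 < g₁.det) (h₂ : 0 < g₂.det) :
    ∃ P : Polynomial (Polynomial OO), P.Monic ∧
      (∀ τ τ₁ τ₂ : ℍ, (τ₁ : ℂ) * (g₁ 1 0 * (τ : ℂ) + g₁ 1 1) = g₁ 0 0 * (τ : ℂ) + g₁ 0 1 →
        (τ₂ : ℂ) * (g₂ 1 0 * (τ : ℂ) + g₂ 1 1) = g₂ 0 0 * (τ : ℂ) + g₂ 0 1 →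
        P.eval₂ (evO (jInv τ₂)) (jInv τ₁) = 0) ∧
      ∀ (K : Type) [Field K] [IsAlgClosed K] [Algebra ℂ K] (O : ValuationSubring K) (p : ℕ),
        p ≠ 0 → (p : K) ∈ O.nonunits → ∀ x y : K,
        P.eval₂ (Polynomial.eval₂RingHom ((algebraMap ℂ K).comp (algebraMap OO ℂ)) x) y = 0 →
        RigX kap p O x y := by
  have hdet : (g₁ * g₂.adjugate).det = g₁.det * g₂.det := by
    rw [Matrix.det_mul, Matrix.det_adjugate]
    simp
  have hm : 0 < g₁.det * g₂.det := mul_pos h₁ h₂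
  obtain ⟨P, hP, hP2, hP3⟩ := exists_modular_equation_rigX hm
  refine ⟨P, hP, fun τ τ₁ τ₂ e₁ e₂ => ?_, hP3⟩
  have key := hP2 ⟨g₁ * g₂.adjugate, hdet⟩ τ₂
  rwa [toGL_smul_eq hm ⟨g₁ * g₂.adjugate, hdet⟩ τ₂ τ₁] at key
  have hd2 : (g₂ 1 0 * (τ : ℂ) + g₂ 1 1) ≠ 0 := by
    have := denom_ne_zero (toGL h₂ (⟨g₂, rfl⟩ : DM g₂.det)) τ
    change ((((g₂ 1 0 : ℤ) : ℝ) : ℂ) * (τ : ℂ) + (((g₂ 1 1 : ℤ) : ℝ) : ℂ)) ≠ 0 at this
    simpa using this
  apply mul_left_cancel₀ hd2
  have a00 : (g₁ * g₂.adjugate) 0 0 = g₁ 0 0 * g₂ 1 1 - g₁ 0 1 * g₂ 1 0 := by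
    simp [Matrix.mul_apply, Fin.sum_univ_two, Matrix.adjugate_fin_two]; ring
  have a01 : (g₁ * g₂.adjugate) 0 1 = - g₁ 0 0 * g₂ 0 1 + g₁ 0 1 * g₂ 0 0 := by
    simp [Matrix.mul_apply, Fin.sum_univ_two, Matrix.adjugate_fin_two]
  have a10 : (g₁ * g₂.adjugate) 1 0 = g₁ 1 0 * g₂ 1 1 - g₁ 1 1 * g₂ 1 0 := by
    simp [Matrix.mul_apply, Fin.sum_univ_two, Matrix.adjugate_fin_two]; ring
  have a11 : (g₁ * g₂.adjugate) 1 1 = - g₁ 1 0 * g₂ 0 1 + g₁ 1 1 * g₂ 0 0 := by
    simp [Matrix.mul_apply, Fin.sum_univ_two, Matrix.adjugate_fin_two]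
  simp only [a00, a01, a10, a11]
  push_cast
  linear_combination
    ((g₂ 0 0 : ℂ) * (g₂ 1 1) - (g₂ 0 1) * (g₂ 1 0)) * e₁ +
    ((τ₁ : ℂ) * ((g₁ 1 0 : ℂ) * g₂ 1 1 - g₁ 1 1 * g₂ 1 0) - ((g₁ 0 0 : ℂ) * g₂ 1 1 - g₁ 0 1 * g₂ 1 0)) * e₂


end Pool.Agent.Helper20.ZT
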