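import Pool.Agent.Helper20.ZT.Rigid
import Pool.Agent.Helper91.ZT.Place
import Pool.Agent.Helper91.ZT.Fermat
import Pool.Agent.Helper11.ZT.KeyT
import Pool.Agent.Helper15.ZT.Cert
import Pool.Agent.Helper53.ZT.Count
import Pool.Agent.Helper89.ZT.Lead
import Pool.Agent.Helper92.ZT.Density
import Pool.Agent.Helper20.ZT.Moeb

/-! # Zilber–Pink for almost all translates: assembly -/

namespace Pool.Agent.Helper20.ZT
open Finset MvPolynomial Pool.Agent.Helper11.ZP Filter

section basics
variable {K : Type*} [Field K] (O : ValuationSubring K)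

lemma non_mem {a : K} (ha : a ∈ O.nonunits) : a ∈ O := (val_mem O).2 ((val_non O).1 ha).le

lemma non_mul {a b : K} (ha : a ∈ O) (hb : b ∈ O.nonunits) : a * b ∈ O.nonunits := by
  rw [mul_comm, val_non]; exact lt_one_mul O ((val_non O).1 hb) ha

lemma non_add {a b : K} (ha : a ∈ O.nonunits) (hb : b ∈ O.nonunits) : a + b ∈ O.nonunits :=
  O.nonunits.add_mem ha hb

lemma non_sub {a b : K} (ha : a ∈ O.nonunits) (hb : b ∈ O.nonunits) : a - b ∈ O.nonunits :=
  O.nonunits.sub_mem ha hb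

lemma non_neg {a : K} (ha : a ∈ O.nonunits) : -a ∈ O.nonunits := O.nonunits.neg_mem ha

/-- an integer prime to `p` is a unit -/
lemma int_unit [CharZero K] {p : ℕ} (hp : p.Prime) (hpO : (p : K) ∈ O.nonunits) {u : ℤ}
    (hu : ¬ (p : ℤ) ∣ u) : O.valuation (u : K) = 1 := by
  have hmem : ∀ a : ℤ, (a : K) ∈ O := fun a => intCast_mem O a
  refine le_antisymm ((val_mem O).1 (hmem u)) ?_
  by_contra hcon
  push Not at hcon
  have hco : IsCoprime (p : ℤ) u := by
    rw [Int.isCoprime_iff_gcd_eq_one]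
    rcases (Nat.coprime_or_dvd_of_prime hp u.natAbs) with h | h
    · simpa [Int.gcd] using h
    · exact absurd (Int.natCast_dvd.2 h) hu
  obtain ⟨a, b, hab⟩ := hco
  have h1 : (1 : K) ∈ O.nonunits := by
    have : (1 : K) = a * p + b * u := by
      have := congrArg (fun z : ℤ => (z : K)) hab
      push_cast at this
      exact this.symm
    rw [this]
    exact non_add O (non_mul O (hmem a) hpO) (non_mul O (hmem b) ((val_non O).2 hcon))
  rw [val_non, map_one] at h1
  exact lt_irrefl _ h1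

lemma aeval_mem {σ : Type*} [Algebra ℂ K] (f : MvPolynomial σ ℂ) (hf : ∀ m, algebraMap ℂ K (f.coeff m) ∈ O)
    {x : σ → K} (hx : ∀ i, x i ∈ O) : aeval x f ∈ O := by
  rw [aeval_def, eval₂_eq]
  refine O.toSubring.sum_mem fun m _ => ?_
  exact mem_mul O (hf m) (O.toSubring.prod_mem fun i _ => mem_pow O (hx i) _)

/-- values at congruent points are congruent -/
lemma aeval_sub_non {σ : Type*} [Algebra ℂ K] (f : MvPolynomial σ ℂ)
    (hf : ∀ m, algebraMap ℂ K (f.coeff m) ∈ O) {x y : σ → K} (hx : ∀ i, x i ∈ O) (hy : ∀ i, y i ∈ O)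
    (hxy : ∀ i, x i - y i ∈ O.nonunits) : aeval x f - aeval y f ∈ O.nonunits := by
  classical
  have hprod : ∀ (s : Finset σ) (m : σ → ℕ), (∏ i ∈ s, x i ^ m i) - (∏ i ∈ s, y i ^ m i) ∈ O.nonunits := by
    intro s m
    induction s using Finset.induction_on with
    | empty => simp [O.nonunits.zero_mem]
    | insert a s ha ih =>
      rw [Finset.prod_insert ha, Finset.prod_insert ha]
      have h1 : x a ^ m a - y a ^ m a ∈ O.nonunits := by
        obtain ⟨c, hc⟩ := sub_dvd_pow_sub_pow (⟨x a, hx a⟩ : O) ⟨y a, hy a⟩ (m a)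
        have h2 := congrArg (fun z : O => (z : K)) hc
        simp only [AddSubgroupClass.coe_sub, SubmonoidClass.coe_pow, MulMemClass.coe_mul] at h2
        rw [h2, mul_comm]
        exact non_mul O c.2 (hxy a)
      have h3 : x a ^ m a * (∏ i ∈ s, x i ^ m i) - y a ^ m a * (∏ i ∈ s, y i ^ m i)
          = (∏ i ∈ s, x i ^ m i) * (x a ^ m a - y a ^ m a) +
            y a ^ m a * ((∏ i ∈ s, x i ^ m i) - (∏ i ∈ s, y i ^ m i)) := by ring
      rw [h3]
      exact non_add O (non_mul O (O.toSubring.prod_mem fun i _ => mem_pow O (hx i) _) h1)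
        (non_mul O (mem_pow O (hy a) _) ih)
  rw [aeval_def, aeval_def, eval₂_eq, eval₂_eq, ← Finset.sum_sub_distrib]
  refine sum_mem fun m _ => ?_
  rw [← mul_sub]
  exact non_mul O (hf m) (hprod _ _)

end basics

/-- the polynomials vanishing on the translate by `b / q` -/
def Ftr {n : ℕ} (d : ℕ) (f : Finset (Fin n) → MvPolynomial (Fin n) ℂ) (q : ℤ) (b : Fin n → ℤ) :
    Set (MvPolynomial (Fin n) ℂ) :=
  {g | ∃ J : Finset (Fin n), J.card = d + 1 ∧ g = aeval (fun i => X i - C ((b i : ℂ) / (q : ℂ))) (f J)}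

/-- the linear substitution -/
noncomputable abbrev lsub {n r : ℕ} (c : Fin n → Fin r) : Fin n → MvPolynomial ((Fin n ⊕ Fin n) ⊕ Fin r) ℂ :=
  fun i => X (Sum.inl (Sum.inl i)) + X (Sum.inl (Sum.inr i)) * X (Sum.inr (c i))

/-- **the local obstruction** -/
theorem local_excl {n d r : ℕ} (hd : d < n) (f : Finset (Fin n) → MvPolynomial (Fin n) ℂ)
    (hf : ∀ J, J.card = d + 1 → TopIn J (f J))
    (R : Finset (Fin n) × (Fin n → Fin r) → MvPolynomial (Fin n ⊕ Fin n) ℂ)
    (h : Finset (Fin n) × (Fin n → Fin r) → Finset (Fin n) → MvPolynomial ((Fin n ⊕ Fin n) ⊕ Fin r) ℂ)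
    (hR : ∀ ι, ι.1.card ≤ d → ∑ J ∈ univ.powersetCard (d + 1), h ι J *
        aeval (lsub ι.2) (lead ι.1 (f J)) = rename Sum.inl (R ι))
    {p : ℕ} (hp : p.Prime) (hp2 : 2 < p) (O₀ : ValuationSubring ℂ) (hpO : (p : ℂ) ∈ O₀.nonunits)
    (cf : ∀ J, J.card = d + 1 → ∀ m, (f J).coeff m ∈ O₀)
    (ctop : ∀ J, J.card = d + 1 →
      (f J).coeff (Finsupp.equivFunOnFinite.symm fun i => (f J).degreeOf i) ∉ O₀.nonunits)
    (ch : ∀ ι J m, (h ι J).coeff m ∈ O₀) (cR : ∀ ι m, (R ι).coeff m ∈ O₀)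
    {u : Fin n → ℤ} (hu : ∀ i, ¬ (p : ℤ) ∣ u i) (hgood : ∀ ι, eval (AB p u) (R ι) ∉ O₀.nonunits)
    {q q' : ℤ} {b : Fin n → ℤ} (hqq' : q = p * q') (hq' : ¬ (p : ℤ) ∣ q')
    (hb : ∀ i, (p : ℤ) ^ 2 ∣ b i - q' * u i) (c : Fin n → Option (Fin r)) :
    Excl (Ftr d f q b) c := by
  classical
  refine ⟨p, O₀, hp, hpO, ?_⟩
  intro K _ _ _ O hO hOn x hx hnone hiff hrig
  have hchar : CharZero K := charZero_of_injective_algebraMap (algebraMap ℂ K).injective
  have hpK : (p : K) ∈ O.nonunits := by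
    have := hOn _ hpO
    rwa [map_natCast] at this
  have hp0 : (p : K) ≠ 0 := by exact_mod_cast hp.ne_zero
  have vu : ∀ i, O.valuation (u i : K) = 1 := fun i => int_unit O hp hpK (hu i)
  have vq' : O.valuation (q' : K) = 1 := int_unit O hp hpK hq'
  have hq0 : (q' : K) ≠ 0 := by
    intro h0; rw [h0, map_zero] at vq'; exact zero_ne_one vq'
  have hui0 : ∀ i, (u i : K) ≠ 0 := by
    intro i h0; have := vu i; rw [h0, map_zero] at this; exact zero_ne_one this
  have hint : ∀ a : ℤ, (a : K) ∈ O := fun a => intCast_mem O a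
  set P : Fin n → K := fun i => x i - (b i : K) / (q : K) with hP
  have hPf : ∀ J, J.card = d + 1 → aeval P (f J) = 0 := by
    intro J hJ
    have h1 := hx _ ⟨J, hJ, rfl⟩
    rw [← h1, ← AlgHom.comp_apply]
    congr 1
    apply MvPolynomial.algHom_ext
    intro i
    simp [hP, map_div₀]
  set T : Finset (Fin n) := univ.filter fun i => P i ∉ O with hT
  have hTiff : ∀ i, P i ∈ O ↔ i ∉ T := by
    intro i; rw [hT, mem_filter]; simp
  have hTcard : T.card ≤ d := by
    by_contra hcon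
    push Not at hcon
    obtain ⟨J, hJT, hJ⟩ := Finset.exists_subset_card_eq (show d + 1 ≤ T.card by omega)
    obtain ⟨i, hi, hiO⟩ := domin O (hf J hJ) (fun m => hO _ (cf J hJ m)) (fun hcon2 => by
      apply ctop J hJ
      set a := (f J).coeff (Finsupp.equivFunOnFinite.symm fun i => (f J).degreeOf i) with ha
      by_contra hu2
      have ha0 : O₀.valuation a = 1 := le_antisymm ((val_mem O₀).1 (cf J hJ _)) (not_lt.1 fun h => hu2 ((val_non O₀).2 h))
      have hinv : a⁻¹ ∈ O₀ := by rw [val_mem, map_inv₀, ha0, inv_one]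
      have h3 := hO _ hinv
      have ha1 : a ≠ 0 := by intro h0; rw [h0, map_zero] at ha0; exact zero_ne_one ha0
      have h4 := non_mul O h3 hcon2
      rw [← map_mul, inv_mul_cancel₀ ha1, map_one, val_non, map_one] at h4
      exact lt_irrefl _ h4) (hPf J hJ)
    exact (hTiff i).1 hiO (hJT hi)
  -- the shape of the coordinates outside `T`
  choose w hw using hb
  set P' : Fin n → K := fun i => P i + p * (w i : K) / q' with hP'
  have hxP' : ∀ i, x i = (u i : K) / p + P' i := by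
    intro i
    have h1 : (b i : K) = q' * u i + p ^ 2 * w i := by
      have := congrArg (fun z : ℤ => (z : K)) (hw i)
      push_cast at this
      linear_combination this
    have h2 : (q : K) = p * q' := by
      have := congrArg (fun z : ℤ => (z : K)) hqq'
      push_cast at this
      exact this
    simp only [hP', hP]
    rw [h1, h2]
    field_simp
    ring
  have hP'P : ∀ i, P' i - P i ∈ O.nonunits := by
    intro i
    have h1 : P' i - P i = ((w i : K) / q') * p := by simp only [hP']; ring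
    rw [h1]
    refine non_mul O ?_ hpK
    rw [val_mem, map_div₀, vq', div_one]
    exact (val_mem O).1 (hint _)
  have hP'O : ∀ i, i ∉ T → P' i ∈ O := by
    intro i hi
    have h1 : P' i = (P' i - P i) + P i := by ring
    rw [h1]
    exact mem_add O (non_mem O (hP'P i)) ((hTiff i).2 hi)
  have vpx : ∀ i, i ∉ T → O.valuation ((p : K) * x i) = 1 := by
    intro i hi
    have h1 : (p : K) * x i = u i + p * P' i := by rw [hxP' i]; field_simp
    rw [h1, val_add_of_lt O, vu]
    rw [vu]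
    exact lt_one_mul O ((val_non O).1 hpK) (hP'O i hi)
  have hxO : ∀ i, i ∉ T → x i ∉ O := by
    intro i hi hcon
    have h1 := non_mul O hcon hpK
    rw [mul_comm, val_non, vpx i hi] at h1
    exact lt_irrefl _ h1
  have hsome : ∀ i, i ∉ T → c i ≠ none := fun i hi h0 => hxO i hi (hnone i h0)
  -- some coordinate is outside `T`
  obtain ⟨i₀, hi₀⟩ : ∃ i, i ∉ T := by
    by_contra hcon
    push Not at hcon
    have : T = univ := by ext i; simp [hcon i]
    rw [this, card_univ, Fintype.card_fin] at hTcard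
    omega
  obtain ⟨s₀, hs₀⟩ := Option.ne_none_iff_exists'.1 (hsome i₀ hi₀)
  set c' : Fin n → Fin r := fun i => (c i).getD s₀ with hc'
  have hcc : ∀ i j, i ∉ T → j ∉ T → c' i = c' j → c i = c j := by
    intro i j hi hj hij
    obtain ⟨s, hs⟩ := Option.ne_none_iff_exists'.1 (hsome i hi)
    obtain ⟨s', hs'⟩ := Option.ne_none_iff_exists'.1 (hsome j hj)
    simp only [hc', hs, hs', Option.getD_some] at hij
    rw [hs, hs', hij]
  -- the parameter of a coordinate
  set ze : Fin n → K := fun i => (P' i - (kap : K)) / u i - (fq p (u i) : K) with hze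
  have hzeO : ∀ i, i ∉ T → ze i ∈ O := by
    intro i hi
    refine mem_sub O ?_ (hint _)
    rw [val_mem, map_div₀, vu, div_one]
    exact (val_mem O).1 (mem_sub O (hP'O i hi) (hint _))
  have hzz : ∀ i j, i ∉ T → j ∉ T → c' i = c' j → ze i - ze j ∈ O.nonunits := by
    intro i j hi hj hij
    have h1 := hrig i j (hcc i j hi hj hij) (hsome i hi)
    rw [hxP' i, hxP' j] at h1
    exact Helper91.ZT.fermat_step O hp hp2 hpK (hu i) (hu j) (hP'O i hi) (hP'O j hj) kap h1
  set z : Fin r → K := fun s => if hs : ∃ i, i ∉ T ∧ c' i = s then ze hs.choose else 0 with hz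
  have hzO : ∀ s, z s ∈ O := by
    intro s
    simp only [hz]
    split_ifs with hs
    · exact hzeO _ hs.choose_spec.1
    · exact zero_mem O
  have hzi : ∀ i, i ∉ T → ze i - z (c' i) ∈ O.nonunits := by
    intro i hi
    have hs : ∃ j, j ∉ T ∧ c' j = c' i := ⟨i, hi, rfl⟩
    simp only [hz]
    rw [dif_pos hs]
    exact hzz _ _ hi hs.choose_spec.1 hs.choose_spec.2.symm
  -- the point on the linear space
  set A : Fin n ⊕ Fin n → K := fun s => algebraMap ℂ K (AB p u s) with hA
  have hAO : ∀ s, A s ∈ O := by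
    intro s
    rcases s with i | i
    · simp only [hA, AB, Sum.elim_inl, map_intCast]
      exact hint _
    · simp only [hA, AB, Sum.elim_inr, map_intCast]
      exact hint _
  set Q : Fin n → K := fun i => A (Sum.inl i) + A (Sum.inr i) * z (c' i) with hQ
  have hQP : ∀ i, i ∉ T → Q i - P i ∈ O.nonunits := by
    intro i hi
    have e1 : A (Sum.inl i) = kap + u i * fq p (u i) := by
      simp only [hA, AB, Sum.elim_inl, map_intCast]; push_cast; ring
    have e2 : A (Sum.inr i) = u i := by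
      simp only [hA, AB, Sum.elim_inr, map_intCast]
    have h1 : Q i - P i = (P' i - P i) - u i * (ze i - z (c' i)) := by
      simp only [hQ, hze, e1, e2]
      have := hui0 i
      field_simp
      ring
    rw [h1]
    exact non_sub O (hP'P i) (non_mul O (hint _) (hzi i hi))
  have hlead : ∀ J, J.card = d + 1 → aeval Q (lead T (f J)) ∈ O.nonunits := fun J hJ =>
    lead_nonunit O (f J) (fun m => hO _ (cf J hJ m)) T (hPf J hJ) hTiff hQP
  -- evaluation of the certificate
  have hcert := congrArg (aeval (Sum.elim A z : (Fin n ⊕ Fin n) ⊕ Fin r → K)) (hR (T, c') hTcard)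
  rw [map_sum, aeval_rename] at hcert
  have hL : ∀ J ∈ univ.powersetCard (d + 1), aeval (Sum.elim A z : (Fin n ⊕ Fin n) ⊕ Fin r → K)
      (h (T, c') J * aeval (lsub c') (lead T (f J))) ∈ O.nonunits := by
    intro J hJ
    rw [mem_powersetCard] at hJ
    rw [map_mul]
    have h1 : aeval (Sum.elim A z : (Fin n ⊕ Fin n) ⊕ Fin r → K) (aeval (lsub c') (lead T (f J)))
        = aeval Q (lead T (f J)) := by
      rw [← AlgHom.comp_apply]
      congr 1
      apply MvPolynomial.algHom_ext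
      intro i
      simp [hQ]
    rw [h1]
    refine non_mul O (aeval_mem O _ (fun m => hO _ (ch _ _ _)) ?_) (hlead J hJ.2)
    intro s
    rcases s with s | s
    · exact hAO s
    · exact hzO s
  have hLs := sum_mem hL
  have hsub : ((Sum.elim A z : (Fin n ⊕ Fin n) ⊕ Fin r → K) ∘ Sum.inl) = A := rfl
  rw [hcert, hsub] at hLs
  have hRe : aeval A (R (T, c')) = algebraMap ℂ K (eval (AB p u) (R (T, c'))) := by
    have : A = (algebraMap ℂ K) ∘ (AB p u) := rfl
    rw [this, MvPolynomial.aeval_algebraMap_apply, aeval_eq_eval]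
  rw [hRe] at hLs
  have hmem0 : eval (AB p u) (R (T, c')) ∈ O₀ := by
    have := aeval_mem O₀ (R (T, c')) (fun m => by simpa using cR (T, c') m) (x := AB p u) (by
      intro s
      rcases s with i | i
      · simp only [AB, Sum.elim_inl]; exact intCast_mem O₀ _
      · simp only [AB, Sum.elim_inr]; exact intCast_mem O₀ _)
    rwa [aeval_eq_eval] at this
  set a := eval (AB p u) (R (T, c')) with ha
  have ha0 : O₀.valuation a = 1 := le_antisymm ((val_mem O₀).1 hmem0)
    (not_lt.1 fun h => hgood (T, c') ((val_non O₀).2 h))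
  have hinv : a⁻¹ ∈ O₀ := by rw [val_mem, map_inv₀, ha0, inv_one]
  have ha1 : a ≠ 0 := by intro h0; rw [h0, map_zero] at ha0; exact zero_ne_one ha0
  have h4 := non_mul O (hO _ hinv) hLs
  rw [← map_mul, inv_mul_cancel₀ ha1, map_one, val_non, map_one] at h4
  exact lt_irrefl _ h4

/-- the translate of `Z` by `b / q` -/
def transl {n : ℕ} (Z : Set (Fin n → ℂ)) (q : ℤ) (b : Fin n → ℤ) : Set (Fin n → ℂ) :=
  {z | (fun i => z i - (b i : ℂ) / (q : ℂ)) ∈ Z}

/-- a local obstruction for all patterns gives the Zilber-Pink conclusion -/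
theorem noUnlikely_of_excl {n d r : ℕ} (hr : n - d = r + 1) {Z : Set (Fin n → ℂ)}
    {f : Finset (Fin n) → MvPolynomial (Fin n) ℂ}
    (hfz : ∀ J, J.card = d + 1 → ∀ z ∈ Z, eval z (f J) = 0) {q : ℤ} {b : Fin n → ℤ}
    (hF : ∀ c : Fin n → Option (Fin r), Excl (Ftr d f q b) c) : NoUnlikely (n - d) (transl Z q b) := by
  have hv : ∀ y ∈ transl Z q b, ∀ g ∈ Ftr d f q b, eval y g = 0 := by
    rintro y hy g ⟨J, hJ, rfl⟩
    have h1 := hfz J hJ _ hy
    rw [← h1, ← aeval_eq_eval, ← aeval_eq_eval, ← AlgHom.comp_apply]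
    congr 1
    apply MvPolynomial.algHom_ext
    intro i
    simp
  rw [hr]
  constructor
  · intro S hS
    rw [Set.disjoint_left]
    intro y hy hyS
    have := Helper11.ZT.no_unlikely' exists_relation_rig hF (y := y) (hv y hy) S hyS
    omega
  · intro V _ hV hdim A
    exact Helper11.ZT.no_atypical' exists_relation_rig hF (fun y hy g hg => hv y (hV hy) g hg)
      (by omega) A

open Classical in
/-- **Zilber–Pink for almost all rational translates** -/
theorem translates {n d : ℕ} (hd : d < n) (Z : Set (Fin n → ℂ)) (hZ : GenPos d Z) :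
    Tendsto (fun H : ℕ =>
      ((((Icc (1 : ℤ) H) ×ˢ (Fintype.piFinset fun _ : Fin n => Icc (-(H : ℤ)) H)).filter
        (fun v => NoUnlikely (n - d) (transl Z v.1 v.2))).card : ℝ) /
      ((((Icc (1 : ℤ) H) ×ˢ (Fintype.piFinset fun _ : Fin n => Icc (-(H : ℤ)) H)).card : ℝ)))
      atTop (nhds 1) := by
  obtain ⟨r, hr⟩ : ∃ r, n - d = r + 1 := ⟨n - d - 1, by omega⟩
  -- the equations
  choose f0 hf0 using hZ
  set f : Finset (Fin n) → MvPolynomial (Fin n) ℂ := fun J => if h : J.card = d + 1 then f0 J h else 0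
    with hfdef
  have hf : ∀ J, J.card = d + 1 → TopIn J (f J) := by
    intro J hJ
    simp only [hfdef, dif_pos hJ]
    exact (hf0 J hJ).1
  have hfz : ∀ J, J.card = d + 1 → ∀ z ∈ Z, eval z (f J) = 0 := by
    intro J hJ
    simp only [hfdef, dif_pos hJ]
    exact (hf0 J hJ).2
  -- the certificates
  have hcert : ∀ ι : Finset (Fin n) × (Fin n → Fin r), ∃ (R : MvPolynomial (Fin n ⊕ Fin n) ℂ)
      (h : Finset (Fin n) → MvPolynomial ((Fin n ⊕ Fin n) ⊕ Fin r) ℂ), R ≠ 0 ∧
      (ι.1.card ≤ d → ∑ J ∈ univ.powersetCard (d + 1), h J * aeval (lsub ι.2) (lead ι.1 (f J))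
        = rename Sum.inl R) := by
    intro ι
    by_cases hι : ι.1.card ≤ d
    · obtain ⟨R, h, h1, h2⟩ := certificate (show r + d < n by omega) f hf ι.1 hι ι.2
      exact ⟨R, h, h1, fun _ => h2⟩
    · exact ⟨1, 0, one_ne_zero, fun h => absurd h hι⟩
  choose R h hR0 hR using hcert
  have hm : ∀ ι, ∃ m, (R ι).coeff m ≠ 0 := fun ι => by
    by_contra hcon
    push Not at hcon
    exact hR0 ι (MvPolynomial.ext _ _ fun m => by rw [hcon m, coeff_zero])
  choose mR hmR using hm
  set top : Finset (Fin n) → ℂ := fun J =>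
    (f J).coeff (Finsupp.equivFunOnFinite.symm fun i => (f J).degreeOf i) with htop
  set s : Finset ℂ := (univ.biUnion fun J : Finset (Fin n) => (f J).support.image (f J).coeff) ∪
    (univ.biUnion fun ι : Finset (Fin n) × (Fin n → Fin r) => (R ι).support.image (R ι).coeff) ∪
    (univ.biUnion fun ι : Finset (Fin n) × (Fin n → Fin r) => univ.biUnion fun J : Finset (Fin n) =>
      (h ι J).support.image (h ι J).coeff) ∪
    (univ.image fun J : Finset (Fin n) => (top J)⁻¹) ∪
    (univ.image fun ι : Finset (Fin n) × (Fin n → Fin r) => ((R ι).coeff (mR ι))⁻¹) with hs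
  obtain ⟨p₁, hp₁⟩ := Helper91.ZT.exists_place s 1 one_ne_zero
  choose Op hOp using hp₁
  have cf : ∀ p hp hpp J m, (f J).coeff m ∈ Op p hp hpp := by
    intro p hp hpp J m
    by_cases hm : m ∈ (f J).support
    · refine (hOp p hp hpp).2.1 _ ?_
      simp only [hs, mem_union, mem_biUnion, mem_image, mem_univ, true_and]
      exact Or.inl (Or.inl (Or.inl (Or.inl ⟨J, m, hm, rfl⟩)))
    · rw [notMem_support_iff.1 hm]; exact zero_mem _
  have cR : ∀ p hp hpp ι m, (R ι).coeff m ∈ Op p hp hpp := by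
    intro p hp hpp ι m
    by_cases hm : m ∈ (R ι).support
    · refine (hOp p hp hpp).2.1 _ ?_
      simp only [hs, mem_union, mem_biUnion, mem_image, mem_univ, true_and]
      exact Or.inl (Or.inl (Or.inl (Or.inr ⟨ι, m, hm, rfl⟩)))
    · rw [notMem_support_iff.1 hm]; exact zero_mem _
  have ch : ∀ p hp hpp ι J m, (h ι J).coeff m ∈ Op p hp hpp := by
    intro p hp hpp ι J m
    by_cases hm : m ∈ (h ι J).support
    · refine (hOp p hp hpp).2.1 _ ?_
      simp only [hs, mem_union, mem_biUnion, mem_image, mem_univ, true_and]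
      exact Or.inl (Or.inl (Or.inr ⟨ι, J, m, hm, rfl⟩))
    · rw [notMem_support_iff.1 hm]; exact zero_mem _
  have unit : ∀ p hp hpp (a : ℂ), a ≠ 0 → a⁻¹ ∈ Op p hp hpp → a ∉ (Op p hp hpp).nonunits := by
    intro p hp hpp a ha hinv hcon
    have h1 := non_mul _ hinv hcon
    rw [inv_mul_cancel₀ ha, val_non, map_one] at h1
    exact lt_irrefl _ h1
  have ctop : ∀ p hp hpp J, J.card = d + 1 → top J ∉ (Op p hp hpp).nonunits := by
    intro p hp hpp J hJ
    refine unit p hp hpp _ (hf J hJ).top ((hOp p hp hpp).2.1 _ ?_)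
    simp only [hs, mem_union, mem_biUnion, mem_image, mem_univ, true_and]
    exact Or.inl (Or.inr ⟨J, rfl⟩)
  have cR' : ∀ p hp hpp ι, ∃ m, (R ι).coeff m ∉ (Op p hp hpp).nonunits := by
    intro p hp hpp ι
    refine ⟨mR ι, unit p hp hpp _ (hmR ι) ((hOp p hp hpp).2.1 _ ?_)⟩
    simp only [hs, mem_union, mem_biUnion, mem_image, mem_univ, true_and]
    exact Or.inr ⟨ι, rfl⟩
  -- the density
  set D : ℕ := ∑ ι, (R ι).totalDegree with hD
  have hDle : ∀ ι, (R ι).totalDegree ≤ D := fun ι =>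
    Finset.single_le_sum (f := fun ι => (R ι).totalDegree) (fun _ _ => Nat.zero_le _) (mem_univ ι)
  set c₀ : ℕ := n + Fintype.card (Finset (Fin n) × (Fin n → Fin r)) * D with hc₀
  set G : ℕ → Set (Fin n → ℤ) := fun p => {v | ∃ u : Fin n → ℤ, (∀ i, (p : ℤ) ^ 2 ∣ u i - v i) ∧
    ∃ (hp : p.Prime) (hpp : p₁ ≤ p),
    (∀ i, ¬ (p : ℤ) ∣ u i) ∧ ∀ ι, eval (AB p u) (R ι) ∉ (Op p hp hpp).nonunits} with hG
  refine density (max (max p₁ 3) (2 * c₀ + 1)) G ?_ ?_ (fun q b => NoUnlikely (n - d) (transl Z q b)) ?_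
  · rintro p u v huv ⟨u', h1, h2⟩
    refine ⟨u', fun i => ?_, h2⟩
    have := dvd_add (h1 i) (huv i)
    rwa [sub_add_sub_cancel] at this
  · intro p hp hpp
    have hp1 : p₁ ≤ p := (le_max_left _ _).trans ((le_max_left _ _).trans hpp)
    have hp3 : 3 ≤ p := (le_max_right _ _).trans ((le_max_left _ _).trans hpp)
    have hpc : 2 * c₀ + 1 ≤ p := (le_max_right _ _).trans hpp
    have h1 := Helper53.ZT.count_good R D hDle hp (by omega) (Op p hp hp1) (hOp p hp hp1).1 (cR p hp hp1)
      (cR' p hp hp1)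
    have hfin : {u : Fin n → ℤ | (∀ i, 0 ≤ u i ∧ u i < (p : ℤ) ^ 2) ∧ u ∈ G p}.Finite := by
      refine (Fintype.piFinset fun _ : Fin n => Ico (0 : ℤ) ((p : ℤ) ^ 2)).finite_toSet.subset ?_
      rintro u ⟨hu, _⟩
      rw [Finset.mem_coe, Fintype.mem_piFinset]
      exact fun i => mem_Ico.2 (hu i)
    have hsub : {u : Fin n → ℤ | (∀ i, 0 ≤ u i ∧ u i < (p : ℤ) ^ 2) ∧ (∀ i, ¬ (p : ℤ) ∣ u i) ∧
        ∀ i, eval (AB p u) (R i) ∉ (Op p hp hp1).nonunits} ⊆
        {u : Fin n → ℤ | (∀ i, 0 ≤ u i ∧ u i < (p : ℤ) ^ 2) ∧ u ∈ G p} := by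
      rintro u ⟨h2, h3, h4⟩
      exact ⟨h2, u, fun i => by simp, hp, hp1, h3, h4⟩
    refine le_trans ?_ (h1.trans (Nat.cast_le.2 (Set.ncard_le_ncard hsub hfin)))
    rw [div_eq_mul_inv]
    refine mul_le_mul_of_nonneg_left ?_ (by positivity)
    have hp0 : (0 : ℝ) < p := by exact_mod_cast hp.pos
    have h5 : ((n : ℝ) + Fintype.card (Finset (Fin n) × (Fin n → Fin r)) * D) = (c₀ : ℝ) := by
      rw [hc₀]; push_cast; ring
    rw [h5]
    have h6 : (c₀ : ℝ) / p ≤ 1 / 2 := by
      rw [div_le_iff₀ hp0]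
      have : (2 * c₀ + 1 : ℝ) ≤ p := by exact_mod_cast hpc
      linarith
    linarith
  · intro q b p q' u₁ hp hpp _ hqq' hq' hb₁ hu
    obtain ⟨u, huu, hp', hp1, hu1, hu2⟩ := hu
    have hb : ∀ i, (p : ℤ) ^ 2 ∣ b i - q' * u i := by
      intro i
      have := dvd_sub (hb₁ i) ((huu i).mul_left q')
      have h2 : b i - q' * u₁ i - q' * (u i - u₁ i) = b i - q' * u i := by ring
      rwa [h2] at this
    have hp3 : 3 ≤ p := (le_max_right _ _).trans ((le_max_left _ _).trans hpp)
    refine noUnlikely_of_excl hr hfz fun c => ?_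
    exact local_excl hd f hf R h hR hp' (by omega) (Op p hp' hp1) (hOp p hp' hp1).1
      (fun J _ m => cf p hp' hp1 J m) (ctop p hp' hp1) (ch p hp' hp1) (cR p hp' hp1) hu1 hu2 hqq' hq' hb c

end Pool.Agent.Helper20.ZT
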