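import Pool.Agent.Helper11.ZP.Rel

/-! # The modular equation as a truncated identity -/

open UpperHalfPlane ModularForm Complex Filter Function
open scoped Real MatrixGroups Topology Manifold

namespace Pool.Agent.Helper20.ZT
open Pool.Agent.Helper11.ZP

section formal
variable (m : ℤ) [hm : Fact (0 < m)]

/-- a constant as a good function -/
lemma exists_const (c : ℂ) : ∃ r : goodRing (m : ℝ), (∀ τ, r.1 τ = c) ∧ qe (mpos m) r = PowerSeries.C c := by
  refine ⟨⟨fun _ => c, Good.const _⟩, fun τ => rfl, ?_⟩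
  have h1 := (Good.const (h := (m : ℝ)) 1).analytic (mpos m)
  have h2 := qExpansion_smul (f := (1 : ℍ → ℂ)) h1 c
  have h3 : (fun _ : ℍ => c) = c • (1 : ℍ → ℂ) := by funext τ; simp
  change qExpansion (m : ℝ) (fun _ : ℍ => c) = _
  rw [h3, h2, qExpansion_one, PowerSeries.smul_eq_C_mul, mul_one]

/-- the coefficients of the product over the orbits, as power series -/
lemma qe_coeff (i : ℕ) : qe (mpos m) ((PP m).coeff i).1 =
    ∑ l ∈ Finset.range (ss m + 1), PowerSeries.C (((pp m i).coeff l : OO) : ℂ) *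
      (qe (mpos m) (eJ m) ^ l * qe (mpos m) (dJ m) ^ (ss m - l)) := by
  choose cst hcst hcst' using exists_const m
  have hK : ((PP m).coeff i).1 = ∑ l ∈ Finset.range (ss m + 1),
      cst ((pp m i).coeff l : ℂ) * (eJ m ^ l * dJ m ^ (ss m - l)) := by
    apply Subtype.ext
    funext τ
    have h1 : ((PP m).coeff i).1.1 τ = g m i τ := rfl
    rw [h1, pp_eval, Polynomial.eval₂_eq_sum_range' (algebraMap OO ℂ) (Nat.lt_succ_of_le (pp_deg m i)),
      Finset.mul_sum]
    have : (∑ l ∈ Finset.range (ss m + 1),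
      cst ((pp m i).coeff l : ℂ) * (eJ m ^ l * dJ m ^ (ss m - l))).1 τ =
      (Pi.evalRingHom (fun _ : ℍ => ℂ) τ).comp (goodRing (m : ℝ)).subtype
      (∑ l ∈ Finset.range (ss m + 1), cst ((pp m i).coeff l : ℂ) * (eJ m ^ l * dJ m ^ (ss m - l))) := rfl
    rw [this, map_sum]
    refine Finset.sum_congr rfl fun l hl => ?_
    rw [map_mul, map_mul, map_pow, map_pow]
    change _ = (cst ((pp m i).coeff l : ℂ)).1 τ * (Ecube τ ^ l * ModularForm.discriminant τ ^ (ss m - l))
    rw [hcst, ← jInv_mul τ]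
    have h2 : ss m = l + (ss m - l) := by
      rw [Finset.mem_range] at hl
      omega
    conv_lhs => rw [h2, pow_add]
    have h3 : (algebraMap OO ℂ) ((pp m i).coeff l) = ((pp m i).coeff l : ℂ) := rfl
    rw [h3]
    ring
  rw [hK, map_sum]
  refine Finset.sum_congr rfl fun l _ => ?_
  rw [map_mul, map_mul, map_pow, map_pow, hcst']

/-- truncation of a power series with integral coefficients, with `q` replaced by `ζ t ^ k` -/
noncomputable def tr (φ : PowerSeries ℂ) (hφ : φ ∈ intPS) (z : OO) (k M : ℕ) : Polynomial OO :=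
  ∑ i ∈ Finset.range M, Polynomial.C ((⟨PowerSeries.coeff i φ, hφ i⟩ : OO) * z ^ i) * Polynomial.X ^ (k * i)

lemma tr_eval {S : Type*} [CommRing S] (f : OO →+* S) (φ : PowerSeries ℂ) (hφ : φ ∈ intPS) (z : OO)
    (k M : ℕ) (t : S) : (tr φ hφ z k M).eval₂ f t = (tr φ hφ 1 1 M).eval₂ f (f z * t ^ k) := by
  unfold tr
  rw [Polynomial.eval₂_finsetSum, Polynomial.eval₂_finsetSum]
  refine Finset.sum_congr rfl fun i _ => ?_
  rw [Polynomial.eval₂_mul, Polynomial.eval₂_mul, Polynomial.eval₂_C, Polynomial.eval₂_C,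
    Polynomial.eval₂_X_pow, Polynomial.eval₂_X_pow, map_mul, map_pow, one_pow, mul_one, one_mul,
    mul_pow, ← pow_mul]
  ring

lemma tr_coeff (φ : PowerSeries ℂ) (hφ : φ ∈ intPS) (z : OO) {k M : ℕ} (hk : 0 < k) {j : ℕ}
    (hj : j < M) : (((tr φ hφ z k M).coeff j : OO) : ℂ) =
      if k ∣ j then PowerSeries.coeff (j / k) φ * (z : ℂ) ^ (j / k) else 0 := by
  unfold tr
  rw [Polynomial.finsetSum_coeff]
  simp only [Polynomial.coeff_C_mul, Polynomial.coeff_X_pow]
  split_ifs with h
  · obtain ⟨c, rfl⟩ := h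
    rw [Nat.mul_div_cancel_left _ hk, Finset.sum_eq_single c]
    · simp
    · intro b _ hb
      rw [if_neg, mul_zero]
      intro he
      exact hb (Nat.eq_of_mul_eq_mul_left hk he).symm
    · intro hc
      exfalso
      apply hc
      rw [Finset.mem_range]
      calc c ≤ k * c := Nat.le_mul_of_pos_left _ hk
        _ < M := hj
  · rw [Finset.sum_eq_zero]
    · rfl
    · intro i _
      rw [if_neg, mul_zero]
      rintro rfl
      exact h (dvd_mul_right _ _)

/-- polynomials over the algebraic integers as power series -/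
noncomputable def rho : Polynomial OO →+* PowerSeries ℂ :=
  (Polynomial.coeToPowerSeries.ringHom).comp (Polynomial.mapRingHom (algebraMap OO ℂ))

lemma rho_coeff (f : Polynomial OO) (j : ℕ) : PowerSeries.coeff j (rho f) = ((f.coeff j : OO) : ℂ) := by
  unfold rho
  simp

/-- reduction modulo `t ^ M` -/
noncomputable abbrev piM (M : ℕ) : PowerSeries ℂ →+* PowerSeries ℂ ⧸ (Ideal.span {(PowerSeries.X : PowerSeries ℂ) ^ M}) :=
  Ideal.Quotient.mk _

lemma piM_eq_iff {M : ℕ} {f g : PowerSeries ℂ} : piM M f = piM M g ↔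
    ∀ j < M, PowerSeries.coeff j f = PowerSeries.coeff j g := by
  rw [Ideal.Quotient.eq, Ideal.mem_span_singleton, PowerSeries.X_pow_dvd_iff]
  simp only [map_sub, sub_eq_zero]

/-- the root of unity of an orbit -/
noncomputable def zo (o : Orb m) : OO := ⟨zt (U m o), (isUnitInt_zt (U m o) (U10 m o) (U00 m o)).1⟩

/-- the exponent of an orbit -/
noncomputable def ko (o : Orb m) : ℕ := ((U m o).1 0 0).toNat ^ 2

lemma ko_pos (o : Orb m) : 0 < ko m o := by
  have := U00 m o
  exact pow_pos (by omega) 2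

lemma ko_le (o : Orb m) : ko m o ≤ m.toNat ^ 2 := by
  have h1 := ad_eq (U m o) (U10 m o)
  have h2 := d_pos (U m o) (U10 m o) (U00 m o)
  have h3 := U00 m o
  unfold ko
  apply Nat.pow_le_pow_left
  have : (U m o).1 0 0 ≤ m := by nlinarith
  omega

lemma zo_pow (o : Orb m) : ∃ N : ℕ, 0 < N ∧ zo m o ^ N = 1 := by
  have hd := d_pos (U m o) (U10 m o) (U00 m o)
  refine ⟨((U m o).1 1 1).toNat, by omega, ?_⟩
  apply Subtype.ext
  change zt (U m o) ^ _ = 1
  rw [zt, ← Complex.exp_nat_mul, Complex.exp_eq_one_iff]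
  refine ⟨(U m o).1 0 1, ?_⟩
  have h1 : ((((U m o).1 1 1).toNat : ℕ) : ℂ) = (((U m o).1 1 1 : ℤ) : ℂ) := by
    rw [← Int.cast_natCast, Int.toNat_of_nonneg hd.le]
  have h2 : (((U m o).1 1 1 : ℤ) : ℂ) ≠ 0 := by exact_mod_cast hd.ne'
  rw [h1]
  field_simp

/-- `Δ` and `E₄³` as power series -/
noncomputable abbrev dS : PowerSeries ℂ := qExpansion 1 ModularForm.discriminant
noncomputable abbrev eS : PowerSeries ℂ := qExpansion 1 Ecube

lemma pi_dI (M : ℕ) (o : Orb m) : piM M (rho (tr dS qexp_disc_mem (zo m o) (ko m o) M)) =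
    piM M (qe (mpos m) (dI m o).1) := by
  rw [piM_eq_iff]
  intro j hj
  rw [rho_coeff, tr_coeff _ _ _ (ko_pos m o) hj]
  exact (qexp_upper (U m o) (U10 m o) (U00 m o) isMF_disc.good j).symm

lemma pi_eI (M : ℕ) (o : Orb m) : piM M (rho (tr eS qexp_Ecube_mem (zo m o) (ko m o) M)) =
    piM M (qe (mpos m) (eI m o).1) := by
  rw [piM_eq_iff]
  intro j hj
  rw [rho_coeff, tr_coeff _ _ _ (ko_pos m o) hj]
  exact (qexp_upper (U m o) (U10 m o) (U00 m o) isMF_Ecube.good j).symm

lemma pi_dJ (M : ℕ) : piM M (rho (tr dS qexp_disc_mem 1 m.toNat M)) = piM M (qe (mpos m) (dJ m)) := by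
  rw [piM_eq_iff]
  intro j hj
  rw [rho_coeff, tr_coeff _ _ _ (mtoNat_pos m) hj]
  have h := qexp_width (mtoNat_pos m) isMF_disc.good j
  rw [m_eq] at h
  change _ = (PowerSeries.coeff j) (qExpansion (m : ℝ) ModularForm.discriminant)
  rw [h]
  simp

lemma pi_eJ (M : ℕ) : piM M (rho (tr eS qexp_Ecube_mem 1 m.toNat M)) = piM M (qe (mpos m) (eJ m)) := by
  rw [piM_eq_iff]
  intro j hj
  rw [rho_coeff, tr_coeff _ _ _ (mtoNat_pos m) hj]
  have h := qexp_width (mtoNat_pos m) isMF_Ecube.good j
  rw [m_eq] at h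
  change _ = (PowerSeries.coeff j) (qExpansion (m : ℝ) Ecube)
  rw [h]
  simp

/-- the left side of the truncated identity -/
noncomputable def LH (M : ℕ) : Polynomial (Polynomial OO) :=
  ∑ i ∈ Finset.range (ss m + 1), Polynomial.C (∑ l ∈ Finset.range (ss m + 1),
    Polynomial.C ((pp m i).coeff l) * (tr eS qexp_Ecube_mem 1 m.toNat M ^ l *
      tr dS qexp_disc_mem 1 m.toNat M ^ (ss m - l))) * Polynomial.X ^ i

/-- the right side of the truncated identity -/
noncomputable def RH (M : ℕ) : Polynomial (Polynomial OO) :=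
  ∏ o : Orb m, (Polynomial.C (tr dS qexp_disc_mem (zo m o) (ko m o) M) * Polynomial.X -
    Polynomial.C (tr eS qexp_Ecube_mem (zo m o) (ko m o) M))

lemma RH_natDegree (M : ℕ) : (RH m M).natDegree ≤ ss m := by
  rw [RH]
  refine (Polynomial.natDegree_prod_le _ _).trans ?_
  refine (Finset.sum_le_card_nsmul _ _ 1 fun o _ => ?_).trans (by simp [Finset.card_univ])
  refine (Polynomial.natDegree_sub_le _ _).trans (max_le ?_ (by simp))
  exact (Polynomial.natDegree_C_mul_le _ _).trans Polynomial.natDegree_X_le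

/-- **the truncated modular equation** -/
theorem dvd_diff (M : ℕ) (i : ℕ) : (Polynomial.X : Polynomial OO) ^ M ∣ (LH m M).coeff i - (RH m M).coeff i := by
  rw [Polynomial.X_pow_dvd_iff]
  intro j hj
  have key : piM M (rho ((LH m M).coeff i)) = piM M (rho ((RH m M).coeff i)) := by
    have hR : piM M (rho ((RH m M).coeff i)) = piM M (qe (mpos m) ((PP m).coeff i).1) := by
      have h1 : (RH m M).map ((piM M).comp rho) = (PP m).map ((piM M).comp ((qe (mpos m)).comp
          (RR m).subtype)) := by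
        rw [RH, PP, Polynomial.map_prod, Polynomial.map_prod]
        refine Finset.prod_congr rfl fun o _ => ?_
        simp only [Polynomial.map_sub, Polynomial.map_mul, Polynomial.map_C, Polynomial.map_X,
          RingHom.comp_apply]
        rw [pi_dI, pi_eI]
        rfl
      have h2 := congrArg (fun P => Polynomial.coeff P i) h1
      rw [Polynomial.coeff_map, Polynomial.coeff_map] at h2
      exact h2
    rw [hR]
    by_cases hi : i < ss m + 1
    · rw [qe_coeff, LH, Polynomial.finsetSum_coeff]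
      simp only [Polynomial.coeff_C_mul, Polynomial.coeff_X_pow, mul_ite, mul_one, mul_zero]
      rw [Finset.sum_ite_eq, if_pos (Finset.mem_range.2 hi)]
      simp only [map_sum, map_mul, map_pow]
      refine Finset.sum_congr rfl fun l _ => ?_
      rw [pi_eJ, pi_dJ]
      congr 2
      unfold rho
      simp
    · have h0 : (PP m).coeff i = 0 := Polynomial.coeff_eq_zero_of_natDegree_lt
        (lt_of_le_of_lt (PP_natDegree m) (by omega))
      rw [h0, LH, Polynomial.finsetSum_coeff]
      simp only [Polynomial.coeff_C_mul, Polynomial.coeff_X_pow, mul_ite, mul_one, mul_zero]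
      rw [Finset.sum_ite_eq, if_neg (by rwa [Finset.mem_range])]
      simp
  have h3 := (piM_eq_iff.1 key) j hj
  rw [rho_coeff, rho_coeff] at h3
  rw [Polynomial.coeff_sub, sub_eq_zero]
  exact Subtype.ext h3

end formal

end Pool.Agent.Helper20.ZT
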