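import Pool.Agent.Helper20.ZT.Exact

/-! # Modular equations over a stable set of orbits

The modular polynomial over a set `T` of orbits of integral matrices of determinant `m` which is
stable under right multiplication by `SL₂(ℤ)`, for instance the orbits of the primitive matrices. -/

open UpperHalfPlane ModularForm Complex Filter Function
open scoped Real MatrixGroups Topology Manifold

namespace Pool.Agent.Helper20.ZT.Prim
open Pool.Agent.Helper11.ZP

section
variable (m : ℤ) [hm : Fact (0 < m)] (T : Finset (Orb m))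

/-- stability under right multiplication -/
def Stable : Prop := ∀ (γ : SL(2, ℤ)), ∀ o ∈ T, rPerm γ o ∈ T

variable {m T}

lemma Stable.map_eq (hT : Stable m T) (γ : SL(2, ℤ)) : T.map (rPerm γ).toEmbedding = T := by
  apply Finset.eq_of_subset_of_card_le
  · intro o ho
    obtain ⟨o', ho', rfl⟩ := Finset.mem_map.1 ho
    exact hT γ o' ho'
  · rw [Finset.card_map]

variable (m T)

open Polynomial in
/-- The product polynomial over the orbits in `T`. -/
noncomputable def PolT (τ : ℍ) : Polynomial ℂ :=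
  ∏ o ∈ T, (C (slO hm.out disc_inv o τ) * X - C (slO hm.out Ecube_inv o τ))

open Polynomial in
lemma PolT_smul (hT : Stable m T) (γ : SL(2, ℤ)) (τ : ℍ) :
    PolT m T (γ • τ) = C (denom γ τ ^ (12 * (T.card : ℤ))) * PolT m T τ := by
  have h1 : ∀ o : Orb m, (C (slO hm.out disc_inv o (γ • τ)) * X - C (slO hm.out Ecube_inv o (γ • τ)))
      = C (denom γ τ ^ (12 : ℤ)) * (C (slO hm.out disc_inv (rPerm γ o) τ) * X
        - C (slO hm.out Ecube_inv (rPerm γ o) τ)) := by
    intro o
    rw [slO_smul, slO_smul, C_mul, C_mul]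
    ring
  have h2 : ∏ o ∈ T, (C (slO hm.out disc_inv (rPerm γ o) τ) * X - C (slO hm.out Ecube_inv (rPerm γ o) τ))
      = ∏ o ∈ T, (C (slO hm.out disc_inv o τ) * X - C (slO hm.out Ecube_inv o τ)) := by
    conv_rhs => rw [← hT.map_eq γ, Finset.prod_map]
    rfl
  rw [PolT, Finset.prod_congr rfl fun o _ => h1 o, Finset.prod_mul_distrib, Finset.prod_const,
    h2, ← C_pow, zpow_mul, zpow_natCast, PolT]

open Polynomial in
/-- The product polynomial with integral coefficients. -/
noncomputable def PPT : Polynomial (RR m) := ∏ o ∈ T, (C (dI m o) * X - C (eI m o))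

open Polynomial in
lemma PolT_eq (τ : ℍ) : PolT m T τ = C (∏ o ∈ T, Helper11.ZP.kap m o) * (PPT m T).map (ev m τ) := by
  rw [PPT, Polynomial.map_prod, map_prod, ← Finset.prod_mul_distrib, PolT]
  refine Finset.prod_congr rfl fun o _ => ?_
  rw [slO_eq, slO_eq]
  simp only [Polynomial.map_sub, Polynomial.map_mul, Polynomial.map_C, Polynomial.map_X, C_mul]
  have h1 : ev m τ (dI m o) = ModularForm.discriminant (toGL hm.out (U m o) • τ) := rfl
  have h2 : ev m τ (eI m o) = Ecube (toGL hm.out (U m o) • τ) := rfl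
  rw [h1, h2]
  ring

/-- The coefficient functions. -/
noncomputable def gT (i : ℕ) : ℍ → ℂ := ((PPT m T).coeff i).1.1

lemma kprodT_ne_zero : (∏ o ∈ T, Helper11.ZP.kap m o) ≠ 0 :=
  Finset.prod_ne_zero_iff.2 fun o _ => kap_ne_zero m o

lemma gT_smul (hT : Stable m T) (i : ℕ) (γ : SL(2, ℤ)) (τ : ℍ) :
    gT m T i (γ • τ) = denom γ τ ^ (12 * (T.card : ℤ)) * gT m T i τ := by
  have h := congrArg (fun P => Polynomial.coeff P i) (PolT_smul m T hT γ τ)
  simp only [PolT_eq, Polynomial.coeff_C_mul, Polynomial.coeff_map, ev_apply] at h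
  have h0 := kprodT_ne_zero m T
  apply mul_left_cancel₀ h0
  change (∏ o ∈ T, Helper11.ZP.kap m o) * ((PPT m T).coeff i).1.1 (γ • τ) = _
  rw [h]
  change _ = (∏ o ∈ T, Helper11.ZP.kap m o) * (denom γ τ ^ (12 * (T.card : ℤ)) * ((PPT m T).coeff i).1.1 τ)
  ring

lemma gT_isMF (hT : Stable m T) (i : ℕ) : IsMF (12 * (T.card : ℕ)) (gT m T i) := by
  refine isMF_iff.2 ⟨fun γ => ?_, ((PPT m T).coeff i).1.2.hol, ((PPT m T).coeff i).1.2.bdd⟩
  funext τ
  rw [SL_slash_apply, gT_smul m T hT, mul_comm, ← mul_assoc, ← zpow_add₀ (denom_ne_zero _ _)]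
  simp

lemma gT_int (hT : Stable m T) (i : ℕ) : qExpansion 1 (gT m T i) ∈ intPS := by
  refine qexp_of_width_mem (mtoNat_pos m) (gT_isMF m T hT i).good ?_
  rw [m_eq]
  exact ((PPT m T).coeff i).2

variable {m T}

/-- The polynomials in `j`. -/
noncomputable def ppT (hT : Stable m T) (i : ℕ) : Polynomial OO :=
  (structure_thm T.card (gT m T i) (gT_isMF m T hT i) (gT_int m T hT i)).choose

lemma ppT_deg (hT : Stable m T) (i : ℕ) : (ppT hT i).natDegree ≤ T.card :=
  (structure_thm T.card (gT m T i) (gT_isMF m T hT i) (gT_int m T hT i)).choose_spec.1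

lemma ppT_eval (hT : Stable m T) (i : ℕ) (τ : ℍ) :
    gT m T i τ = ModularForm.discriminant τ ^ T.card * (ppT hT i).eval₂ (algebraMap OO ℂ) (jInv τ) :=
  (structure_thm T.card (gT m T i) (gT_isMF m T hT i) (gT_int m T hT i)).choose_spec.2 τ

variable (m T)

open Polynomial in
lemma PPT_coeff_top : (PPT m T).coeff T.card = ∏ o ∈ T, dI m o := by
  have h := Polynomial.coeff_prod_of_natDegree_le (s := T)
    (fun o => C (dI m o) * X - C (eI m o)) 1 (fun o _ => by
      refine (natDegree_sub_le _ _).trans (max_le ?_ ?_)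
      · exact (natDegree_C_mul_le _ _).trans natDegree_X_le
      · simp)
  rw [mul_one] at h
  rw [PPT, h]
  refine Finset.prod_congr rfl fun o _ => ?_
  simp

lemma gT_top_ne_zero (τ : ℍ) : gT m T T.card τ ≠ 0 := by
  have h : gT m T T.card τ = ev m τ ((PPT m T).coeff T.card) := rfl
  rw [h, PPT_coeff_top, map_prod]
  exact Finset.prod_ne_zero_iff.2 fun o _ => discriminant_ne_zero _

variable {m T}

/-- The top coefficient is constant. -/
lemma ppT_top (hT : Stable m T) : ∃ c : OO, ppT hT T.card = Polynomial.C c := by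
  have h1 : ∀ x : ℂ, ((ppT hT T.card).map (algebraMap OO ℂ)).eval x ≠ 0 := by
    intro x hx
    obtain ⟨τ, rfl⟩ := jInv_surjective x
    apply gT_top_ne_zero m T τ
    rw [ppT_eval hT, ← Polynomial.eval_map, hx, mul_zero]
  have h2 : ((ppT hT T.card).map (algebraMap OO ℂ)).degree = 0 := by
    by_contra hcon
    obtain ⟨x, hx⟩ := IsAlgClosed.exists_root _ hcon
    exact h1 x hx
  have h3 : (ppT hT T.card).degree = 0 := by
    rwa [Polynomial.degree_map_eq_of_injective (FaithfulSMul.algebraMap_injective _ _)] at h2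
  exact ⟨_, Polynomial.eq_C_of_degree_eq_zero h3⟩

lemma ppT_top_unit (hT : Stable m T) : ∃ c : ℂ, IsUnitInt c ∧
    ∀ τ, gT m T T.card τ = ModularForm.discriminant τ ^ T.card * c := by
  obtain ⟨c, hc⟩ := ppT_top hT
  have hg : ∀ τ, gT m T T.card τ = ModularForm.discriminant τ ^ T.card * (c : ℂ) := by
    intro τ
    rw [ppT_eval hT, hc, Polynomial.eval₂_C]
    rfl
  refine ⟨c, ?_, hg⟩
  have hc0 : (c : ℂ) ≠ 0 := by
    intro h
    apply gT_top_ne_zero m T UpperHalfPlane.I
    rw [hg, h, mul_zero]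
  have e1 : qe (mpos m) ((PPT m T).coeff T.card).1 = ∏ o ∈ T, qe (mpos m) (dI m o).1 := by
    rw [PPT_coeff_top]
    have : ((∏ o ∈ T, dI m o : RR m) : goodRing (m : ℝ)) = ∏ o ∈ T, (dI m o : goodRing (m : ℝ)) :=
      map_prod (RR m).subtype _ _
    rw [this, map_prod]
  have l1 : Lowest (qe (mpos m) ((PPT m T).coeff T.card).1) (∑ o ∈ T, ((U m o).1 0 0).toNat ^ 2 * 1)
      (∏ o ∈ T, 1 * zt (U m o) ^ 1) := by
    rw [e1]
    exact Lowest.prod _ _ _ _ fun o _ => comp_lowest m isMF_disc.good qexp_disc_mem qexp_disc_lowest o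
  have hconst : Good (m : ℝ) (fun _ : ℍ => (c : ℂ)) := Good.const _
  have e2 : ((PPT m T).coeff T.card).1 = (dJ m) ^ T.card * ⟨fun _ => (c : ℂ), hconst⟩ := by
    apply Subtype.ext
    funext τ
    exact hg τ
  have l2 : Lowest (qe (mpos m) (⟨fun _ => (c : ℂ), hconst⟩ : goodRing (m : ℝ))) 0 (c : ℂ) := by
    refine ⟨fun i hi => absurd hi (by omega), ?_⟩
    have h1 := (Good.const (h := (m : ℝ)) 1).analytic (mpos m)
    have h2 := qExpansion_smul (f := (1 : ℍ → ℂ)) h1 (c : ℂ)
    have h3 : (fun _ : ℍ => (c : ℂ)) = (c : ℂ) • (1 : ℍ → ℂ) := by funext τ; simp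
    change (PowerSeries.coeff 0) (qExpansion (m : ℝ) (fun _ : ℍ => (c : ℂ))) = _
    rw [h3, h2, qExpansion_one]
    simp
  have l3 := ((dJ_lowest m).pow T.card).mul l2
  rw [← map_pow, ← map_mul, ← e2] at l3
  simp only [one_mul, pow_one, mul_one, one_pow, add_zero] at l1 l3
  have hz : (∏ o ∈ T, zt (U m o)) ≠ 0 :=
    (IsUnitInt.prod _ _ fun o _ => isUnitInt_zt (U m o) (U10 m o) (U00 m o)).2.2
  obtain ⟨_, h⟩ := l3.unique l1 hc0 hz
  rw [h]
  exact IsUnitInt.prod _ _ fun o _ => isUnitInt_zt (U m o) (U10 m o) (U00 m o)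

variable (m T)

lemma PolT_root (A : DM m) (hA : mkO A ∈ T) (τ : ℍ) : (PolT m T τ).eval (jInv (toGL hm.out A • τ)) = 0 := by
  rw [PolT, Polynomial.eval_prod]
  refine Finset.prod_eq_zero hA ?_
  rw [slO_mk, slO_mk, sl_apply, sl_apply]
  simp only [Polynomial.eval_sub, Polynomial.eval_mul, Polynomial.eval_C, Polynomial.eval_X]
  rw [← jInv_mul (toGL hm.out A • τ)]
  ring

lemma PPT_natDegree : (PPT m T).natDegree ≤ T.card := by
  rw [PPT]
  refine (Polynomial.natDegree_prod_le _ _).trans ?_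
  refine (Finset.sum_le_card_nsmul _ _ 1 fun o _ => ?_).trans (by simp)
  refine (Polynomial.natDegree_sub_le _ _).trans (max_le ?_ (by simp))
  exact (Polynomial.natDegree_C_mul_le _ _).trans Polynomial.natDegree_X_le

lemma sumT_root (A : DM m) (hA : mkO A ∈ T) (τ : ℍ) :
    ∑ i ∈ Finset.range (T.card + 1), gT m T i τ * jInv (toGL hm.out A • τ) ^ i = 0 := by
  have h := PolT_root m T A hA τ
  rw [PolT_eq, Polynomial.eval_mul, Polynomial.eval_C] at h
  have h2 := (mul_eq_zero.1 h).resolve_left (kprodT_ne_zero m T)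
  rw [Polynomial.eval_map, Polynomial.eval₂_eq_sum_range' (ev m τ)
    (Nat.lt_succ_of_le (PPT_natDegree m T))] at h2
  exact h2

variable {m T}

/-! ### The truncated identity -/

/-- the coefficients of the product over the orbits, as power series -/
lemma qeT_coeff (hT : Stable m T) (i : ℕ) : qe (mpos m) ((PPT m T).coeff i).1 =
    ∑ l ∈ Finset.range (T.card + 1), PowerSeries.C (((ppT hT i).coeff l : OO) : ℂ) *
      (qe (mpos m) (eJ m) ^ l * qe (mpos m) (dJ m) ^ (T.card - l)) := by
  choose cst hcst hcst' using exists_const m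
  have hK : ((PPT m T).coeff i).1 = ∑ l ∈ Finset.range (T.card + 1),
      cst ((ppT hT i).coeff l : ℂ) * (eJ m ^ l * dJ m ^ (T.card - l)) := by
    apply Subtype.ext
    funext τ
    have h1 : ((PPT m T).coeff i).1.1 τ = gT m T i τ := rfl
    rw [h1, ppT_eval hT, Polynomial.eval₂_eq_sum_range' (algebraMap OO ℂ) (Nat.lt_succ_of_le (ppT_deg hT i)),
      Finset.mul_sum]
    have : (∑ l ∈ Finset.range (T.card + 1),
      cst ((ppT hT i).coeff l : ℂ) * (eJ m ^ l * dJ m ^ (T.card - l))).1 τ =
      (Pi.evalRingHom (fun _ : ℍ => ℂ) τ).comp (goodRing (m : ℝ)).subtype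
      (∑ l ∈ Finset.range (T.card + 1), cst ((ppT hT i).coeff l : ℂ) * (eJ m ^ l * dJ m ^ (T.card - l))) := rfl
    rw [this, map_sum]
    refine Finset.sum_congr rfl fun l hl => ?_
    rw [map_mul, map_mul, map_pow, map_pow]
    change _ = (cst ((ppT hT i).coeff l : ℂ)).1 τ * (Ecube τ ^ l * ModularForm.discriminant τ ^ (T.card - l))
    rw [hcst, ← jInv_mul τ]
    have h2 : T.card = l + (T.card - l) := by
      rw [Finset.mem_range] at hl
      omega
    conv_lhs => rw [h2, pow_add]
    have h3 : (algebraMap OO ℂ) ((ppT hT i).coeff l) = ((ppT hT i).coeff l : ℂ) := rfl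
    rw [h3]
    ring
  rw [hK, map_sum]
  refine Finset.sum_congr rfl fun l _ => ?_
  rw [map_mul, map_mul, map_pow, map_pow, hcst']

/-- the left side of the truncated identity -/
noncomputable def LHT (hT : Stable m T) (M : ℕ) : Polynomial (Polynomial OO) :=
  ∑ i ∈ Finset.range (T.card + 1), Polynomial.C (∑ l ∈ Finset.range (T.card + 1),
    Polynomial.C ((ppT hT i).coeff l) * (tr eS qexp_Ecube_mem 1 m.toNat M ^ l *
      tr dS qexp_disc_mem 1 m.toNat M ^ (T.card - l))) * Polynomial.X ^ i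

variable (m T)

/-- the right side of the truncated identity -/
noncomputable def RHT (M : ℕ) : Polynomial (Polynomial OO) :=
  ∏ o ∈ T, (Polynomial.C (tr dS qexp_disc_mem (zo m o) (ko m o) M) * Polynomial.X -
    Polynomial.C (tr eS qexp_Ecube_mem (zo m o) (ko m o) M))

lemma RHT_natDegree (M : ℕ) : (RHT m T M).natDegree ≤ T.card := by
  rw [RHT]
  refine (Polynomial.natDegree_prod_le _ _).trans ?_
  refine (Finset.sum_le_card_nsmul _ _ 1 fun o _ => ?_).trans (by simp)
  refine (Polynomial.natDegree_sub_le _ _).trans (max_le ?_ (by simp))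
  exact (Polynomial.natDegree_C_mul_le _ _).trans Polynomial.natDegree_X_le

variable {m T}

/-- **the truncated modular equation** -/
theorem dvd_diffT (hT : Stable m T) (M : ℕ) (i : ℕ) :
    (Polynomial.X : Polynomial OO) ^ M ∣ (LHT hT M).coeff i - (RHT m T M).coeff i := by
  rw [Polynomial.X_pow_dvd_iff]
  intro j hj
  have key : piM M (rho ((LHT hT M).coeff i)) = piM M (rho ((RHT m T M).coeff i)) := by
    have hR : piM M (rho ((RHT m T M).coeff i)) = piM M (qe (mpos m) ((PPT m T).coeff i).1) := by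
      have h1 : (RHT m T M).map ((piM M).comp rho) = (PPT m T).map ((piM M).comp ((qe (mpos m)).comp
          (RR m).subtype)) := by
        rw [RHT, PPT, Polynomial.map_prod, Polynomial.map_prod]
        refine Finset.prod_congr rfl fun o _ => ?_
        simp only [Polynomial.map_sub, Polynomial.map_mul, Polynomial.map_C, Polynomial.map_X,
          RingHom.comp_apply]
        rw [pi_dI, pi_eI]
        rfl
      have h2 := congrArg (fun P => Polynomial.coeff P i) h1
      rw [Polynomial.coeff_map, Polynomial.coeff_map] at h2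
      exact h2
    rw [hR]
    by_cases hi : i < T.card + 1
    · rw [qeT_coeff hT, LHT, Polynomial.finsetSum_coeff]
      simp only [Polynomial.coeff_C_mul, Polynomial.coeff_X_pow, mul_ite, mul_one, mul_zero]
      rw [Finset.sum_ite_eq, if_pos (Finset.mem_range.2 hi)]
      simp only [map_sum, map_mul, map_pow]
      refine Finset.sum_congr rfl fun l _ => ?_
      rw [pi_eJ, pi_dJ]
      congr 2
      unfold rho
      simp
    · have h0 : (PPT m T).coeff i = 0 := Polynomial.coeff_eq_zero_of_natDegree_lt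
        (lt_of_le_of_lt (PPT_natDegree m T) (by omega))
      rw [h0, LHT, Polynomial.finsetSum_coeff]
      simp only [Polynomial.coeff_C_mul, Polynomial.coeff_X_pow, mul_ite, mul_one, mul_zero]
      rw [Finset.sum_ite_eq, if_neg (by rwa [Finset.mem_range])]
      simp
  have h3 := (piM_eq_iff.1 key) j hj
  rw [rho_coeff, rho_coeff] at h3
  rw [Polynomial.coeff_sub, sub_eq_zero]
  exact Subtype.ext h3

end

end Pool.Agent.Helper20.ZT.Prim
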