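import Pool.Agent.Helper20.ZT.PrimRigG

/-! # Rigidity of Tate parameters for all valuations, sharp precision -/

open UpperHalfPlane ModularForm Complex Filter Function
open scoped Real MatrixGroups Topology Manifold

namespace Pool.Agent.Helper20.ZT.Prim
open Pool.Agent.Helper11.ZP Pool.Agent.Helper11.ZU Pool.Agent.Helper20.ZT

/-- rigidity for all valuations with the precision `p ^ min e f`: if `x`, `y` have the valuations of
`1 / p ^ e` and `1 / p ^ f`, then the level `m` is `e f g ^ 2 / gcd(e, f) ^ 2`, and the powers of `x`,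
`y` with the same valuation agree modulo `p ^ min e f` up to a root of unity of exact order `g` -/
def RigS {K : Type*} [Field K] (p : ℕ) (O : ValuationSubring K) (m : ℤ) (x y : K) : Prop :=
  ∀ e f : ℕ, 0 < e → 0 < f → O.valuation ((p : K) ^ e * x) = 1 → O.valuation ((p : K) ^ f * y) = 1 →
    ∃ (g : ℕ) (ζ w : K), 0 < g ∧ m * ((Nat.gcd e f : ℕ) : ℤ) ^ 2 = e * f * g ^ 2 ∧ IsPrimitiveRoot ζ g ∧
      w ∈ O ∧ x ^ (f / Nat.gcd e f) = ζ * y ^ (e / Nat.gcd e f) * (1 + (p : K) ^ min e f * w)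

section core
variable {m : ℤ} [hm : Fact (0 < m)] {T : Finset (Orb m)} (hT : Stable m T)
variable {K : Type*} [Field K] [Algebra ℂ K] (O : ValuationSubring K)

include hT in
/-- **rigidity over the orbits in `T`, all valuations, sharp precision** -/
theorem rig_coreS [IsAlgClosed K] {p : ℕ} (hp : (p : K) ∈ O.nonunits)
    (hp0 : (p : K) ≠ 0) {x y : K} {e₀ f₀ : ℕ} (he0 : 0 < e₀) (hf0 : 0 < f₀)
    (hrel : ∑ i ∈ Finset.range (T.card + 1), (ppT hT i).eval₂ (ph K) x * y ^ i = 0)
    (vpx : O.valuation ((p : K) ^ e₀ * x) = 1) (vpy : O.valuation ((p : K) ^ f₀ * y) = 1) :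
    ∃ o ∈ T, m.toNat * f₀ = ko m o * e₀ ∧ ∃ t : K, t ≠ 0 ∧ Cong O (p ^ min e₀ f₀) (x * t ^ m.toNat) ∧
      Cong O (p ^ min e₀ f₀) (y * (ph K (zo m o) * t ^ ko m o)) := by
  have hx0 : x ≠ 0 := by rintro rfl; rw [mul_zero, map_zero] at vpx; exact zero_ne_one vpx
  have hy0 : y ≠ 0 := by rintro rfl; rw [mul_zero, map_zero] at vpy; exact zero_ne_one vpy
  have vp := (val_non O).1 hp
  have vp0 : O.valuation (p : K) ≠ 0 := by rwa [ne_eq, Valuation.zero_iff]
  have vppos : 0 < O.valuation (p : K) := zero_lt_iff.2 vp0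
  set s := x⁻¹ with hs
  set w := y⁻¹ with hw
  have hs0 : s ≠ 0 := inv_ne_zero hx0
  have hw0 : w ≠ 0 := inv_ne_zero hy0
  have vs : O.valuation s = O.valuation (p : K) ^ e₀ := by
    have : (p : K) ^ e₀ = (p ^ e₀ * x) * s := by rw [hs]; field_simp
    rw [← map_pow, this, map_mul, vpx, one_mul]
  have vw : O.valuation w = O.valuation (p : K) ^ f₀ := by
    have : (p : K) ^ f₀ = (p ^ f₀ * y) * w := by rw [hw]; field_simp
    rw [← map_pow, this, map_mul, vpy, one_mul]
  have hple : ∀ k : ℕ, 0 < k → O.valuation (p : K) ^ k ≤ O.valuation (p : K) := fun k hk =>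
    pow_le_of_le_one zero_le vp.le hk.ne'
  have vs1 : O.valuation s < 1 := by rw [vs]; exact lt_of_le_of_lt (hple _ he0) vp
  have vw1 : O.valuation w < 1 := by rw [vw]; exact lt_of_le_of_lt (hple _ hf0) vp
  have hm' := mtoNat_pos m
  set n := m.toNat with hn
  set L := n ^ 2 + 3 * n with hL
  obtain ⟨q, hq, hqe⟩ := exists_param O (T.card * L) ((val_non O).2 vs1) hs0
  have vq1 := (val_non O).1 hq
  have hqO : q ∈ O := (val_mem O).2 vq1.le
  obtain ⟨e, he, hE⟩ := tr_E O (T.card * L) hqO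
  obtain ⟨d, hd, hD⟩ := tr_D O (T.card * L) hqO
  have m24 : (24 : K) ∈ O := by exact_mod_cast mem_ofNat O 24
  have m720 : (720 : K) ∈ O := by exact_mod_cast mem_ofNat O 720
  have m744 : (744 : K) ∈ O := by exact_mod_cast mem_ofNat O 744
  -- units
  have uE : ∀ r e : K, O.valuation r < 1 → e ∈ O → O.valuation (1 + 720 * r + r ^ 2 * e) = 1 := by
    intro r e hr he
    have hrO : r ∈ O := (val_mem O).2 hr.le
    rw [show 1 + 720 * r + r ^ 2 * e = 1 + r * (720 + r * e) by ring]
    exact unit_of_sub O (lt_one_mul O hr (mem_add O m720 (mem_mul O hrO he)))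
  have uD : ∀ r e : K, O.valuation r < 1 → e ∈ O → O.valuation (1 - 24 * r + r ^ 2 * e) = 1 := by
    intro r e hr he
    have hrO : r ∈ O := (val_mem O).2 hr.le
    rw [show 1 - 24 * r + r ^ 2 * e = 1 + r * (r * e - 24) by ring]
    exact unit_of_sub O (lt_one_mul O hr (mem_sub O (mem_mul O hrO he) m24))
  have vE := uE q e vq1 he
  have vD := uD q d vq1 hd
  rw [hE, hD] at hqe
  have vq : O.valuation q = O.valuation (p : K) ^ e₀ := by
    have h1 : q * (1 - 24 * q + q ^ 2 * d) = s * (1 + 720 * q + q ^ 2 * e) := by rw [← hqe]; ring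
    have h2 := congrArg O.valuation h1
    rwa [val_mul_unit O vD, val_mul_unit O vE, vs] at h2
  have hq0 : q ≠ 0 := by
    intro h
    rw [h, map_zero] at vq
    exact pow_ne_zero _ vp0 vq.symm
  obtain ⟨t, ht⟩ := IsAlgClosed.exists_pow_nat_eq q hm'
  have ht0 : t ≠ 0 := by
    rintro rfl
    rw [zero_pow hm'.ne'] at ht
    exact hq0 ht.symm
  have vt1 : O.valuation t < 1 := by
    by_contra hcon
    push Not at hcon
    have h1 : 1 ≤ O.valuation t ^ n := one_le_pow₀ hcon
    rw [← map_pow, ht] at h1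
    exact absurd vq1 (not_lt.2 h1)
  have vt0 : 0 < O.valuation t := zero_lt_iff.2 (by rwa [ne_eq, Valuation.zero_iff])
  have htO : t ∈ O := (val_mem O).2 vt1.le
  have hwO : w ∈ O := (val_mem O).2 vw1.le
  -- the product
  have hLz : (LHT hT (T.card * L + 3)).eval₂ (Polynomial.eval₂RingHom (ph K) t) w⁻¹ = 0 := by
    apply LHT_zero hT (T.card * L + 3) (x := x)
    · rw [ht, hE, hD, hqe, hs]
      field_simp
    · rw [hw, inv_inv]; exact hrel
  have hsm := small_prodT hT O (T.card * L + 3) htO hwO hw0 hLz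
  have hmono : ∀ {a b : ℕ}, a ≤ b → O.valuation t ^ b ≤ O.valuation t ^ a := fun h =>
    pow_le_pow_right_of_le_one' vt1.le h
  have hex : ∃ o ∈ T, O.valuation ((tr dS qexp_disc_mem 1 1 (T.card * L + 3)).eval₂ (ph K)
      (ph K (zo m o) * t ^ ko m o) - (tr eS qexp_Ecube_mem 1 1 (T.card * L + 3)).eval₂ (ph K)
      (ph K (zo m o) * t ^ ko m o) * w) ≤ O.valuation t ^ L := by
    by_contra hcon
    push Not at hcon
    rcases T.eq_empty_or_nonempty with hem | hne
    · rw [hem, Finset.prod_empty, map_one] at hsm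
      exact absurd (pow_lt_one₀ zero_le vt1 (by omega)) (not_lt.2 hsm)
    · have h1 := val_prod T _ (pow_pos vt0 L) hne (fun o ho => hcon o ho)
      rw [← map_prod, ← pow_mul, mul_comm] at h1
      exact absurd (hsm.trans (hmono (Nat.le_add_right _ _))) (not_le.2 h1)
  obtain ⟨o, hoT, ho⟩ := hex
  set z := ph K (zo m o) with hz
  set k := ko m o with hk
  set r := z * t ^ k with hr
  have hkpos : 0 < k := ko_pos m o
  obtain ⟨N, hN, hzN⟩ := zo_pow m o
  have hzN' : z ^ N = 1 := by rw [hz, ← map_pow, hzN, map_one]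
  have vz : O.valuation z = 1 := val_root_one O hN hzN'
  have hz0 : z ≠ 0 := by
    intro h
    rw [h, map_zero] at vz
    exact zero_ne_one vz
  have hzO : z ∈ O := (val_mem O).2 vz.le
  have vr : O.valuation r = O.valuation t ^ k := by rw [hr, map_mul, vz, one_mul, map_pow]
  have vr1 : O.valuation r < 1 := by rw [vr]; exact pow_lt_one₀ zero_le vt1 hkpos.ne'
  have hrO : r ∈ O := (val_mem O).2 vr1.le
  have hr0 : r ≠ 0 := by rw [hr]; exact mul_ne_zero hz0 (pow_ne_zero _ ht0)
  obtain ⟨e', he', hE'⟩ := tr_E O (T.card * L) hrO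
  obtain ⟨d', hd', hD'⟩ := tr_D O (T.card * L) hrO
  have vE' := uE r e' vr1 he'
  have vD' := uD r d' vr1 hd'
  rw [hE', hD'] at ho
  set ε := (r - 24 * r ^ 2 + r ^ 3 * d') - (1 + 720 * r + r ^ 2 * e') * w with hε
  have hkle : k ≤ n ^ 2 := ko_le m o
  have hkL : k < L := by rw [hL]; omega
  have hlt : O.valuation ε < O.valuation r := by
    rw [vr]
    refine lt_of_le_of_lt ho ?_
    exact pow_lt_pow_right_of_lt_one₀ vt0 vt1 hkL
  have vDr : O.valuation (r - 24 * r ^ 2 + r ^ 3 * d') = O.valuation r := by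
    rw [show r - 24 * r ^ 2 + r ^ 3 * d' = r * (1 - 24 * r + r ^ 2 * d') by ring, val_mul_unit O vD']
  have vw2 : O.valuation w = O.valuation r := by
    have h1 : w * (1 + 720 * r + r ^ 2 * e') = (r - 24 * r ^ 2 + r ^ 3 * d') + (-ε) := by rw [hε]; ring
    have h2 := congrArg O.valuation h1
    rwa [val_mul_unit O vE', val_add_of_lt O (by rwa [Valuation.map_neg, vDr]), vDr] at h2
  -- the exponents
  have hkn : n * f₀ = k * e₀ := by
    have h0 : O.valuation t ^ n = O.valuation (p : K) ^ e₀ := by rw [← map_pow, ht, vq]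
    have h1 : O.valuation (p : K) ^ (n * f₀) = O.valuation (p : K) ^ (k * e₀) := by
      calc O.valuation (p : K) ^ (n * f₀) = (O.valuation (p : K) ^ f₀) ^ n := by rw [mul_comm, pow_mul]
        _ = (O.valuation t ^ k) ^ n := by rw [← vw, vw2, vr]
        _ = (O.valuation t ^ n) ^ k := by rw [← pow_mul, ← pow_mul, mul_comm]
        _ = O.valuation (p : K) ^ (k * e₀) := by rw [h0, ← pow_mul, mul_comm]
    by_contra hne
    rcases lt_or_gt_of_ne hne with h | h
    · exact absurd h1 (ne_of_gt (pow_lt_pow_right_of_lt_one₀ vppos vp h))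
    · exact absurd h1 (ne_of_lt (pow_lt_pow_right_of_lt_one₀ vppos vp h))
  have hdiv : ∀ a b : K, a ∈ O → O.valuation b = 1 → a / b ∈ O := by
    intro a b ha hb
    rw [val_mem, map_div₀, hb, div_one]
    exact (val_mem O).1 ha
  have hPc : ((p ^ min e₀ f₀ : ℕ) : K) = (p : K) ^ min e₀ f₀ := by push_cast; rfl
  set P : K := ((p ^ min e₀ f₀ : ℕ) : K) with hPd
  have vP : O.valuation P = O.valuation (p : K) ^ min e₀ f₀ := by rw [hPc, map_pow]
  have hP0 : P ≠ 0 := by rw [hPc]; exact pow_ne_zero _ hp0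
  have hmonoP : ∀ {a b : ℕ}, a ≤ b → O.valuation (p : K) ^ b ≤ O.valuation (p : K) ^ a := fun h =>
    pow_le_pow_right_of_le_one' vp.le h
  have vPe : O.valuation (p : K) ^ e₀ ≤ O.valuation P := by rw [vP]; exact hmonoP (min_le_left _ _)
  have vPf : O.valuation (p : K) ^ f₀ ≤ O.valuation P := by rw [vP]; exact hmonoP (min_le_right _ _)
  have vP1 : O.valuation P < 1 := by
    rw [vP]
    exact lt_of_le_of_lt (hple _ (lt_min he0 hf0)) vp
  have hqp : q / P ∈ O := by
    rw [val_mem, map_div₀, vq]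
    exact div_le_one_of_le₀ vPe zero_le
  have hrp : r / P ∈ O := by
    rw [val_mem, map_div₀, ← vw2, vw]
    exact div_le_one_of_le₀ vPf zero_le
  have hεp : ε / (r * P) ∈ O := by
    rw [val_mem, map_div₀, map_mul, vr]
    have h1 : O.valuation ε ≤ O.valuation t ^ k * O.valuation P := by
      refine ho.trans ?_
      have h2 : O.valuation t ^ L ≤ O.valuation t ^ (k + n) := hmono (by rw [hL]; omega)
      refine h2.trans ?_
      rw [pow_add]
      refine mul_le_mul_right ?_ _
      have h0 : O.valuation t ^ n = O.valuation (p : K) ^ e₀ := by rw [← map_pow, ht, vq]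
      rw [h0]
      exact vPe
    exact div_le_one_of_le₀ h1 zero_le
  have hDne : (1 - 24 * q + q ^ 2 * d) ≠ 0 := by
    intro h; rw [h, map_zero] at vD; exact zero_ne_one vD
  have hxq : x * (q * (1 - 24 * q + q ^ 2 * d)) = 1 + 720 * q + q ^ 2 * e := by
    rw [show q * (1 - 24 * q + q ^ 2 * d) = q - 24 * q ^ 2 + q ^ 3 * d by ring, hqe, hs]
    field_simp
  refine ⟨o, hoT, hkn, t, ht0, ?_, ?_⟩
  · rw [ht]
    refine ⟨(q / P) * ((744 + q * e - q * d) / (1 - 24 * q + q ^ 2 * d)), ?_, ?_⟩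
    · exact mem_mul O hqp (hdiv _ _ (mem_sub O (mem_add O m744 (mem_mul O hqO he)) (mem_mul O hqO hd)) vD)
    · have h1 : P * (q / P * ((744 + q * e - q * d) / (1 - 24 * q + q ^ 2 * d))) =
          q * ((744 + q * e - q * d) / (1 - 24 * q + q ^ 2 * d)) := by field_simp
      rw [h1]
      apply mul_right_cancel₀ hDne
      have h2 : (744 + q * e - q * d) / (1 - 24 * q + q ^ 2 * d) * (1 - 24 * q + q ^ 2 * d) =
        744 + q * e - q * d := div_mul_cancel₀ _ hDne
      linear_combination hxq - q * h2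
  · have vB : O.valuation (1 - 24 * r + r ^ 2 * d' - P * (ε / (r * P))) = 1 := by
      rw [sub_eq_add_neg, val_add_of_lt O, vD']
      rw [vD', Valuation.map_neg]
      exact lt_one_mul O vP1 hεp
    have hBne : (1 - 24 * r + r ^ 2 * d' - P * (ε / (r * P))) ≠ 0 := by
      intro h; rw [h, map_zero] at vB; exact zero_ne_one vB
    have hεr : P * (ε / (r * P)) * r = ε := by field_simp
    have hyr : y * (r * (1 - 24 * r + r ^ 2 * d' - P * (ε / (r * P)))) = 1 + 720 * r + r ^ 2 * e' := by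
      have h1 : r * (1 - 24 * r + r ^ 2 * d' - P * (ε / (r * P))) = (1 + 720 * r + r ^ 2 * e') * w := by
        have h2 : (1 + 720 * r + r ^ 2 * e') * w = (r - 24 * r ^ 2 + r ^ 3 * d') - ε := by rw [hε]; ring
        rw [h2]
        linear_combination -hεr
      rw [h1, hw]
      field_simp
    refine ⟨((r / P) * (744 + r * e' - r * d') + ε / (r * P)) /
      (1 - 24 * r + r ^ 2 * d' - P * (ε / (r * P))), ?_, ?_⟩
    · exact hdiv _ _ (mem_add O (mem_mul O hrp (mem_sub O (mem_add O m744 (mem_mul O hrO he'))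
        (mem_mul O hrO hd'))) hεp) vB
    · apply mul_right_cancel₀ hBne
      have h2 : ((r / P) * (744 + r * e' - r * d') + ε / (r * P)) /
        (1 - 24 * r + r ^ 2 * d' - P * (ε / (r * P))) * (1 - 24 * r + r ^ 2 * d' - P * (ε / (r * P))) =
        (r / P) * (744 + r * e' - r * d') + ε / (r * P) := div_mul_cancel₀ _ hBne
      have h3 : P * (r / P) = r := by field_simp
      linear_combination hyr - P * h2 - (744 + r * e' - r * d') * h3

end core

/-- **rigidity for the primitive modular polynomial, all valuations, sharp precision** -/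
theorem primPoly_rigS (m : ℤ) [hm : Fact (0 < m)] (K : Type) [Field K] [IsAlgClosed K] [Algebra ℂ K]
    (O : ValuationSubring K) (p : ℕ) (hp0 : p ≠ 0) (hp : (p : K) ∈ O.nonunits) (x y : K)
    (h : (primPoly m).eval₂ (Polynomial.eval₂RingHom ((algebraMap ℂ K).comp (algebraMap OO ℂ)) x) y = 0) :
    RigS p O m x y := by
  intro e f he hf vx vy
  have hchar : CharZero K := charZero_of_injective_algebraMap (algebraMap ℂ K).injective
  obtain ⟨o, ho, hk, t, ht0, c1, c2⟩ := rig_coreS (TP_stable m) O hp (by exact_mod_cast hp0) he hf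
    (primPoly_sum m h) vx vy
  obtain ⟨g, hg, hgm, hexp, hroot⟩ := TP_rootG m ho he hk
  set h' := Nat.gcd e f with hh
  set e' := e / h' with he'
  set f' := f / h' with hf'
  have hPc : ((p ^ min e f : ℕ) : K) = (p : K) ^ min e f := by push_cast; rfl
  have hP : ((p ^ min e f : ℕ) : K) ∈ O.nonunits := by
    rw [val_non, hPc, map_pow]
    exact pow_lt_one₀ zero_le ((val_non O).1 hp) (lt_min he hf).ne'
  have hc := (c1.pow f').div hP (c2.pow e')
  obtain ⟨w, hw, hwe⟩ := hc
  refine ⟨g, (ph K (zo m o)) ^ e', w, hg, hgm, ?_, hw, ?_⟩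
  · rw [← map_pow]
    exact hroot.map_of_injective (algebraMap ℂ K).injective
  · rw [← hPc, ← hwe]
    have hc2 := (c2.pow e').val hP
    have hc20 : (y * (ph K (zo m o) * t ^ ko m o)) ^ e' ≠ 0 := by
      intro h0
      rw [h0, map_zero] at hc2
      exact zero_ne_one hc2
    have ht : (t ^ m.toNat) ^ f' = (t ^ ko m o) ^ e' := by
      rw [← pow_mul, ← pow_mul, hexp]
    rw [mul_div_assoc', eq_div_iff hc20]
    rw [mul_pow, mul_pow, mul_pow, ht]
    ring

end Pool.Agent.Helper20.ZT.Prim
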