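import Pool.Agent.Helper20.ZT.Formal
import Pool.Agent.Helper20.ZT.Defs

/-! # Rigidity of Tate parameters modulo `p ^ 2` -/

open UpperHalfPlane ModularForm Complex Filter Function
open scoped Real MatrixGroups Topology Manifold

namespace Pool.Agent.Helper20.ZT
open Pool.Agent.Helper11.ZP

/-! ### The first coefficients -/

lemma sig3 : Lowest (PowerSeries.mk (fun n => ((ArithmeticFunction.sigma 3 n : ℕ) : ℂ))) 1 1 := by
  refine ⟨fun i hi => ?_, ?_⟩
  · obtain rfl : i = 0 := by omega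
    rw [PowerSeries.coeff_mk]; simp
  · rw [PowerSeries.coeff_mk]; simp

lemma sig5 : Lowest (PowerSeries.mk (fun n => ((ArithmeticFunction.sigma 5 n : ℕ) : ℂ))) 1 1 := by
  refine ⟨fun i hi => ?_, ?_⟩
  · obtain rfl : i = 0 := by omega
    rw [PowerSeries.coeff_mk]; simp
  · rw [PowerSeries.coeff_mk]; simp

lemma eS_eq : eS = 1 + PowerSeries.C (720 : ℂ) * PowerSeries.mk (fun n => ((ArithmeticFunction.sigma 3 n : ℕ) : ℂ))
    + PowerSeries.C (172800 : ℂ) * PowerSeries.mk (fun n => ((ArithmeticFunction.sigma 3 n : ℕ) : ℂ)) ^ 2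
    + PowerSeries.C (13824000 : ℂ) * PowerSeries.mk (fun n => ((ArithmeticFunction.sigma 3 n : ℕ) : ℂ)) ^ 3 := by
  unfold eS
  rw [qexp_Ecube, qexp_E4]
  have e1 : PowerSeries.C (720 : ℂ) = 720 := map_ofNat PowerSeries.C 720
  have e2 : PowerSeries.C (172800 : ℂ) = 172800 := map_ofNat PowerSeries.C 172800
  have e3 : PowerSeries.C (13824000 : ℂ) = 13824000 := map_ofNat PowerSeries.C 13824000
  rw [e1, e2, e3]
  ring

lemma eS_zero : PowerSeries.coeff 0 eS = 1 := qexp_Ecube_lowest.2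

lemma eS_one : PowerSeries.coeff 1 eS = 720 := by
  rw [eS_eq]
  simp only [map_add, PowerSeries.coeff_C_mul]
  rw [(sig3.pow 2).1 1 (by norm_num), (sig3.pow 3).1 1 (by norm_num), sig3.2, PowerSeries.coeff_one]
  norm_num

lemma dS_zero : PowerSeries.coeff 0 dS = 0 := qexp_disc_lowest.1 0 (by norm_num)

lemma dS_one : PowerSeries.coeff 1 dS = 1 := qexp_disc_lowest.2

lemma dS_two : PowerSeries.coeff 2 dS = -24 := by
  unfold dS
  rw [qexp_disc_eq, ← qexp_Ecube]
  have h6 : qExpansion 1 (E₆ : ℍ → ℂ) ^ 2 = 1 - PowerSeries.C (1008 : ℂ) *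
      PowerSeries.mk (fun n => ((ArithmeticFunction.sigma 5 n : ℕ) : ℂ)) + PowerSeries.C (254016 : ℂ) *
      PowerSeries.mk (fun n => ((ArithmeticFunction.sigma 5 n : ℕ) : ℂ)) ^ 2 := by
    rw [qexp_E6]
    have e1 : PowerSeries.C (1008 : ℂ) = 1008 := map_ofNat PowerSeries.C 1008
    have e2 : PowerSeries.C (254016 : ℂ) = 254016 := map_ofNat PowerSeries.C 254016
    rw [e1, e2]
    ring
  have hE : qExpansion 1 Ecube = eS := rfl
  rw [h6, hE, eS_eq]
  have a2 := (sig3.pow 2).2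
  have a3 := (sig3.pow 3).1 2 (by norm_num)
  have b2 := (sig5.pow 2).2
  simp only [mul_one, one_pow] at a2 b2
  simp only [map_add, map_sub, PowerSeries.coeff_C_mul]
  rw [a2, a3, b2, PowerSeries.coeff_one, PowerSeries.coeff_mk, PowerSeries.coeff_mk]
  have s3 : ArithmeticFunction.sigma 3 2 = 9 := by decide +kernel
  have s5 : ArithmeticFunction.sigma 5 2 = 33 := by decide +kernel
  rw [s3, s5]
  norm_num

/-! ### Evaluation in a valued field -/

section
variable {K : Type*} [Field K] [Algebra ℂ K] (O : ValuationSubring K)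

/-- the structure map on the algebraic integers -/
noncomputable abbrev ph (K : Type*) [Field K] [Algebra ℂ K] : OO →+* K := (algebraMap ℂ K).comp (algebraMap OO ℂ)

lemma ph_mem (a : OO) : ph K a ∈ O := by
  apply mem_of_isIntegral_int
  have h1 : IsIntegral ℤ (a : ℂ) := a.2
  exact h1.map (algebraMap ℂ K).toIntAlgHom

lemma eval_mem (f : Polynomial OO) {t : K} (ht : t ∈ O) : f.eval₂ (ph K) t ∈ O := by
  rw [Polynomial.eval₂_eq_sum_range]
  exact O.toSubring.sum_mem fun i _ => O.toSubring.mul_mem (ph_mem O _) (O.toSubring.pow_mem ht _)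

lemma tr_succ (φ : PowerSeries ℂ) (hφ : φ ∈ intPS) (M : ℕ) {q : K} :
    (tr φ hφ 1 1 M).eval₂ (ph K) q = ∑ i ∈ Finset.range M, algebraMap ℂ K (PowerSeries.coeff i φ) * q ^ i := by
  unfold tr
  rw [Polynomial.eval₂_finsetSum]
  refine Finset.sum_congr rfl fun i _ => ?_
  rw [Polynomial.eval₂_mul, Polynomial.eval₂_C, Polynomial.eval₂_X_pow, one_pow, mul_one, one_mul]
  rfl

lemma tr_E (M : ℕ) {q : K} (hq : q ∈ O) : ∃ e ∈ O,
    (tr eS qexp_Ecube_mem 1 1 (M + 3)).eval₂ (ph K) q = 1 + 720 * q + q ^ 2 * e := by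
  refine ⟨∑ i ∈ Finset.range (M + 1), algebraMap ℂ K (PowerSeries.coeff (i + 2) eS) * q ^ i, ?_, ?_⟩
  · exact O.toSubring.sum_mem fun i _ => O.toSubring.mul_mem (ph_mem O ⟨_, qexp_Ecube_mem _⟩)
      (O.toSubring.pow_mem hq _)
  · rw [tr_succ, Finset.sum_range_succ', Finset.sum_range_succ', Finset.mul_sum]
    have e0 : algebraMap ℂ K (PowerSeries.coeff 0 eS) = 1 := by rw [eS_zero, map_one]
    have e1 : algebraMap ℂ K (PowerSeries.coeff (0 + 1) eS) = 720 := by
      rw [zero_add, eS_one]; exact map_ofNat _ 720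
    rw [e0, e1]
    have : ∀ i, algebraMap ℂ K (PowerSeries.coeff (i + 1 + 1) eS) * q ^ (i + 1 + 1)
        = q ^ 2 * (algebraMap ℂ K (PowerSeries.coeff (i + 2) eS) * q ^ i) := by
      intro i; ring
    simp only [this]
    ring

lemma tr_D (M : ℕ) {q : K} (hq : q ∈ O) : ∃ d ∈ O,
    (tr dS qexp_disc_mem 1 1 (M + 3)).eval₂ (ph K) q = q - 24 * q ^ 2 + q ^ 3 * d := by
  refine ⟨∑ i ∈ Finset.range M, algebraMap ℂ K (PowerSeries.coeff (i + 3) dS) * q ^ i, ?_, ?_⟩
  · exact O.toSubring.sum_mem fun i _ => O.toSubring.mul_mem (ph_mem O ⟨_, qexp_disc_mem _⟩)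
      (O.toSubring.pow_mem hq _)
  · rw [tr_succ, Finset.sum_range_succ', Finset.sum_range_succ', Finset.sum_range_succ', Finset.mul_sum]
    have e0 : algebraMap ℂ K (PowerSeries.coeff 0 dS) = 0 := by rw [dS_zero, map_zero]
    have e1 : algebraMap ℂ K (PowerSeries.coeff (0 + 1) dS) = 1 := by
      rw [zero_add, dS_one, map_one]
    have e2 : algebraMap ℂ K (PowerSeries.coeff (0 + 1 + 1) dS) = -24 := by
      rw [zero_add, dS_two, map_neg]; congr 1; exact map_ofNat _ 24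
    rw [e0, e1, e2]
    have : ∀ i, algebraMap ℂ K (PowerSeries.coeff (i + 1 + 1 + 1) dS) * q ^ (i + 1 + 1 + 1)
        = q ^ 3 * (algebraMap ℂ K (PowerSeries.coeff (i + 3) dS) * q ^ i) := by
      intro i; ring
    simp only [this]
    ring

end

section val
variable {K : Type*} [Field K] (O : ValuationSubring K)

lemma val_mem {a : K} : a ∈ O ↔ O.valuation a ≤ 1 := (O.valuation_le_one_iff a).symm

lemma val_non {a : K} : a ∈ O.nonunits ↔ O.valuation a < 1 := O.mem_nonunits_iff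

/-- a product of valuations -/
lemma val_prod {Γ : Type*} [LinearOrderedCommGroupWithZero Γ] {ι : Type*} (s : Finset ι) (f : ι → Γ) {c : Γ}
    (hc : 0 < c) (hs : s.Nonempty) (h : ∀ i ∈ s, c < f i) : c ^ s.card < ∏ i ∈ s, f i := by
  classical
  induction hs using Finset.Nonempty.cons_induction with
  | singleton a => simpa using h a (by simp)
  | cons a s ha hs ih =>
    rw [Finset.card_cons, Finset.prod_cons, pow_succ, mul_comm]
    have h1 := h a (Finset.mem_cons_self _ _)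
    have h2 := ih fun i hi => h i (Finset.mem_cons_of_mem hi)
    exact mul_lt_mul'' h1 h2 hc.le (pow_pos hc _).le

lemma val_root_one {z : K} {N : ℕ} (hN : 0 < N) (hz : z ^ N = 1) : O.valuation z = 1 := by
  have h : O.valuation z ^ N = 1 := by rw [← map_pow, hz, map_one]
  exact (pow_eq_one_iff.1 h).resolve_right hN.ne'

lemma val_add_of_lt {a b : K} (h : O.valuation b < O.valuation a) :
    O.valuation (a + b) = O.valuation a := Valuation.map_add_eq_of_lt_left _ h

end val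

section core
variable {K : Type*} [Field K] [Algebra ℂ K] (O : ValuationSubring K)

/-- the parameter of a non-integral element -/
lemma exists_param [IsAlgClosed K] (M : ℕ) {s : K} (hs : s ∈ O.nonunits) (hs0 : s ≠ 0) :
    ∃ q ∈ O.nonunits, (tr dS qexp_disc_mem 1 1 (M + 3)).eval₂ (ph K) q =
      s * (tr eS qexp_Ecube_mem 1 1 (M + 3)).eval₂ (ph K) q := by
  set D := (tr dS qexp_disc_mem 1 1 (M + 3)).map (ph K) with hD
  set E := (tr eS qexp_Ecube_mem 1 1 (M + 3)).map (ph K) with hE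
  set f := D - Polynomial.C s * E with hf
  have hev : ∀ q : K, f.eval q = (tr dS qexp_disc_mem 1 1 (M + 3)).eval₂ (ph K) q -
      s * (tr eS qexp_Ecube_mem 1 1 (M + 3)).eval₂ (ph K) q := by
    intro q
    rw [hf, Polynomial.eval_sub, Polynomial.eval_mul, Polynomial.eval_C, hD, hE, Polynomial.eval_map,
      Polynomial.eval_map]
  have hcoe : ∀ i, f.coeff i = ph K ((tr dS qexp_disc_mem 1 1 (M + 3)).coeff i) -
      s * ph K ((tr eS qexp_Ecube_mem 1 1 (M + 3)).coeff i) := by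
    intro i
    rw [hf, Polynomial.coeff_sub, Polynomial.coeff_C_mul, hD, hE, Polynomial.coeff_map, Polynomial.coeff_map]
  have c0 : f.coeff 0 = -s := by
    rw [hcoe]
    have h1 : ph K ((tr dS qexp_disc_mem 1 1 (M + 3)).coeff 0) = 0 := by
      change algebraMap ℂ K (((tr dS qexp_disc_mem 1 1 (M + 3)).coeff 0 : OO) : ℂ) = 0
      rw [tr_coeff _ _ _ one_pos (by omega), if_pos (dvd_zero _), Nat.zero_div, dS_zero, zero_mul, map_zero]
    have h2 : ph K ((tr eS qexp_Ecube_mem 1 1 (M + 3)).coeff 0) = 1 := by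
      change algebraMap ℂ K (((tr eS qexp_Ecube_mem 1 1 (M + 3)).coeff 0 : OO) : ℂ) = 1
      rw [tr_coeff _ _ _ one_pos (by omega), if_pos (dvd_zero _), Nat.zero_div, eS_zero]
      simp
    rw [h1, h2]; ring
  have c1 : f.coeff 1 = 1 - s * 720 := by
    rw [hcoe]
    have h1 : ph K ((tr dS qexp_disc_mem 1 1 (M + 3)).coeff 1) = 1 := by
      change algebraMap ℂ K (((tr dS qexp_disc_mem 1 1 (M + 3)).coeff 1 : OO) : ℂ) = 1
      rw [tr_coeff _ _ _ one_pos (by omega), if_pos (dvd_refl _), Nat.div_self one_pos, dS_one]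
      simp
    have h2 : ph K ((tr eS qexp_Ecube_mem 1 1 (M + 3)).coeff 1) = 720 := by
      change algebraMap ℂ K (((tr eS qexp_Ecube_mem 1 1 (M + 3)).coeff 1 : OO) : ℂ) = 720
      rw [tr_coeff _ _ _ one_pos (by omega), if_pos (dvd_refl _), Nat.div_self one_pos, eS_one]
      simp only [OneMemClass.coe_one, one_pow, mul_one]
      exact map_ofNat _ 720
    rw [h1, h2]
  have hf0 : f.eval 0 = -s := by rw [← c0, Polynomial.coeff_zero_eq_eval_zero]
  have hd0 : f.derivative.eval 0 = 1 - s * 720 := by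
    rw [← c1, ← Polynomial.coeff_zero_eq_eval_zero, Polynomial.coeff_derivative]
    simp
  by_contra hcon
  push Not at hcon
  have hne : f.eval 0 ≠ 0 := by rw [hf0]; exact neg_ne_zero.2 hs0
  have hder := (IsAlgClosed.splits f).eval_derivative_div_eval_of_ne_zero hne
  have hmem : f.derivative.eval 0 / f.eval 0 ∈ O := by
    rw [hder]
    refine Subring.multiset_sum_mem O.toSubring _ fun a ha => ?_
    rw [Multiset.mem_map] at ha
    obtain ⟨r, hr, rfl⟩ := ha
    have hr0 : f.eval r = 0 := (Polynomial.mem_roots'.1 hr).2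
    have hrn : r ∉ O.nonunits := by
      intro h
      apply hcon r h
      have := hev r
      rw [hr0] at this
      exact (sub_eq_zero.1 this.symm)
    rw [val_non, not_lt] at hrn
    have : O.valuation ((0 - r)⁻¹) ≤ 1 := by
      rw [zero_sub, map_inv₀, Valuation.map_neg]
      exact inv_le_one_of_one_le₀ hrn
    have h2 := (val_mem O).2 this
    simpa using h2
  rw [hf0, hd0, val_mem, map_div₀, Valuation.map_neg] at hmem
  have hsv := (val_non O).1 hs
  have h720 : O.valuation (s * 720) < 1 := by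
    rw [map_mul]
    have : O.valuation (720 : K) ≤ 1 := by
      rw [← val_mem]
      exact ofNat_mem O 720
    calc O.valuation s * O.valuation 720 ≤ O.valuation s * 1 := mul_le_mul_right this _
      _ < 1 := by rwa [mul_one]
  have h1 : O.valuation (1 - s * 720) = 1 := by
    rw [sub_eq_add_neg, val_add_of_lt O (by rwa [Valuation.map_neg, map_one]), map_one]
  rw [h1, one_div] at hmem
  have hs1 : O.valuation s ≠ 0 := by rwa [ne_eq, Valuation.zero_iff]
  exact absurd hmem (not_le.2 ((one_lt_inv₀ (zero_lt_iff.2 hs1)).2 hsv))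


/-- evaluation of the left side -/
lemma LH_eval (m : ℤ) [Fact (0 < m)] (M : ℕ) (t y : K) :
    (LH m M).eval₂ (Polynomial.eval₂RingHom (ph K) t) y =
      ∑ i ∈ Finset.range (ss m + 1), (∑ l ∈ Finset.range (ss m + 1), ph K ((pp m i).coeff l) *
        ((tr eS qexp_Ecube_mem 1 1 M).eval₂ (ph K) (t ^ m.toNat) ^ l *
          (tr dS qexp_disc_mem 1 1 M).eval₂ (ph K) (t ^ m.toNat) ^ (ss m - l))) * y ^ i := by
  rw [LH, Polynomial.eval₂_finsetSum]
  refine Finset.sum_congr rfl fun i _ => ?_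
  rw [Polynomial.eval₂_mul, Polynomial.eval₂_X_pow, Polynomial.eval₂_C]
  congr 1
  rw [Polynomial.coe_eval₂RingHom, Polynomial.eval₂_finsetSum]
  refine Finset.sum_congr rfl fun l _ => ?_
  rw [Polynomial.eval₂_mul, Polynomial.eval₂_mul, Polynomial.eval₂_pow, Polynomial.eval₂_pow,
    Polynomial.eval₂_C, tr_eval (ph K) eS qexp_Ecube_mem 1 m.toNat M t,
    tr_eval (ph K) dS qexp_disc_mem 1 m.toNat M t, map_one, one_mul]

lemma RH_eval (m : ℤ) [Fact (0 < m)] (M : ℕ) (t y : K) :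
    (RH m M).eval₂ (Polynomial.eval₂RingHom (ph K) t) y =
      ∏ o : Orb m, ((tr dS qexp_disc_mem 1 1 M).eval₂ (ph K) (ph K (zo m o) * t ^ ko m o) * y -
        (tr eS qexp_Ecube_mem 1 1 M).eval₂ (ph K) (ph K (zo m o) * t ^ ko m o)) := by
  rw [RH, Polynomial.eval₂_finsetProd]
  refine Finset.prod_congr rfl fun o _ => ?_
  rw [Polynomial.eval₂_sub, Polynomial.eval₂_mul, Polynomial.eval₂_X, Polynomial.eval₂_C,
    Polynomial.eval₂_C, Polynomial.coe_eval₂RingHom,
    tr_eval (ph K) eS qexp_Ecube_mem (zo m o) (ko m o) M t,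
    tr_eval (ph K) dS qexp_disc_mem (zo m o) (ko m o) M t]

lemma LH_natDegree (m : ℤ) [Fact (0 < m)] (M : ℕ) : (LH m M).natDegree ≤ ss m := by
  rw [LH]
  refine Polynomial.natDegree_sum_le_of_forall_le _ _ fun i hi => ?_
  rw [Finset.mem_range] at hi
  exact (Polynomial.natDegree_C_mul_X_pow_le _ _).trans (by omega)

/-- the value of the right side is small if the value of the left side is zero -/
lemma small_prod (m : ℤ) [Fact (0 < m)] (M : ℕ) {t w : K} (ht : t ∈ O) (hw : w ∈ O) (hw0 : w ≠ 0)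
    (hL : (LH m M).eval₂ (Polynomial.eval₂RingHom (ph K) t) w⁻¹ = 0) :
    O.valuation (∏ o : Orb m, ((tr dS qexp_disc_mem 1 1 M).eval₂ (ph K) (ph K (zo m o) * t ^ ko m o) -
        (tr eS qexp_Ecube_mem 1 1 M).eval₂ (ph K) (ph K (zo m o) * t ^ ko m o) * w))
      ≤ O.valuation t ^ M := by
  have h1 := RH_eval (K := K) m M t w⁻¹
  have h2 : ∏ o : Orb m, ((tr dS qexp_disc_mem 1 1 M).eval₂ (ph K) (ph K (zo m o) * t ^ ko m o) -
        (tr eS qexp_Ecube_mem 1 1 M).eval₂ (ph K) (ph K (zo m o) * t ^ ko m o) * w)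
      = w ^ ss m * (RH m M).eval₂ (Polynomial.eval₂RingHom (ph K) t) w⁻¹ := by
    have hcard : w ^ ss m = ∏ _o : Orb m, w := by rw [Finset.prod_const, Finset.card_univ]
    rw [h1, hcard, ← Finset.prod_mul_distrib]
    refine Finset.prod_congr rfl fun o _ => ?_
    field_simp
  have hG : ∀ i, ∃ G : Polynomial OO, (LH m M).coeff i - (RH m M).coeff i = Polynomial.X ^ M * G := fun i =>
    dvd_diff m M i
  choose G hG using hG
  have h3 : (RH m M).eval₂ (Polynomial.eval₂RingHom (ph K) t) w⁻¹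
      = - (t ^ M * ∑ i ∈ Finset.range (ss m + 1), (G i).eval₂ (ph K) t * w⁻¹ ^ i) := by
    rw [Polynomial.eval₂_eq_sum_range' _ (Nat.lt_succ_of_le (LH_natDegree m M))] at hL
    rw [Polynomial.eval₂_eq_sum_range' _ (Nat.lt_succ_of_le (RH_natDegree m M)), eq_neg_iff_add_eq_zero,
      Finset.mul_sum, ← Finset.sum_add_distrib, ← hL]
    refine Finset.sum_congr rfl fun i _ => ?_
    have h4 := congrArg (Polynomial.eval₂RingHom (ph K) t) (hG i)
    rw [map_sub, map_mul, map_pow] at h4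
    simp only [Polynomial.coe_eval₂RingHom, Polynomial.eval₂_X] at h4 ⊢
    linear_combination (- w⁻¹ ^ i) * h4
  have h4 : w ^ ss m * ∑ i ∈ Finset.range (ss m + 1), (G i).eval₂ (ph K) t * w⁻¹ ^ i ∈ O := by
    rw [Finset.mul_sum]
    refine O.toSubring.sum_mem fun i hi => ?_
    rw [Finset.mem_range] at hi
    have h5 : w ^ ss m = w ^ (ss m - i) * w ^ i := by rw [← pow_add]; congr 1; omega
    have h6 : w ^ ss m * ((G i).eval₂ (ph K) t * w⁻¹ ^ i) = w ^ (ss m - i) * (G i).eval₂ (ph K) t := by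
      rw [h5, inv_pow]
      field_simp
    rw [h6]
    exact O.toSubring.mul_mem (O.toSubring.pow_mem hw _) (eval_mem O _ ht)
  rw [h2, h3, show w ^ ss m * -(t ^ M * ∑ i ∈ Finset.range (ss m + 1), (G i).eval₂ (ph K) t * w⁻¹ ^ i)
    = -(t ^ M * (w ^ ss m * ∑ i ∈ Finset.range (ss m + 1), (G i).eval₂ (ph K) t * w⁻¹ ^ i)) by ring,
    Valuation.map_neg, map_mul, map_pow]
  calc _ ≤ O.valuation t ^ M * 1 := mul_le_mul_right ((val_mem O).1 h4) _
    _ = _ := mul_one _

/-- the relation makes the left side vanish -/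
lemma LH_zero (m : ℤ) [Fact (0 < m)] (M : ℕ) {t x y : K}
    (hq : (tr dS qexp_disc_mem 1 1 M).eval₂ (ph K) (t ^ m.toNat) * x =
      (tr eS qexp_Ecube_mem 1 1 M).eval₂ (ph K) (t ^ m.toNat))
    (hrel : ∑ i ∈ Finset.range (ss m + 1), (pp m i).eval₂ (ph K) x * y ^ i = 0) :
    (LH m M).eval₂ (Polynomial.eval₂RingHom (ph K) t) y = 0 := by
  rw [LH_eval, ← hq]
  have h1 : ∀ i, (∑ l ∈ Finset.range (ss m + 1), ph K ((pp m i).coeff l) *
      (((tr dS qexp_disc_mem 1 1 M).eval₂ (ph K) (t ^ m.toNat) * x) ^ l *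
          (tr dS qexp_disc_mem 1 1 M).eval₂ (ph K) (t ^ m.toNat) ^ (ss m - l)))
      = (tr dS qexp_disc_mem 1 1 M).eval₂ (ph K) (t ^ m.toNat) ^ ss m * (pp m i).eval₂ (ph K) x := by
    intro i
    rw [Polynomial.eval₂_eq_sum_range' _ (Nat.lt_succ_of_le (pp_deg m i)), Finset.mul_sum]
    refine Finset.sum_congr rfl fun l hl => ?_
    rw [Finset.mem_range] at hl
    have h2 : (tr dS qexp_disc_mem 1 1 M).eval₂ (ph K) (t ^ m.toNat) ^ ss m =
      (tr dS qexp_disc_mem 1 1 M).eval₂ (ph K) (t ^ m.toNat) ^ l *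
      (tr dS qexp_disc_mem 1 1 M).eval₂ (ph K) (t ^ m.toNat) ^ (ss m - l) := by
      rw [← pow_add]; congr 1; omega
    rw [h2, mul_pow]
    ring
  simp only [h1]
  have h3 : ∀ i ∈ Finset.range (ss m + 1), (tr dS qexp_disc_mem 1 1 M).eval₂ (ph K) (t ^ m.toNat) ^ ss m *
      (pp m i).eval₂ (ph K) x * y ^ i = (tr dS qexp_disc_mem 1 1 M).eval₂ (ph K) (t ^ m.toNat) ^ ss m *
      ((pp m i).eval₂ (ph K) x * y ^ i) := fun i _ => by ring
  rw [Finset.sum_congr rfl h3, ← Finset.mul_sum, hrel, mul_zero]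


end core

section val2
variable {K : Type*} [Field K] (O : ValuationSubring K)

lemma val_mul_unit {a b : K} (hb : O.valuation b = 1) : O.valuation (a * b) = O.valuation a := by
  rw [map_mul, hb, mul_one]

lemma unit_of_sub {a : K} (ha : O.valuation a < 1) : O.valuation (1 + a) = 1 := by
  rw [val_add_of_lt O (by rwa [map_one]), map_one]

lemma mem_mul {a b : K} (ha : a ∈ O) (hb : b ∈ O) : a * b ∈ O := O.toSubring.mul_mem ha hb
lemma mem_add {a b : K} (ha : a ∈ O) (hb : b ∈ O) : a + b ∈ O := O.toSubring.add_mem ha hb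
lemma mem_sub {a b : K} (ha : a ∈ O) (hb : b ∈ O) : a - b ∈ O := O.toSubring.sub_mem ha hb
lemma mem_pow {a : K} (ha : a ∈ O) (n : ℕ) : a ^ n ∈ O := O.toSubring.pow_mem ha n
lemma mem_ofNat (n : ℕ) : (n : K) ∈ O := natCast_mem O n

lemma lt_one_mul {a b : K} (ha : O.valuation a < 1) (hb : b ∈ O) : O.valuation (a * b) < 1 := by
  rw [map_mul]
  calc O.valuation a * O.valuation b ≤ O.valuation a * 1 := mul_le_mul_right ((val_mem O).1 hb) _
    _ < 1 := by rwa [mul_one]

end val2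

section core2
variable {K : Type*} [Field K] [Algebra ℂ K] (O : ValuationSubring K)

/-- **rigidity** -/
theorem rig_core (m : ℤ) [hm : Fact (0 < m)] [IsAlgClosed K] {p : ℕ} (hp : (p : K) ∈ O.nonunits)
    (hp0 : (p : K) ≠ 0) {x y : K}
    (hrel : ∑ i ∈ Finset.range (ss m + 1), (pp m i).eval₂ (ph K) x * y ^ i = 0) :
    Rig kap p O x y := by
  intro hx hy hpx hpx' hpy hpy'
  have hx0 : x ≠ 0 := by rintro rfl; exact hx (zero_mem O)
  have hy0 : y ≠ 0 := by rintro rfl; exact hy (zero_mem O)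
  have vpx : O.valuation (p * x) = 1 := le_antisymm ((val_mem O).1 hpx) (not_lt.1 fun h => hpx' ((val_non O).2 h))
  have vpy : O.valuation (p * y) = 1 := le_antisymm ((val_mem O).1 hpy) (not_lt.1 fun h => hpy' ((val_non O).2 h))
  have vp := (val_non O).1 hp
  set s := x⁻¹ with hs
  set w := y⁻¹ with hw
  have hs0 : s ≠ 0 := inv_ne_zero hx0
  have hw0 : w ≠ 0 := inv_ne_zero hy0
  have vs : O.valuation s = O.valuation (p : K) := by
    have : (p : K) = (p * x) * s := by rw [hs]; field_simp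
    rw [this, map_mul, vpx, one_mul]
  have vw : O.valuation w = O.valuation (p : K) := by
    have : (p : K) = (p * y) * w := by rw [hw]; field_simp
    rw [this, map_mul, vpy, one_mul]
  have hm' := mtoNat_pos m
  set n := m.toNat with hn
  set L := n ^ 2 + 3 * n with hL
  obtain ⟨q, hq, hqe⟩ := exists_param O (ss m * L) ((val_non O).2 (by rwa [vs])) hs0
  have vq1 := (val_non O).1 hq
  have hqO : q ∈ O := (val_mem O).2 vq1.le
  obtain ⟨e, he, hE⟩ := tr_E O (ss m * L) hqO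
  obtain ⟨d, hd, hD⟩ := tr_D O (ss m * L) hqO
  have m24 : (24 : K) ∈ O := by exact_mod_cast mem_ofNat O 24
  have m720 : (720 : K) ∈ O := by exact_mod_cast mem_ofNat O 720
  have m744 : (744 : K) ∈ O := by exact_mod_cast mem_ofNat O 744
  -- units
  have uE : ∀ r e : K, O.valuation r < 1 → e ∈ O → O.valuation (1 + 720 * r + r ^ 2 * e) = 1 := by
    intro r e hr he
    have hrO : r ∈ O := (val_mem O).2 hr.le
    rw [show 1 + 720 * r + r ^ 2 * e = 1 + r * (720 + r * e) by ring]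
    exact unit_of_sub O (lt_one_mul O hr (mem_add O m720 (mem_mul O hrO he)))
  have uD : ∀ r e : K, O.valuation r < 1 → e ∈ O → O.valuation (1 - 24 * r + r ^ 2 * e) = 1 := by
    intro r e hr he
    have hrO : r ∈ O := (val_mem O).2 hr.le
    rw [show 1 - 24 * r + r ^ 2 * e = 1 + r * (r * e - 24) by ring]
    exact unit_of_sub O (lt_one_mul O hr (mem_sub O (mem_mul O hrO he) m24))
  have vE := uE q e vq1 he
  have vD := uD q d vq1 hd
  rw [hE, hD] at hqe
  have vq : O.valuation q = O.valuation (p : K) := by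
    have h1 : q * (1 - 24 * q + q ^ 2 * d) = s * (1 + 720 * q + q ^ 2 * e) := by rw [← hqe]; ring
    have h2 := congrArg O.valuation h1
    rwa [val_mul_unit O vD, val_mul_unit O vE, vs] at h2
  have vp0 : O.valuation (p : K) ≠ 0 := by rwa [ne_eq, Valuation.zero_iff]
  have hq0 : q ≠ 0 := by
    intro h
    rw [h, map_zero] at vq
    exact vp0 vq.symm
  obtain ⟨t, ht⟩ := IsAlgClosed.exists_pow_nat_eq q hm'
  have ht0 : t ≠ 0 := by
    rintro rfl
    rw [zero_pow hm'.ne'] at ht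
    exact hq0 ht.symm
  have vt1 : O.valuation t < 1 := by
    by_contra hcon
    push Not at hcon
    have h1 : 1 ≤ O.valuation t ^ n := one_le_pow₀ hcon
    rw [← map_pow, ht] at h1
    exact absurd vq1 (not_lt.2 h1)
  have vt0 : 0 < O.valuation t := zero_lt_iff.2 (by rwa [ne_eq, Valuation.zero_iff])
  have htO : t ∈ O := (val_mem O).2 vt1.le
  have hwO : w ∈ O := (val_mem O).2 (by rw [vw]; exact vp.le)
  -- the product
  have hLz : (LH m (ss m * L + 3)).eval₂ (Polynomial.eval₂RingHom (ph K) t) w⁻¹ = 0 := by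
    apply LH_zero m (ss m * L + 3) (x := x)
    · rw [ht, hE, hD, hqe, hs]
      field_simp
    · rw [hw, inv_inv]; exact hrel
  have hsm := small_prod O m (ss m * L + 3) htO hwO hw0 hLz
  have hmono : ∀ {a b : ℕ}, a ≤ b → O.valuation t ^ b ≤ O.valuation t ^ a := fun h =>
    pow_le_pow_right_of_le_one' vt1.le h
  have hex : ∃ o : Orb m, O.valuation ((tr dS qexp_disc_mem 1 1 (ss m * L + 3)).eval₂ (ph K)
      (ph K (zo m o) * t ^ ko m o) - (tr eS qexp_Ecube_mem 1 1 (ss m * L + 3)).eval₂ (ph K)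
      (ph K (zo m o) * t ^ ko m o) * w) ≤ O.valuation t ^ L := by
    by_contra hcon
    push Not at hcon
    have hne : (Finset.univ : Finset (Orb m)).Nonempty :=
      ⟨mkO ⟨!![m, 0; 0, 1], by simp [Matrix.det_fin_two]⟩, Finset.mem_univ _⟩
    have h1 := val_prod Finset.univ _ (pow_pos vt0 L) hne (fun o _ => hcon o)
    rw [← map_prod, ← pow_mul, Finset.card_univ, mul_comm] at h1
    exact absurd (hsm.trans (hmono (Nat.le_add_right _ _))) (not_le.2 h1)
  obtain ⟨o, ho⟩ := hex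
  set z := ph K (zo m o) with hz
  set k := ko m o with hk
  set r := z * t ^ k with hr
  have hkpos : 0 < k := ko_pos m o
  obtain ⟨N, hN, hzN⟩ := zo_pow m o
  have hzN' : z ^ N = 1 := by rw [hz, ← map_pow, hzN, map_one]
  have vz : O.valuation z = 1 := val_root_one O hN hzN'
  have hz0 : z ≠ 0 := by
    intro h
    rw [h, map_zero] at vz
    exact zero_ne_one vz
  have hzO : z ∈ O := (val_mem O).2 vz.le
  have vr : O.valuation r = O.valuation t ^ k := by rw [hr, map_mul, vz, one_mul, map_pow]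
  have vr1 : O.valuation r < 1 := by rw [vr]; exact pow_lt_one₀ zero_le vt1 hkpos.ne'
  have hrO : r ∈ O := (val_mem O).2 vr1.le
  obtain ⟨e', he', hE'⟩ := tr_E O (ss m * L) hrO
  obtain ⟨d', hd', hD'⟩ := tr_D O (ss m * L) hrO
  have vE' := uE r e' vr1 he'
  have vD' := uD r d' vr1 hd'
  rw [hE', hD'] at ho
  set ε := (r - 24 * r ^ 2 + r ^ 3 * d') - (1 + 720 * r + r ^ 2 * e') * w with hε
  have hkL : k < L := by
    have h1 := ko_le m o
    rw [← hn, ← hk] at h1
    rw [hL]; omega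
  have hlt : O.valuation ε < O.valuation r := by
    rw [vr]
    refine lt_of_le_of_lt ho ?_
    exact pow_lt_pow_right_of_lt_one₀ vt0 vt1 hkL
  have vDr : O.valuation (r - 24 * r ^ 2 + r ^ 3 * d') = O.valuation r := by
    rw [show r - 24 * r ^ 2 + r ^ 3 * d' = r * (1 - 24 * r + r ^ 2 * d') by ring, val_mul_unit O vD']
  have vw2 : O.valuation w = O.valuation r := by
    have h1 : w * (1 + 720 * r + r ^ 2 * e') = (r - 24 * r ^ 2 + r ^ 3 * d') + (-ε) := by rw [hε]; ring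
    have h2 := congrArg O.valuation h1
    rwa [val_mul_unit O vE', val_add_of_lt O (by rwa [Valuation.map_neg, vDr]), vDr] at h2
  have hkn : k = n := by
    have h1 : O.valuation t ^ k = O.valuation t ^ n := by
      rw [← vr, ← vw2, vw, ← vq, ← ht, map_pow]
    by_contra hne
    rcases lt_or_gt_of_ne hne with h | h
    · exact absurd h1 (ne_of_gt (pow_lt_pow_right_of_lt_one₀ vt0 vt1 h))
    · exact absurd h1 (ne_of_lt (pow_lt_pow_right_of_lt_one₀ vt0 vt1 h))
  have hrq : r = z * q := by rw [hr, hkn, ht]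
  -- the error
  have hεO : ε / q ^ 3 ∈ O := by
    rw [val_mem, map_div₀, map_pow]
    have h1 : O.valuation q ^ 3 = O.valuation t ^ (3 * n) := by rw [← ht, map_pow, ← pow_mul, mul_comm]
    rw [h1]
    have h2 : O.valuation ε ≤ O.valuation t ^ (3 * n) := ho.trans (hmono (by rw [hL]; omega))
    exact div_le_one_of_le₀ h2 zero_le
  set β := ε / q ^ 3 with hβ
  have hεβ : ε = q ^ 3 * β := by rw [hβ]; field_simp
  have hdiv : ∀ a b : K, a ∈ O → O.valuation b = 1 → a / b ∈ O := by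
    intro a b ha hb
    rw [val_mem, map_div₀, hb, div_one]
    exact (val_mem O).1 ha
  -- x
  have hDne : (1 - 24 * q + q ^ 2 * d) ≠ 0 := by
    intro h; rw [h, map_zero] at vD; exact zero_ne_one vD
  have hEne : (1 + 720 * q + q ^ 2 * e) ≠ 0 := by
    intro h; rw [h, map_zero] at vE; exact zero_ne_one vE
  have hxq : x * (q * (1 - 24 * q + q ^ 2 * d)) = 1 + 720 * q + q ^ 2 * e := by
    rw [show q * (1 - 24 * q + q ^ 2 * d) = q - 24 * q ^ 2 + q ^ 3 * d by ring, hqe, hs]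
    field_simp
  set α := (e - d + 744 * 24 - 744 * q * d) / (1 - 24 * q + q ^ 2 * d) with hα
  have hαO : α ∈ O := hdiv _ _ (mem_sub O (mem_add O (mem_sub O he hd) (mem_mul O m744 m24))
    (mem_mul O (mem_mul O m744 hqO) hd)) vD
  have hx1 : x - 744 = 1 / q + q * α := by
    have hne : q * (1 - 24 * q + q ^ 2 * d) ≠ 0 := mul_ne_zero hq0 hDne
    have hαD : α * (1 - 24 * q + q ^ 2 * d) = e - d + 744 * 24 - 744 * q * d := div_mul_cancel₀ _ hDne
    have hq1 : 1 / q * q = 1 := div_mul_cancel₀ _ hq0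
    apply mul_right_cancel₀ hne
    rw [sub_mul, hxq]
    linear_combination (-(1 - 24 * q + q ^ 2 * d)) * hq1 - q ^ 2 * hαD
  -- y
  have vDz : O.valuation (z * (1 - 24 * r + r ^ 2 * d') - q ^ 2 * β) = 1 := by
    have h1 : O.valuation (z * (1 - 24 * r + r ^ 2 * d')) = 1 := by rw [val_mul_unit O vD', vz]
    rw [sub_eq_add_neg, val_add_of_lt O, h1]
    rw [h1, Valuation.map_neg]
    rw [show q ^ 2 * β = q * (q * β) by ring]
    exact lt_one_mul O vq1 (mem_mul O hqO hεO)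
  have hDzne : (z * (1 - 24 * r + r ^ 2 * d') - q ^ 2 * β) ≠ 0 := by
    intro h; rw [h, map_zero] at vDz; exact zero_ne_one vDz
  have hyq : y * (q * (z * (1 - 24 * r + r ^ 2 * d') - q ^ 2 * β)) = 1 + 720 * r + r ^ 2 * e' := by
    have h1 : (1 + 720 * r + r ^ 2 * e') * w = q * (z * (1 - 24 * r + r ^ 2 * d') - q ^ 2 * β) := by
      have h2 : (1 + 720 * r + r ^ 2 * e') * w = (r - 24 * r ^ 2 + r ^ 3 * d') - q ^ 3 * β := by
        rw [← hεβ, hε]; ring
      rw [h2]
      linear_combination (1 - 24 * r + r ^ 2 * d') * hrq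
    rw [← h1, hw]
    field_simp
  set γ := (z ^ 3 * (e' - d' + 744 * 24 - 744 * r * d') + (1 + 744 * r) * β) /
    (z * (z * (1 - 24 * r + r ^ 2 * d') - q ^ 2 * β)) with hγ
  have hγO : γ ∈ O := by
    refine hdiv _ _ (mem_add O (mem_mul O (mem_pow O hzO _) (mem_sub O (mem_add O (mem_sub O he' hd')
      (mem_mul O m744 m24)) (mem_mul O (mem_mul O m744 hrO) hd'))) (mem_mul O (mem_add O (one_mem O)
      (mem_mul O m744 hrO)) hεO)) ?_
    rw [map_mul, vz, vDz, one_mul]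
  have hy1 : y - 744 = 1 / (z * q) + q * γ := by
    have hne : z * (q * (z * (1 - 24 * r + r ^ 2 * d') - q ^ 2 * β)) ≠ 0 :=
      mul_ne_zero hz0 (mul_ne_zero hq0 hDzne)
    have hγD : γ * (z * (z * (1 - 24 * r + r ^ 2 * d') - q ^ 2 * β)) =
        z ^ 3 * (e' - d' + 744 * 24 - 744 * r * d') + (1 + 744 * r) * β :=
      div_mul_cancel₀ _ (mul_ne_zero hz0 hDzne)
    have hq1 : 1 / (z * q) * (z * q) = 1 := div_mul_cancel₀ _ (mul_ne_zero hz0 hq0)
    apply mul_right_cancel₀ hne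
    linear_combination z * hyq - (z * (1 - 24 * r + r ^ 2 * d') - q ^ 2 * β) * hq1 - q ^ 2 * hγD +
      (744 * (z * (1 - 24 * r + r ^ 2 * d') - q ^ 2 * β) +
        z * (r + z * q) * (e' - d' + 744 * 24 - 744 * r * d')) * hrq
  refine ⟨N, z⁻¹, (γ - z⁻¹ * α) * (q / p), hN, by rw [inv_pow, hzN', inv_one], ?_, ?_⟩
  · refine mem_mul O (mem_sub O hγO (mem_mul O ?_ hαO)) ?_
    · rw [val_mem, map_inv₀, vz, inv_one]
    · rw [val_mem, map_div₀, vq, div_self vp0]
  · have h744 : ((kap : ℤ) : K) = 744 := by unfold kap; norm_num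
    rw [h744, hx1, hy1]
    field_simp
    ring


end core2

/-- the modular equation, with rigidity -/
theorem exists_modular_equation_rig {m : ℤ} (hm : 0 < m) :
    ∃ P : Polynomial (Polynomial OO), P.Monic ∧
      (∀ (A : DM m) (τ : ℍ), P.eval₂ (evO (jInv τ)) (jInv (toGL hm A • τ)) = 0) ∧
      ∀ (K : Type) [Field K] [IsAlgClosed K] [Algebra ℂ K] (O : ValuationSubring K) (p : ℕ),
        p.Prime → (p : K) ∈ O.nonunits → ∀ x y : K,
        P.eval₂ (Polynomial.eval₂RingHom ((algebraMap ℂ K).comp (algebraMap OO ℂ)) x) y = 0 →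
        Rig kap p O x y := by
  have : Fact (0 < m) := ⟨hm⟩
  obtain ⟨c, ⟨hc, hc', hc0⟩, hg⟩ := pp_top_unit m
  have htop : pp m (ss m) = Polynomial.C (⟨c, hc⟩ : OO) := by
    obtain ⟨c₁, hc₁⟩ := pp_top m
    rw [hc₁]
    congr 1
    apply Subtype.ext
    have h1 := pp_eval m (ss m) UpperHalfPlane.I
    rw [hg, hc₁, Polynomial.eval₂_C] at h1
    exact (mul_left_cancel₀ (pow_ne_zero _ (discriminant_ne_zero _)) h1).symm
  let Q : Polynomial (Polynomial OO) :=
    ∑ i ∈ Finset.range (ss m), Polynomial.C (Polynomial.C (⟨c⁻¹, hc'⟩ : OO) * pp m i) * Polynomial.X ^ i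
  have hQ : Q.degree < (ss m : ℕ) := by
    refine (Polynomial.degree_sum_le _ _).trans_lt ?_
    rw [Finset.sup_lt_iff (WithBot.bot_lt_coe _)]
    intro i hi
    refine (Polynomial.degree_C_mul_X_pow_le _ _).trans_lt ?_
    exact_mod_cast Finset.mem_range.1 hi
  refine ⟨Polynomial.X ^ (ss m) + Q, Polynomial.monic_X_pow_add hQ, fun A τ => ?_, ?_⟩
  · have h := sum_root m A τ
    rw [Finset.sum_range_succ, hg] at h
    rw [Polynomial.eval₂_add, Polynomial.eval₂_X_pow, Polynomial.eval₂_finsetSum]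
    have h1 : ∀ i ∈ Finset.range (ss m),
        (Polynomial.C (Polynomial.C (⟨c⁻¹, hc'⟩ : OO) * pp m i) * Polynomial.X ^ i).eval₂
          (evO (jInv τ)) (jInv (toGL hm A • τ))
        = (c * ModularForm.discriminant τ ^ (ss m))⁻¹ * (g m i τ * jInv (toGL hm A • τ) ^ i) := by
      intro i _
      rw [Polynomial.eval₂_mul, Polynomial.eval₂_C, Polynomial.eval₂_X_pow, map_mul, pp_eval]
      have h2 : evO (jInv τ) (Polynomial.C (⟨c⁻¹, hc'⟩ : OO)) = c⁻¹ := by
        rw [evO, Polynomial.coe_eval₂RingHom, Polynomial.eval₂_C]; rfl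
      have h3 : evO (jInv τ) (pp m i) = (pp m i).eval₂ (algebraMap OO ℂ) (jInv τ) := rfl
      rw [h2, h3]
      have hD := pow_ne_zero (ss m) (discriminant_ne_zero τ)
      field_simp
    rw [Finset.sum_congr rfl h1, ← Finset.mul_sum]
    have hD := pow_ne_zero (ss m) (discriminant_ne_zero τ)
    have h4 : ∑ i ∈ Finset.range (ss m), g m i τ * jInv (toGL hm A • τ) ^ i =
        -(ModularForm.discriminant τ ^ (ss m) * c * jInv (toGL hm A • τ) ^ (ss m)) := by
      linear_combination h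
    rw [h4]
    field_simp
    ring
  · intro K _ _ _ O p hp hpO x y h
    have hchar : CharZero K := charZero_of_injective_algebraMap (algebraMap ℂ K).injective
    refine rig_core O m hpO (by exact_mod_cast hp.ne_zero) ?_
    have hcK : ph K (⟨c⁻¹, hc'⟩ : OO) ≠ 0 := by
      change algebraMap ℂ K c⁻¹ ≠ 0
      rw [ne_eq, map_eq_zero]
      exact inv_ne_zero hc0
    apply mul_left_cancel₀ hcK
    rw [mul_zero, ← h, Polynomial.eval₂_add, Polynomial.eval₂_X_pow, Polynomial.eval₂_finsetSum,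
      Finset.sum_range_succ, htop, Polynomial.eval₂_C, mul_add, Finset.mul_sum]
    have h1 : ph K (⟨c⁻¹, hc'⟩ : OO) * (ph K (⟨c, hc⟩ : OO) * y ^ ss m) = y ^ ss m := by
      have h2 : ph K (⟨c⁻¹, hc'⟩ : OO) * ph K (⟨c, hc⟩ : OO) = 1 := by
        change algebraMap ℂ K c⁻¹ * algebraMap ℂ K c = 1
        rw [← map_mul, inv_mul_cancel₀ hc0, map_one]
      rw [← mul_assoc, h2, one_mul]
    rw [h1, add_comm]
    congr 1
    refine Finset.sum_congr rfl fun i _ => ?_
    rw [Polynomial.eval₂_mul, Polynomial.eval₂_C, Polynomial.eval₂_X_pow, map_mul,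
      Polynomial.coe_eval₂RingHom, Polynomial.eval₂_C]
    ring

/-- Two points `j(g₁τ)`, `j(g₂τ)` satisfy a monic integral equation depending only on the
matrices, which is rigid. -/
theorem exists_relation_rig (g₁ g₂ : Matrix (Fin 2) (Fin 2) ℤ) (h₁ : 0 < g₁.det) (h₂ : 0 < g₂.det) :
    ∃ P : Polynomial (Polynomial OO), P.Monic ∧
      (∀ τ τ₁ τ₂ : ℍ, (τ₁ : ℂ) * (g₁ 1 0 * (τ : ℂ) + g₁ 1 1) = g₁ 0 0 * (τ : ℂ) + g₁ 0 1 →
        (τ₂ : ℂ) * (g₂ 1 0 * (τ : ℂ) + g₂ 1 1) = g₂ 0 0 * (τ : ℂ) + g₂ 0 1 →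
        P.eval₂ (evO (jInv τ₂)) (jInv τ₁) = 0) ∧
      ∀ (K : Type) [Field K] [IsAlgClosed K] [Algebra ℂ K] (O : ValuationSubring K) (p : ℕ),
        p.Prime → (p : K) ∈ O.nonunits → ∀ x y : K,
        P.eval₂ (Polynomial.eval₂RingHom ((algebraMap ℂ K).comp (algebraMap OO ℂ)) x) y = 0 →
        Rig kap p O x y := by
  have hdet : (g₁ * g₂.adjugate).det = g₁.det * g₂.det := by
    rw [Matrix.det_mul, Matrix.det_adjugate]
    simp
  have hm : 0 < g₁.det * g₂.det := mul_pos h₁ h₂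
  obtain ⟨P, hP, hP2, hP3⟩ := exists_modular_equation_rig hm
  refine ⟨P, hP, fun τ τ₁ τ₂ e₁ e₂ => ?_, hP3⟩
  have key := hP2 ⟨g₁ * g₂.adjugate, hdet⟩ τ₂
  rwa [toGL_smul_eq hm ⟨g₁ * g₂.adjugate, hdet⟩ τ₂ τ₁] at key
  have hd2 : (g₂ 1 0 * (τ : ℂ) + g₂ 1 1) ≠ 0 := by
    have := denom_ne_zero (toGL h₂ (⟨g₂, rfl⟩ : DM g₂.det)) τ
    change ((((g₂ 1 0 : ℤ) : ℝ) : ℂ) * (τ : ℂ) + (((g₂ 1 1 : ℤ) : ℝ) : ℂ)) ≠ 0 at this
    simpa using this
  apply mul_left_cancel₀ hd2
  have a00 : (g₁ * g₂.adjugate) 0 0 = g₁ 0 0 * g₂ 1 1 - g₁ 0 1 * g₂ 1 0 := by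
    simp [Matrix.mul_apply, Fin.sum_univ_two, Matrix.adjugate_fin_two]; ring
  have a01 : (g₁ * g₂.adjugate) 0 1 = - g₁ 0 0 * g₂ 0 1 + g₁ 0 1 * g₂ 0 0 := by
    simp [Matrix.mul_apply, Fin.sum_univ_two, Matrix.adjugate_fin_two]
  have a10 : (g₁ * g₂.adjugate) 1 0 = g₁ 1 0 * g₂ 1 1 - g₁ 1 1 * g₂ 1 0 := by
    simp [Matrix.mul_apply, Fin.sum_univ_two, Matrix.adjugate_fin_two]; ring
  have a11 : (g₁ * g₂.adjugate) 1 1 = - g₁ 1 0 * g₂ 0 1 + g₁ 1 1 * g₂ 0 0 := by
    simp [Matrix.mul_apply, Fin.sum_univ_two, Matrix.adjugate_fin_two]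
  simp only [a00, a01, a10, a11]
  push_cast
  linear_combination
    ((g₂ 0 0 : ℂ) * (g₂ 1 1) - (g₂ 0 1) * (g₂ 1 0)) * e₁ +
    ((τ₁ : ℂ) * ((g₁ 1 0 : ℂ) * g₂ 1 1 - g₁ 1 1 * g₂ 1 0) - ((g₁ 0 0 : ℂ) * g₂ 1 1 - g₁ 0 1 * g₂ 1 0)) * e₂

end Pool.Agent.Helper20.ZT
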