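import Pool.Agent.Helper20.ZT.Rigid

/-! # Rigidity for all moduli -/

open UpperHalfPlane ModularForm Complex Filter Function
open scoped Real MatrixGroups Topology Manifold

namespace Pool.Agent.Helper20.ZT
open Pool.Agent.Helper11.ZP

/-- the modular equation, with rigidity -/
theorem exists_modular_equation_rigE {m : ℤ} (hm : 0 < m) :
    ∃ P : Polynomial (Polynomial OO), P.Monic ∧
      (∀ (A : DM m) (τ : ℍ), P.eval₂ (evO (jInv τ)) (jInv (toGL hm A • τ)) = 0) ∧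
      ∀ (K : Type) [Field K] [IsAlgClosed K] [Algebra ℂ K] (O : ValuationSubring K) (p : ℕ),
        p ≠ 0 → (p : K) ∈ O.nonunits → ∀ x y : K,
        P.eval₂ (Polynomial.eval₂RingHom ((algebraMap ℂ K).comp (algebraMap OO ℂ)) x) y = 0 →
        Rig kap p O x y := by
  have : Fact (0 < m) := ⟨hm⟩
  obtain ⟨c, ⟨hc, hc', hc0⟩, hg⟩ := pp_top_unit m
  have htop : pp m (ss m) = Polynomial.C (⟨c, hc⟩ : OO) := by
    obtain ⟨c₁, hc₁⟩ := pp_top m
    rw [hc₁]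
    congr 1
    apply Subtype.ext
    have h1 := pp_eval m (ss m) UpperHalfPlane.I
    rw [hg, hc₁, Polynomial.eval₂_C] at h1
    exact (mul_left_cancel₀ (pow_ne_zero _ (discriminant_ne_zero _)) h1).symm
  let Q : Polynomial (Polynomial OO) :=
    ∑ i ∈ Finset.range (ss m), Polynomial.C (Polynomial.C (⟨c⁻¹, hc'⟩ : OO) * pp m i) * Polynomial.X ^ i
  have hQ : Q.degree < (ss m : ℕ) := by
    refine (Polynomial.degree_sum_le _ _).trans_lt ?_
    rw [Finset.sup_lt_iff (WithBot.bot_lt_coe _)]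
    intro i hi
    refine (Polynomial.degree_C_mul_X_pow_le _ _).trans_lt ?_
    exact_mod_cast Finset.mem_range.1 hi
  refine ⟨Polynomial.X ^ (ss m) + Q, Polynomial.monic_X_pow_add hQ, fun A τ => ?_, ?_⟩
  · have h := sum_root m A τ
    rw [Finset.sum_range_succ, hg] at h
    rw [Polynomial.eval₂_add, Polynomial.eval₂_X_pow, Polynomial.eval₂_finsetSum]
    have h1 : ∀ i ∈ Finset.range (ss m),
        (Polynomial.C (Polynomial.C (⟨c⁻¹, hc'⟩ : OO) * pp m i) * Polynomial.X ^ i).eval₂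
          (evO (jInv τ)) (jInv (toGL hm A • τ))
        = (c * ModularForm.discriminant τ ^ (ss m))⁻¹ * (g m i τ * jInv (toGL hm A • τ) ^ i) := by
      intro i _
      rw [Polynomial.eval₂_mul, Polynomial.eval₂_C, Polynomial.eval₂_X_pow, map_mul, pp_eval]
      have h2 : evO (jInv τ) (Polynomial.C (⟨c⁻¹, hc'⟩ : OO)) = c⁻¹ := by
        rw [evO, Polynomial.coe_eval₂RingHom, Polynomial.eval₂_C]; rfl
      have h3 : evO (jInv τ) (pp m i) = (pp m i).eval₂ (algebraMap OO ℂ) (jInv τ) := rfl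
      rw [h2, h3]
      have hD := pow_ne_zero (ss m) (discriminant_ne_zero τ)
      field_simp
    rw [Finset.sum_congr rfl h1, ← Finset.mul_sum]
    have hD := pow_ne_zero (ss m) (discriminant_ne_zero τ)
    have h4 : ∑ i ∈ Finset.range (ss m), g m i τ * jInv (toGL hm A • τ) ^ i =
        -(ModularForm.discriminant τ ^ (ss m) * c * jInv (toGL hm A • τ) ^ (ss m)) := by
      linear_combination h
    rw [h4]
    field_simp
    ring
  · intro K _ _ _ O p hp hpO x y h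
    have hchar : CharZero K := charZero_of_injective_algebraMap (algebraMap ℂ K).injective
    refine rig_core O m hpO (by exact_mod_cast hp) ?_
    have hcK : ph K (⟨c⁻¹, hc'⟩ : OO) ≠ 0 := by
      change algebraMap ℂ K c⁻¹ ≠ 0
      rw [ne_eq, map_eq_zero]
      exact inv_ne_zero hc0
    apply mul_left_cancel₀ hcK
    rw [mul_zero, ← h, Polynomial.eval₂_add, Polynomial.eval₂_X_pow, Polynomial.eval₂_finsetSum,
      Finset.sum_range_succ, htop, Polynomial.eval₂_C, mul_add, Finset.mul_sum]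
    have h1 : ph K (⟨c⁻¹, hc'⟩ : OO) * (ph K (⟨c, hc⟩ : OO) * y ^ ss m) = y ^ ss m := by
      have h2 : ph K (⟨c⁻¹, hc'⟩ : OO) * ph K (⟨c, hc⟩ : OO) = 1 := by
        change algebraMap ℂ K c⁻¹ * algebraMap ℂ K c = 1
        rw [← map_mul, inv_mul_cancel₀ hc0, map_one]
      rw [← mul_assoc, h2, one_mul]
    rw [h1, add_comm]
    congr 1
    refine Finset.sum_congr rfl fun i _ => ?_
    rw [Polynomial.eval₂_mul, Polynomial.eval₂_C, Polynomial.eval₂_X_pow, map_mul,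
      Polynomial.coe_eval₂RingHom, Polynomial.eval₂_C]
    ring

/-- Two points `j(g₁τ)`, `j(g₂τ)` satisfy a monic integral equation depending only on the
matrices, which is rigid. -/
theorem exists_relation_rigE (g₁ g₂ : Matrix (Fin 2) (Fin 2) ℤ) (h₁ : 0 < g₁.det) (h₂ : 0 < g₂.det) :
    ∃ P : Polynomial (Polynomial OO), P.Monic ∧
      (∀ τ τ₁ τ₂ : ℍ, (τ₁ : ℂ) * (g₁ 1 0 * (τ : ℂ) + g₁ 1 1) = g₁ 0 0 * (τ : ℂ) + g₁ 0 1 →
        (τ₂ : ℂ) * (g₂ 1 0 * (τ : ℂ) + g₂ 1 1) = g₂ 0 0 * (τ : ℂ) + g₂ 0 1 →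
        P.eval₂ (evO (jInv τ₂)) (jInv τ₁) = 0) ∧
      ∀ (K : Type) [Field K] [IsAlgClosed K] [Algebra ℂ K] (O : ValuationSubring K) (p : ℕ),
        p ≠ 0 → (p : K) ∈ O.nonunits → ∀ x y : K,
        P.eval₂ (Polynomial.eval₂RingHom ((algebraMap ℂ K).comp (algebraMap OO ℂ)) x) y = 0 →
        Rig kap p O x y := by
  have hdet : (g₁ * g₂.adjugate).det = g₁.det * g₂.det := by
    rw [Matrix.det_mul, Matrix.det_adjugate]
    simp
  have hm : 0 < g₁.det * g₂.det := mul_pos h₁ h₂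
  obtain ⟨P, hP, hP2, hP3⟩ := exists_modular_equation_rigE hm
  refine ⟨P, hP, fun τ τ₁ τ₂ e₁ e₂ => ?_, hP3⟩
  have key := hP2 ⟨g₁ * g₂.adjugate, hdet⟩ τ₂
  rwa [toGL_smul_eq hm ⟨g₁ * g₂.adjugate, hdet⟩ τ₂ τ₁] at key
  have hd2 : (g₂ 1 0 * (τ : ℂ) + g₂ 1 1) ≠ 0 := by
    have := denom_ne_zero (toGL h₂ (⟨g₂, rfl⟩ : DM g₂.det)) τ
    change ((((g₂ 1 0 : ℤ) : ℝ) : ℂ) * (τ : ℂ) + (((g₂ 1 1 : ℤ) : ℝ) : ℂ)) ≠ 0 at this
    simpa using this
  apply mul_left_cancel₀ hd2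
  have a00 : (g₁ * g₂.adjugate) 0 0 = g₁ 0 0 * g₂ 1 1 - g₁ 0 1 * g₂ 1 0 := by
    simp [Matrix.mul_apply, Fin.sum_univ_two, Matrix.adjugate_fin_two]; ring
  have a01 : (g₁ * g₂.adjugate) 0 1 = - g₁ 0 0 * g₂ 0 1 + g₁ 0 1 * g₂ 0 0 := by
    simp [Matrix.mul_apply, Fin.sum_univ_two, Matrix.adjugate_fin_two]
  have a10 : (g₁ * g₂.adjugate) 1 0 = g₁ 1 0 * g₂ 1 1 - g₁ 1 1 * g₂ 1 0 := by
    simp [Matrix.mul_apply, Fin.sum_univ_two, Matrix.adjugate_fin_two]; ring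
  have a11 : (g₁ * g₂.adjugate) 1 1 = - g₁ 1 0 * g₂ 0 1 + g₁ 1 1 * g₂ 0 0 := by
    simp [Matrix.mul_apply, Fin.sum_univ_two, Matrix.adjugate_fin_two]
  simp only [a00, a01, a10, a11]
  push_cast
  linear_combination
    ((g₂ 0 0 : ℂ) * (g₂ 1 1) - (g₂ 0 1) * (g₂ 1 0)) * e₁ +
    ((τ₁ : ℂ) * ((g₁ 1 0 : ℂ) * g₂ 1 1 - g₁ 1 1 * g₂ 1 0) - ((g₁ 0 0 : ℂ) * g₂ 1 1 - g₁ 0 1 * g₂ 1 0)) * e₂

end Pool.Agent.Helper20.ZT
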